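import Pool.Agent.Lib.MP_7daf54_al.Cofinal

set_option autoImplicit false

/-!
# A limit of exponential growth
-/

namespace MP7daf

open Filter

section general

variable {G H : Type} [Group G] [Group H] {k : ℕ}

/-- Convergence gives, for every radius, a marking with the same relations. -/
theorem Converges.exists_agree {S : ℕ → Fin k → G} {T : Fin k → H} (h : Converges S T) (R : ℕ) :
    ∃ n, ∀ w : List (Fin k × Bool), w.length ≤ R → (evalW (S n) w = 1 ↔ evalW T w = 1) := by
  obtain ⟨N, hN⟩ := h R
  exact ⟨N, hN N le_rfl⟩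

/-- The ultralimit of a sequence of markings of a group. -/
theorem exists_ultralimit (S : ℕ → Fin k → G) (hS : ∀ n, Generates (S n)) :
    ∃ (K : Type) (_ : Group K) (T : Fin k → K), Generates T ∧ Preforms G K ∧
      ∀ R N : ℕ, ∃ n, N ≤ n ∧ ∀ w : List (Fin k × Bool), w.length ≤ R →
        (evalW (S n) w = 1 ↔ evalW T w = 1) := by
  classical
  let U : Ultrafilter ℕ := hyperfilter ℕ
  let T₀ : Fin k → Germ (U : Filter ℕ) G := fun i => ((fun n => S n i : ℕ → G) : Germ (U : Filter ℕ) G)
  let K : Subgroup (Germ (U : Filter ℕ) G) := Subgroup.closure (Set.range T₀)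
  let T : Fin k → K := fun i => ⟨T₀ i, Subgroup.subset_closure ⟨i, rfl⟩⟩
  have hT : Generates T := by
    unfold Generates
    have e : Set.range T = ((↑) : K → Germ (U : Filter ℕ) G) ⁻¹' Set.range T₀ := by
      ext x
      constructor
      · rintro ⟨i, rfl⟩; exact ⟨i, rfl⟩
      · rintro ⟨i, hi⟩; exact ⟨i, Subtype.ext hi⟩
    rw [e]
    exact Subgroup.closure_closure_coe_preimage
  have hev : ∀ w : List (Fin k × Bool), evalW T₀ w =
      ((fun n => evalW (S n) w : ℕ → G) : Germ (U : Filter ℕ) G) := by
    intro w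
    induction w with
    | nil => rfl
    | cons q w ih =>
      rw [evalW_cons, ih]
      by_cases hq : q.2
      · rw [if_pos hq]
        change ((fun n => S n q.1 * evalW (S n) w : ℕ → G) : Germ (U : Filter ℕ) G) = _
        congr 1
        funext n
        rw [evalW_cons, if_pos hq]
      · rw [if_neg hq]
        change ((fun n => (S n q.1)⁻¹ * evalW (S n) w : ℕ → G) : Germ (U : Filter ℕ) G) = _
        congr 1
        funext n
        rw [evalW_cons, if_neg hq]
  have hone : ∀ w : List (Fin k × Bool), evalW T w = 1 ↔ ∀ᶠ n in (U : Filter ℕ),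
      evalW (S n) w = 1 := by
    intro w
    have h1 : K.subtype (evalW T w) = evalW T₀ w := map_evalW K.subtype T w
    have h2 : evalW T w = 1 ↔ evalW T₀ w = 1 := by
      rw [← h1]
      exact ⟨fun h => by rw [h, map_one], fun h => Subtype.ext h⟩
    rw [h2, hev w]
    exact Germ.coe_eq
  have hag : ∀ R : ℕ, ∀ᶠ n in (U : Filter ℕ), ∀ w : List (Fin k × Bool), w.length ≤ R →
      (evalW (S n) w = 1 ↔ evalW T w = 1) := by
    intro R
    have hfin : {w : List (Fin k × Bool) | w.length ≤ R}.Finite :=
      List.finite_length_le (Fin k × Bool) R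
    have key : ∀ w ∈ {w : List (Fin k × Bool) | w.length ≤ R}, ∀ᶠ n in (U : Filter ℕ),
        (evalW (S n) w = 1 ↔ evalW T w = 1) := by
      intro w _
      by_cases hw : evalW T w = 1
      · filter_upwards [(hone w).mp hw] with n hn
        exact ⟨fun _ => hw, fun _ => hn⟩
      · have h1 : ¬ ∀ᶠ n in (U : Filter ℕ), evalW (S n) w = 1 := fun h => hw ((hone w).mpr h)
        have h2 : ∀ᶠ n in (U : Filter ℕ), ¬ evalW (S n) w = 1 := Ultrafilter.eventually_not.mpr h1
        filter_upwards [h2] with n hn
        exact ⟨fun h => absurd h hn, fun h => absurd h hw⟩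
    exact (eventually_all_finite hfin).mpr key
  have hex : ∀ R N : ℕ, ∃ n, N ≤ n ∧ ∀ w : List (Fin k × Bool), w.length ≤ R →
      (evalW (S n) w = 1 ↔ evalW T w = 1) := by
    intro R N
    have h1 : ∀ᶠ n in (U : Filter ℕ), N ≤ n := by
      have h2 : (U : Filter ℕ) ≤ atTop := by
        rw [← Nat.cofinite_eq_atTop]
        exact hyperfilter_le_cofinite
      exact h2 (eventually_ge_atTop N)
    exact (h1.and (hag R)).exists
  refine ⟨K, inferInstance, T, hT, ?_, hex⟩
  choose n hn using fun R => hex R 0
  refine ⟨k, fun R => S (n R), T, fun R => hS _, hT, fun R => ⟨R, fun m hm w hw => ?_⟩⟩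
  exact (hn m).2 w (le_trans hw hm)

end general

/-- **A limit of exponential growth.** -/
theorem exists_exponential : ∃ (K : Type) (_ : Group K) (k : ℕ) (T : Fin k → K), Generates T ∧
    Preforms Gs K ∧ ∀ n : ℕ, 2 ^ (n / (57 * 114)) ≤ growth T n := by
  -- markings which agree with the limit groups of `false ^ r, true, ...` up to length `r`
  choose S hS using fun r : ℕ => (converges _ (omega_often fun _ => r)).exists_agree r
  obtain ⟨K, hK, t, ht, hpre, hex⟩ := exists_ultralimit
    (fun r => MP7daf.S (omega fun _ => r) (S r)) (fun r => S_gen _ _)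
  refine ⟨K, hK, 3, t, ht, hpre, fun n => ?_⟩
  obtain ⟨r, hr, hag⟩ := hex (2 * n) (2 * n)
  have h1 : growth t n = growth (T (omega fun _ => r)) n := by
    refine growth_congr _ _ n fun w hw => ?_
    rw [← hag w hw]
    exact hS r w (le_trans hw hr)
  rw [h1, growth_T]
  have h2 := ball_lower (fun _ => r) 0 n ?_
  · simpa using h2
  · have h3 : (∑ i ∈ Finset.range (0 + 1), (fun _ : ℕ => r) i) = r := by simp
    rw [h3]
    calc n ≤ r := by omega
      _ ≤ 5 ^ r := (Nat.lt_pow_self (by norm_num)).le

end MP7daf
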