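import Pool.Agent.Lib.MP_7daf54_al.Stage
import Pool.Agent.Lib.MP_7daf54_al.Ultra

set_option autoImplicit false

/-!
# Continuum many limits with pairwise incomparable growth
-/

namespace MP7daf

open Classical

/-- The bit read at stage `j`. -/
noncomputable def bit (x : ℕ → Bool) (j : ℕ) : Bool :=
  decide (x ((Nat.unpair j).1 / 2) = decide ((Nat.unpair j).1 % 2 = 1))

theorem exists_stage (i : ℕ) (b : Bool) (J : ℕ) : ∃ j, J ≤ j ∧ ∀ x : ℕ → Bool,
    bit x j = decide (x i = b) := by
  refine ⟨Nat.pair (2 * i + b.toNat) J, Nat.right_le_pair _ _, fun x => ?_⟩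
  unfold bit
  rw [Nat.unpair_pair]
  simp only
  have h1 : (2 * i + b.toNat) / 2 = i := by cases b <;> simp <;> omega
  have h2 : decide ((2 * i + b.toNat) % 2 = 1) = b := by cases b <;> simp <;> omega
  rw [h1, h2]

/-- The prefixes. -/
noncomputable def pre (a l m : ℕ → ℕ) (x : ℕ → Bool) : ℕ → List Bool
  | 0 => []
  | j + 1 => pre a l m x j ++ blk (a j) (l j) (m j) (bit x j)

/-- The finite sets of the possible prefixes. -/
noncomputable def Fset (a l m : ℕ → ℕ) : ℕ → Finset (List Bool)
  | 0 => {[]}
  | j + 1 => ((Fset a l m j).image fun σ => σ ++ blk (a j) (l j) (m j) true) ∪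
      (Fset a l m j).image fun σ => σ ++ blk (a j) (l j) (m j) false

theorem pre_mem (a l m : ℕ → ℕ) (x : ℕ → Bool) (j : ℕ) : pre a l m x j ∈ Fset a l m j := by
  induction j with
  | zero => simp [pre, Fset]
  | succ j ih =>
    rw [pre, Fset, Finset.mem_union, Finset.mem_image, Finset.mem_image]
    cases hb : bit x j with
    | true => exact Or.inl ⟨_, ih, rfl⟩
    | false => exact Or.inr ⟨_, ih, rfl⟩

/-- The numbers of letters `true` in the prefixes. -/
def Lsum (l : ℕ → ℕ) (j : ℕ) : ℕ := ∑ i ∈ Finset.range j, (1 + l i)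

theorem Fset_count (a l m : ℕ → ℕ) (j : ℕ) : ∀ σ ∈ Fset a l m j, σ.count true ≤ Lsum l j := by
  induction j with
  | zero => intro σ hσ; rw [Fset, Finset.mem_singleton] at hσ; subst hσ; simp
  | succ j ih =>
    intro σ hσ
    rw [Fset, Finset.mem_union, Finset.mem_image, Finset.mem_image] at hσ
    have e : Lsum l (j + 1) = Lsum l j + (1 + l j) := Finset.sum_range_succ _ _
    rcases hσ with ⟨ρ, hρ, rfl⟩ | ⟨ρ, hρ, rfl⟩
    · rw [List.count_append, blk_count, e]
      exact Nat.add_le_add_right (ih ρ hρ) _
    · rw [List.count_append, blk_count, e]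
      exact Nat.add_le_add_right (ih ρ hρ) _

/-- The prefixes depend only on the earlier values of `m`. -/
theorem Fset_congr (a l m m' : ℕ → ℕ) (j : ℕ) (h : ∀ i < j, m i = m' i) :
    Fset a l m j = Fset a l m' j := by
  induction j with
  | zero => rfl
  | succ j ih => rw [Fset, Fset, ih fun i hi => h i (by omega), h j (by omega)]

/-- A sequence with a property depending on the earlier values. -/
theorem exists_seq (P : ℕ → (ℕ → ℕ) → ℕ → Prop) (hP : ∀ j m, ∃ v, P j m v)
    (hcongr : ∀ j m m' v, (∀ i < j, m i = m' i) → P j m v → P j m' v) :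
    ∃ m : ℕ → ℕ, ∀ j, P j m (m j) := by
  choose g hg using hP
  -- lists of the values so far
  let step : List ℕ → ℕ := fun s => g s.length fun i => s.getD i 0
  let hist : ℕ → List ℕ := fun j => Nat.rec [] (fun _ s => s ++ [step s]) j
  have hlen : ∀ j, (hist j).length = j := by
    intro j
    induction j with
    | zero => rfl
    | succ j ih =>
      change (hist j ++ [step (hist j)]).length = j + 1
      rw [List.length_append, ih]; rfl
  let m : ℕ → ℕ := fun j => step (hist j)
  have hget : ∀ j i, i < j → (hist j).getD i 0 = m i := by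
    intro j
    induction j with
    | zero => intro i hi; exact absurd hi (Nat.not_lt_zero i)
    | succ j ih =>
      intro i hi
      change (hist j ++ [step (hist j)]).getD i 0 = m i
      rcases Nat.lt_succ_iff_lt_or_eq.mp hi with h | h
      · rw [List.getD_append _ _ _ _ (by rw [hlen]; exact h)]
        exact ih i h
      · subst h
        rw [List.getD_append_right _ _ _ _ (by rw [hlen]), hlen, Nat.sub_self]
        rfl
  refine ⟨m, fun j => ?_⟩
  have h1 := hg (hist j).length fun i => (hist j).getD i 0
  have h2 : P j (fun i => (hist j).getD i 0) (m j) := by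
    have := h1
    rw [hlen] at this
    convert this using 1
    change g (hist j).length _ = g j _
    rw [hlen]
  exact hcongr j _ m _ (fun i hi => hget j i hi) h2

/-- The sequence with the given prefixes. -/
noncomputable def om (P : ℕ → List Bool) (n : ℕ) : Bool := (P (n + 1)).getD n false

theorem om_eq (P : ℕ → List Bool) (hP : ∀ j, P j <+: P (j + 1)) (hlen : ∀ j, j ≤ (P j).length)
    (j : ℕ) : om P = app (P j) fun n => om P (n + (P j).length) := by
  have hmono : ∀ i k, P i <+: P (i + k) := by
    intro i k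
    induction k with
    | zero => exact List.prefix_rfl
    | succ k ih => exact ih.trans (hP (i + k))
  have hget : ∀ i k n, n < (P i).length → (P (i + k)).getD n false = (P i).getD n false := by
    intro i k n hn
    obtain ⟨ρ, hρ⟩ := hmono i k
    rw [← hρ, List.getD_append _ _ _ _ hn]
  funext n
  by_cases hn : n < (P j).length
  · rw [app_lt _ _ _ hn]
    have h1 : (P (n + 1)).getD n false = (P j).getD n false := by
      rcases le_total (n + 1) j with h | h
      · obtain ⟨k, rfl⟩ := Nat.exists_eq_add_of_le h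
        exact (hget (n + 1) k n (lt_of_lt_of_le (Nat.lt_succ_self n) (hlen (n + 1)))).symm
      · obtain ⟨k, hk⟩ := Nat.exists_eq_add_of_le h
        rw [hk]
        exact hget j k n hn
    change (P (n + 1)).getD n false = _
    rw [h1, List.getD_eq_getElem _ _ hn]
  · obtain ⟨k, hk⟩ : ∃ k, n = k + (P j).length := ⟨n - (P j).length, by omega⟩
    subst hk
    rw [app_add]

/-- **The family of incomparable limits.** -/
theorem exists_family (hU : UpperPrefix) {f : ℕ → ℕ} (hf : Subexp f) :
    ∃ ω : (ℕ → Bool) → (ℕ → Bool), (∀ x N, ∃ n, N ≤ n ∧ ω x n = true) ∧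
      (∃ N, ∀ x n, N ≤ n → f n ≤ (ball (ω x) n).card) ∧
      (∀ x, ∀ C d : ℕ, ∃ n, C * (n + 1) ^ d < (ball (ω x) n).card) ∧
      ∀ x y, x ≠ y → ∀ C : ℕ, ∃ n, (ball (ω y) (C * n)).card < (ball (ω x) n).card := by
  -- the numbers of letters `true`
  choose lf hlf1 hlf using exists_l
  obtain ⟨l, hl⟩ : ∃ l : ℕ → ℕ, ∀ j, l j = lf (Lsum l j) j :=
    exists_seq (fun j l v => v = lf (Lsum l j) j) (fun j l => ⟨_, rfl⟩) (by
      intro j m m' v h hv
      rw [hv]
      have : Lsum m j = Lsum m' j := Finset.sum_congr rfl fun i hi => by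
        rw [h i (Finset.mem_range.mp hi)]
      rw [this])
  have hl1 : ∀ j, 1 ≤ l j := fun j => by rw [hl]; exact hlf1 _ _
  have hlε : ∀ j, (11 / 13 : ℝ) ^ l j * Real.log 7 <
      Real.log 2 / (2 * (57 * 114 ^ (Lsum l j + 2) : ℕ) * (j + 1)) := fun j => by
    rw [hl]; exact hlf _ _
  -- the thresholds
  choose N hN using fun j => subexp_eventually hf (57 * 114 ^ (Lsum l j + 1))
    (Nat.mul_pos (by norm_num) (Nat.pow_pos (by norm_num)))
  let M : ℕ → ℕ := fun j => (∑ i ∈ Finset.range (j + 1), N i) + j
  have hM : ∀ j n, M j ≤ n → f n ≤ 2 ^ (n / (57 * 114 ^ (Lsum l j + 1))) := by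
    intro j n hn
    refine hN j n (le_trans ?_ hn)
    have : N j ≤ ∑ i ∈ Finset.range (j + 1), N i :=
      Finset.single_le_sum (fun _ _ => Nat.zero_le _) (Finset.mem_range.mpr (Nat.lt_succ_self j))
    simp only [M]
    omega
  have hMj : ∀ j, j ≤ M j := fun j => by simp only [M]; omega
  let a : ℕ → ℕ := fun j => M (j + 1)
  -- the fast blocks
  obtain ⟨m, hm⟩ : ∃ m : ℕ → ℕ, ∀ j, ∃ n : ℕ, ∀ σ ∈ Fset a l m j, ∀ τ : ℕ → Bool,
      j * (n + 1) ^ j < (ball (app (σ ++ blk (a j) (l j) (m j) true) τ) n).card ∧
      ∀ σ' ∈ Fset a l m j, ∀ τ' : ℕ → Bool,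
        (ball (app (σ' ++ blk (a j) (l j) (m j) false) τ') ((j + 1) * n)).card <
        (ball (app (σ ++ blk (a j) (l j) (m j) true) τ) n).card :=
    exists_seq (fun j m v => ∃ n : ℕ, ∀ σ ∈ Fset a l m j, ∀ τ : ℕ → Bool,
      j * (n + 1) ^ j < (ball (app (σ ++ blk (a j) (l j) v true) τ) n).card ∧
      ∀ σ' ∈ Fset a l m j, ∀ τ' : ℕ → Bool,
        (ball (app (σ' ++ blk (a j) (l j) v false) τ') ((j + 1) * n)).card <
        (ball (app (σ ++ blk (a j) (l j) v true) τ) n).card)
      (fun j m => stage hU (Lsum l j) j (l j) (hl1 j) (hlε j) (Fset a l m j)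
        (Fset_count a l m j) (a j))
      (by
        intro j m m' v h hv
        rw [← Fset_congr a l m m' j h]
        exact hv)
  -- the sequences
  let P : (ℕ → Bool) → ℕ → List Bool := fun x => pre a l m x
  have hPpre : ∀ x j, P x j <+: P x (j + 1) := fun x j => ⟨_, rfl⟩
  have hPlen : ∀ x j, j ≤ (P x j).length := by
    intro x j
    induction j with
    | zero => exact Nat.zero_le _
    | succ j ih =>
      change j + 1 ≤ (P x j ++ blk (a j) (l j) (m j) (bit x j)).length
      rw [List.length_append]
      have : 1 ≤ (blk (a j) (l j) (m j) (bit x j)).length := by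
        simp only [blk, List.length_append, List.length_cons, List.length_nil]
        omega
      omega
  have hom : ∀ x j, ∃ τ : ℕ → Bool, om (P x) = app (P x j) τ :=
    fun x j => ⟨_, om_eq (P x) (hPpre x) (hPlen x) j⟩
  have hmem : ∀ x j, P x j ∈ Fset a l m j := fun x j => pre_mem a l m x j
  refine ⟨fun x => om (P x), ?_, ?_, ?_, ?_⟩
  · -- infinitely many `true`
    intro x K
    obtain ⟨τ, hτ⟩ := hom x (K + 1)
    refine ⟨(P x K ++ List.replicate (a K) false).length, ?_, ?_⟩
    · rw [List.length_append]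
      exact le_trans (hPlen x K) (Nat.le_add_right _ _)
    · have e : P x (K + 1) = (P x K ++ List.replicate (a K) false) ++ ([true] ++
          ((if bit x K then List.replicate (m K) false else []) ++ List.replicate (l K) true)) := by
        change P x K ++ blk (a K) (l K) (m K) (bit x K) = _
        unfold blk
        simp
      have h1 := app_add (P x K ++ List.replicate (a K) false) (app ([true] ++
          ((if bit x K then List.replicate (m K) false else []) ++ List.replicate (l K) true)) τ) 0
      rw [Nat.zero_add, ← app_append, ← e, ← hτ] at h1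
      exact h1
  · -- the lower bound
    refine ⟨M 0, fun x n hn => ?_⟩
    have hex : ∃ j, n < M (j + 1) := ⟨n, lt_of_lt_of_le (Nat.lt_succ_self n) (hMj (n + 1))⟩
    set j := Nat.find hex with hj
    have h1 : n < M (j + 1) := Nat.find_spec hex
    have h2 : M j ≤ n := by
      rcases Nat.eq_zero_or_pos j with h0 | h0
      · rw [h0]; exact hn
      · have h3 := Nat.find_min hex (show j - 1 < Nat.find hex by omega)
        rw [not_lt, Nat.sub_add_cancel h0] at h3
        exact h3
    obtain ⟨τ, hτ⟩ := hom x (j + 1)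
    have e : P x (j + 1) = P x j ++ List.replicate (a j) false ++ [true] ++
          ((if bit x j then List.replicate (m j) false else []) ++ List.replicate (l j) true) := by
      change P x j ++ blk (a j) (l j) (m j) (bit x j) = _
      unfold blk
      simp
    change f n ≤ (ball (om (P x)) n).card
    rw [hτ, e, app_append]
    refine le_trans (hM j n h2) (ball_prefix (P x j) (Lsum l j) (a j)
      (Fset_count a l m j _ (hmem x j)) _ n ?_)
    calc n ≤ M (j + 1) := h1.le
      _ ≤ 5 ^ a j := (Nat.lt_pow_self (by norm_num)).le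
  · -- not polynomial
    intro x C d
    obtain ⟨j, hj, hbit⟩ := exists_stage 0 (x 0) (max C d)
    obtain ⟨n, hn⟩ := hm j
    obtain ⟨τ, hτ⟩ := hom x (j + 1)
    have hb : bit x j = true := by rw [hbit x]; simp
    have e : P x (j + 1) = P x j ++ blk (a j) (l j) (m j) true := by
      change P x j ++ blk (a j) (l j) (m j) (bit x j) = _
      rw [hb]
    refine ⟨n, ?_⟩
    change C * (n + 1) ^ d < (ball (om (P x)) n).card
    rw [hτ, e]
    refine lt_of_le_of_lt ?_ (hn (P x j) (hmem x j) τ).1
    calc C * (n + 1) ^ d ≤ j * (n + 1) ^ d :=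
          Nat.mul_le_mul_right _ (le_trans (le_max_left _ _) hj)
      _ ≤ j * (n + 1) ^ j := Nat.mul_le_mul_left _
          (Nat.pow_le_pow_right (Nat.succ_pos n) (le_trans (le_max_right _ _) hj))
  · -- incomparable
    intro x y hxy C
    obtain ⟨i, hi⟩ : ∃ i, x i ≠ y i := by
      by_contra h
      push Not at h
      exact hxy (funext h)
    obtain ⟨j, hj, hbit⟩ := exists_stage i (x i) C
    obtain ⟨n, hn⟩ := hm j
    obtain ⟨τ, hτ⟩ := hom x (j + 1)
    obtain ⟨τ', hτ'⟩ := hom y (j + 1)
    have hbx : bit x j = true := by rw [hbit x]; simp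
    have hby : bit y j = false := by
      rw [hbit y, decide_eq_false_iff_not]
      exact fun h => hi h.symm
    have ex : P x (j + 1) = P x j ++ blk (a j) (l j) (m j) true := by
      change P x j ++ blk (a j) (l j) (m j) (bit x j) = _
      rw [hbx]
    have ey : P y (j + 1) = P y j ++ blk (a j) (l j) (m j) false := by
      change P y j ++ blk (a j) (l j) (m j) (bit y j) = _
      rw [hby]
    refine ⟨n, ?_⟩
    change (ball (om (P y)) (C * n)).card < (ball (om (P x)) n).card
    rw [hτ, hτ', ex, ey]
    refine lt_of_le_of_lt (Finset.card_le_card (ball_mono' _ ?_))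
      ((hn (P x j) (hmem x j) τ).2 (P y j) (hmem y j) τ')
    exact Nat.mul_le_mul_right _ (le_trans hj (Nat.le_succ j))

end MP7daf
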