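import Pool.Agent.Lib.MP_7daf54_al.Lower

set_option autoImplicit false

/-!
# Sequences made of blocks, and the lower bound for the growth
-/

namespace MP7daf

open Classical

/-- The position of the `j`-th `true`. -/
def tpos (m : ℕ → ℕ) (j : ℕ) : ℕ := (∑ i ∈ Finset.range (j + 1), m i) + j

/-- The sequence of blocks: `m 0` times `false`, then `true`, then `m 1` times `false`, ... -/
noncomputable def omega (m : ℕ → ℕ) (n : ℕ) : Bool := decide (∃ j, n = tpos m j)

theorem omega_eq_true {m : ℕ → ℕ} {n : ℕ} : omega m n = true ↔ ∃ j, n = tpos m j := by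
  simp [omega]

theorem tpos_zero (m : ℕ → ℕ) : tpos m 0 = m 0 := by simp [tpos]

theorem tpos_succ (m : ℕ → ℕ) (j : ℕ) : tpos m (j + 1) = tpos (tail m) j + m 0 + 1 := by
  unfold tpos tail
  rw [Finset.sum_range_succ' m (j + 1)]
  omega

theorem le_tpos (m : ℕ → ℕ) (j : ℕ) : j ≤ tpos m j := by unfold tpos; omega

theorem omega_false {m : ℕ → ℕ} {n : ℕ} (h : n < m 0) : omega m n = false := by
  rw [Bool.eq_false_iff, Ne, omega_eq_true]
  rintro ⟨j, hj⟩
  cases j with
  | zero => rw [tpos_zero] at hj; omega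
  | succ j => rw [tpos_succ] at hj; omega

theorem omega_true (m : ℕ → ℕ) : omega m (m 0) = true := by
  rw [omega_eq_true]
  exact ⟨0, (tpos_zero m).symm⟩

theorem omega_shift (m : ℕ → ℕ) : (fun n => omega m (n + m 0 + 1)) = omega (tail m) := by
  funext n
  rw [Bool.eq_iff_iff, omega_eq_true, omega_eq_true]
  constructor
  · rintro ⟨j, hj⟩
    cases j with
    | zero => rw [tpos_zero] at hj; omega
    | succ j => exact ⟨j, by rw [tpos_succ] at hj; omega⟩
  · rintro ⟨j, hj⟩
    exact ⟨j + 1, by rw [tpos_succ]; omega⟩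

theorem omega_often (m : ℕ → ℕ) (N : ℕ) : ∃ n, N ≤ n ∧ omega m n = true :=
  ⟨tpos m N, le_tpos m N, omega_eq_true.mpr ⟨N, rfl⟩⟩

theorem fast_zero (ω : ℕ → Bool) (c : ℕ) : Fast ω c 0 := by
  intro r hr
  have : r = 0 := by omega
  subst this
  rw [pow_zero, Nat.mul_zero]
  rw [Nat.one_le_iff_ne_zero, Finset.card_ne_zero]
  refine ⟨ev ω (units []), ?_⟩
  rw [fset]
  exact Finset.mem_image_of_mem _ (by simp)

theorem fast_all (j : ℕ) : ∀ m : ℕ → ℕ,
    Fast (omega m) (114 ^ (j + 1)) (5 ^ (∑ i ∈ Finset.range (j + 1), m i)) := by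
  induction j with
  | zero =>
    intro m
    have h := fast_block (m 0) (omega m) (fun n hn => omega_false hn) (omega_true m) 1 0 le_rfl
      (fast_zero _ 1)
    simpa using h
  | succ j ih =>
    intro m
    have h1 := ih (tail m)
    rw [← omega_shift] at h1
    have h := fast_block (m 0) (omega m) (fun n hn => omega_false hn) (omega_true m)
      (114 ^ (j + 1)) _ (Nat.one_le_pow _ _ (by norm_num)) h1
    rw [max_eq_left (Nat.one_le_pow _ _ (by norm_num)), ← pow_add] at h
    rw [Finset.sum_range_succ' m (j + 1), add_comm (∑ i ∈ Finset.range (j + 1), m (i + 1)),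
      pow_succ' 114 (j + 1)]
    exact h

theorem unit_length (k : Fin 10) : (unit k).length ≤ 57 := by
  revert k; decide

theorem units_length (ks : List (Fin 10)) : (units ks).length ≤ 57 * ks.length := by
  induction ks with
  | nil => simp [units]
  | cons k ks ih =>
    have h := unit_length k
    have e : units (k :: ks) = unit k ++ units ks := rfl
    rw [e, List.length_append, List.length_cons]
    omega

theorem fset_subset_ball (ω : ℕ → Bool) (r : ℕ) : fset ω r ⊆ ball ω (57 * r) := by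
  intro g hg
  rw [fset, Finset.mem_image] at hg
  obtain ⟨l, hl, rfl⟩ := hg
  rw [mem_klists] at hl
  rw [ball, Finset.mem_image]
  refine ⟨units l, ?_, rfl⟩
  rw [mem_words, ← hl]
  exact units_length l

theorem ball_mono (ω : ℕ → Bool) {m n : ℕ} (h : m ≤ n) : ball ω m ⊆ ball ω n := by
  intro g hg
  rw [ball, Finset.mem_image] at hg ⊢
  obtain ⟨w, hw, rfl⟩ := hg
  rw [mem_words] at hw
  exact ⟨w, mem_words.mpr (le_trans hw h), rfl⟩

/-- The lower bound for the balls. -/
theorem ball_lower (m : ℕ → ℕ) (j n : ℕ) (hn : n ≤ 5 ^ (∑ i ∈ Finset.range (j + 1), m i)) :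
    2 ^ (n / (57 * 114 ^ (j + 1))) ≤ (ball (omega m) n).card := by
  have h1 := fast_all j m (n / (57 * 114 ^ (j + 1))) (le_trans (Nat.div_le_self _ _) hn)
  refine le_trans h1 (Finset.card_le_card (le_trans (fset_subset_ball _ _) (ball_mono _ ?_)))
  rw [← mul_assoc]
  exact Nat.mul_div_le n _

/-! ### The choice of the blocks -/

/-- A subexponential function is eventually at most `2 ^ (n / c)`. -/
theorem subexp_eventually {f : ℕ → ℕ} (hf : Subexp f) (c : ℕ) (hc : 1 ≤ c) :
    ∃ N : ℕ, ∀ n, N ≤ n → f n ≤ 2 ^ (n / c) := by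
  have hc' : (0 : ℝ) < c := by exact_mod_cast hc
  have hl : (0 : ℝ) < Real.log 2 := Real.log_pos (by norm_num)
  obtain ⟨N, hN⟩ := hf (Real.log 2 / (2 * c)) (by positivity)
  refine ⟨max N (2 * c), fun n hn => ?_⟩
  have h1 := hN n (le_trans (le_max_left _ _) hn)
  have h2 : 2 * c ≤ n := le_trans (le_max_right _ _) hn
  have h3 : (n : ℝ) / (2 * c) ≤ ((n / c : ℕ) : ℝ) := by
    have h4 : n < c * (n / c + 1) := by
      have := Nat.lt_mul_div_succ n (show 0 < c by omega)
      simpa using this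
    have h5 : (n : ℝ) < c * (((n / c : ℕ) : ℝ) + 1) := by exact_mod_cast h4
    have h6 : (1 : ℝ) ≤ ((n / c : ℕ) : ℝ) := by
      have : 1 ≤ n / c := by
        rw [Nat.one_le_div_iff (by omega)]; omega
      exact_mod_cast this
    rw [div_le_iff₀ (by positivity)]
    nlinarith
  have h7 : (f n : ℝ) ≤ (2 : ℝ) ^ (n / c) := by
    refine le_trans h1 ?_
    rw [← Real.exp_log (show (0 : ℝ) < 2 ^ (n / c) by positivity), Real.log_pow]
    apply Real.exp_le_exp.mpr
    calc Real.log 2 / (2 * c) * n = (n : ℝ) / (2 * c) * Real.log 2 := by ring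
      _ ≤ ((n / c : ℕ) : ℝ) * Real.log 2 := mul_le_mul_of_nonneg_right h3 hl.le
  exact_mod_cast h7

/-- **The lower bound**: for every subexponential function there is a sequence of blocks whose
limit group has at least that growth. -/
theorem exists_blocks {f : ℕ → ℕ} (hf : Subexp f) :
    ∃ m : ℕ → ℕ, ∃ N : ℕ, ∀ n, N ≤ n → f n ≤ (ball (omega m) n).card := by
  choose N hN using fun j => subexp_eventually hf (57 * 114 ^ (j + 1))
    (Nat.mul_pos (by norm_num) (Nat.pow_pos (by norm_num)))
  -- a strictly increasing version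
  let M : ℕ → ℕ := fun j => (∑ i ∈ Finset.range (j + 1), N i) + j
  have hM : ∀ j n, M j ≤ n → f n ≤ 2 ^ (n / (57 * 114 ^ (j + 1))) := by
    intro j n hn
    refine hN j n (le_trans ?_ hn)
    have : N j ≤ ∑ i ∈ Finset.range (j + 1), N i :=
      Finset.single_le_sum (fun _ _ => Nat.zero_le _) (Finset.mem_range.mpr (Nat.lt_succ_self j))
    simp only [M]
    omega
  have hMj : ∀ j, j ≤ M j := fun j => by simp only [M]; omega
  refine ⟨fun j => M (j + 1), M 0, fun n hn => ?_⟩
  -- the largest `j` with `M j ≤ n`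
  have hex : ∃ j, n < M (j + 1) := ⟨n, lt_of_lt_of_le (Nat.lt_succ_self n) (hMj (n + 1))⟩
  set j := Nat.find hex with hj
  have h1 : n < M (j + 1) := Nat.find_spec hex
  have h2 : M j ≤ n := by
    rcases Nat.eq_zero_or_pos j with h0 | h0
    · rw [h0]; exact hn
    · have h3 := Nat.find_min hex (show j - 1 < Nat.find hex by omega)
      rw [not_lt, Nat.sub_add_cancel h0] at h3
      exact h3
  refine le_trans (hM j n h2) (ball_lower _ j n ?_)
  have h4 : M (j + 1) ≤ ∑ i ∈ Finset.range (j + 1), M (i + 1) :=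
    Finset.single_le_sum (f := fun i => M (i + 1)) (fun _ _ => Nat.zero_le _)
      (Finset.mem_range.mpr (Nat.lt_succ_self j))
  calc n ≤ M (j + 1) := h1.le
    _ ≤ ∑ i ∈ Finset.range (j + 1), M (i + 1) := h4
    _ ≤ 5 ^ (∑ i ∈ Finset.range (j + 1), M (i + 1)) := (Nat.lt_pow_self (by norm_num)).le

end MP7daf
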