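import Pool.Agent.Lib.MP_7daf54_al.S0

set_option autoImplicit false

/-!
# Convergence of the markings to the limit group
-/

namespace MP7daf

/-- The words of length at most `L` have the same value one in the `n`-th marking and in the limit. -/
def Agree (L : ℕ) (ω : ℕ → Bool) (n : ℕ) : Prop :=
  ∀ w : List (Fin 3), w.length ≤ L → (eval (S ω n) w = 1 ↔ ev ω w = 1)

theorem X_ne_one (ω : ℕ → Bool) (i : Fin 3) : X ω i ≠ 1 := by
  intro h
  have h1 : ev ω [i] = 1 := by simp [h]
  have h2 := ((ev_eq_one_iff ω [i]).mp h1).1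
  obtain ⟨j, hj⟩ := u_ne_one (ω 0) i
  exact hj (h2 j)

theorem sec_lt (i i' : Fin 3) (h : i ≠ i') (w : List (Fin 3)) (j : Fin 6) :
    (sec true (i :: i' :: w) j).length < (i :: i' :: w).length := by
  have hle := sec_length_le true w j
  simp only [sec, act, List.length_cons]
  by_cases h1 : act true w j = p true i'
  · have h2 : ¬ u true i' (act true w j) = p true i := by
      rw [h1, u_p]
      intro h3
      exact h (p_inj_true i' i h3).symm
    rw [if_neg h2, if_pos h1, List.length_cons]
    omega
  · rw [if_neg h1]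
    split_ifs
    · rw [List.length_cons]; omega
    · omega

theorem agree_false (L : ℕ) (ω : ℕ → Bool) (n : ℕ) (h : Agree L (tail ω) n) :
    Agree L ω (n + 1) := by
  intro w hw
  rw [eval_S_succ, ev_eq_one_iff]
  have : ∀ j, eval (S (tail ω) n) (sec (ω 0) w j) = 1 ↔ ev (tail ω) (sec (ω 0) w j) = 1 :=
    fun j => h _ (le_trans (sec_length_le _ w j) hw)
  simp only [this]

theorem agree_true (L : ℕ) (ω : ℕ → Bool) (n : ℕ) (h0 : ω 0 = true) (h : Agree L (tail ω) n) :
    Agree (L + 1) ω (n + 1) := by
  have key : ∀ (l : ℕ) (w : List (Fin 3)), w.length ≤ l → l ≤ L + 1 →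
      (eval (S ω (n + 1)) w = 1 ↔ ev ω w = 1) := by
    intro l
    induction l with
    | zero =>
      intro w hw _
      have : w = [] := List.length_eq_zero_iff.mp (by omega)
      subst this
      simp
    | succ l ih =>
      intro w hw hl
      match w, hw with
      | [], _ => simp
      | [i], _ =>
        have h1 := S_ne_one ω (n + 1) i
        have h2 := X_ne_one ω i
        simp [h1, h2]
      | i :: i' :: w, hw =>
        by_cases hi : i = i'
        · subst hi
          have e1 : eval (S ω (n + 1)) (i :: i :: w) = eval (S ω (n + 1)) w := by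
            rw [eval_cons, eval_cons, ← mul_assoc, S_sq, one_mul]
          have e2 : ev ω (i :: i :: w) = ev ω w := by
            rw [ev_cons, ev_cons, ← mul_assoc, X_mul_self, one_mul]
          rw [e1, e2]
          simp only [List.length_cons] at hw
          exact ih w (by omega) (by omega)
        · rw [eval_S_succ, ev_eq_one_iff]
          have : ∀ j, eval (S (tail ω) n) (sec (ω 0) (i :: i' :: w) j) = 1 ↔
              ev (tail ω) (sec (ω 0) (i :: i' :: w) j) = 1 := by
            intro j
            apply h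
            have h1 := sec_lt i i' hi w j
            rw [h0]
            omega
          simp only [this]
  intro w hw
  exact key (L + 1) w hw le_rfl

theorem agree_zero (ω : ℕ → Bool) (n : ℕ) : Agree 0 ω n := by
  intro w hw
  have : w = [] := List.length_eq_zero_iff.mp (by omega)
  subst this
  simp

theorem agree_shift (L : ℕ) (n : ℕ) : ∀ (k : ℕ) (ω : ℕ → Bool), Agree L (fun m => ω (m + k)) n →
    Agree L ω (n + k) := by
  intro k
  induction k with
  | zero => intro ω h; exact h
  | succ k ih =>
    intro ω h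
    have h1 : Agree L (tail ω) (n + k) := by
      apply ih
      have e : (fun m => tail ω (m + k)) = fun m => ω (m + (k + 1)) := by
        funext m; simp [tail, add_assoc]
      rw [e]
      exact h
    exact agree_false L ω (n + k) h1

/-- **Convergence.** -/
theorem agree (L : ℕ) : ∀ ω : ℕ → Bool, (∀ N, ∃ n, N ≤ n ∧ ω n = true) →
    ∃ N, ∀ n, N ≤ n → Agree L ω n := by
  induction L with
  | zero => intro ω _; exact ⟨0, fun n _ => agree_zero ω n⟩
  | succ L ih =>
    intro ω hω
    obtain ⟨k, -, hk⟩ := hω 0
    have h1 : ∀ N, ∃ n, N ≤ n ∧ (fun m => ω (m + (k + 1))) n = true := by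
      intro N
      obtain ⟨n, hn, h⟩ := hω (N + (k + 1))
      refine ⟨n - (k + 1), by omega, ?_⟩
      change ω (n - (k + 1) + (k + 1)) = true
      rw [Nat.sub_add_cancel (by omega)]
      exact h
    obtain ⟨N, hN⟩ := ih _ h1
    refine ⟨N + 1 + k, fun n hn => ?_⟩
    have h2 : Agree L (tail fun m => ω (m + k)) (n - (k + 1)) := by
      have e : (tail fun m => ω (m + k)) = fun m => ω (m + (k + 1)) := by
        funext m
        change ω (m + 1 + k) = ω (m + (k + 1))
        congr 1
        omega
      rw [e]
      exact hN _ (by omega)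
    have h3 : Agree (L + 1) (fun m => ω (m + k)) (n - (k + 1) + 1) := by
      apply agree_true L _ _ _ h2
      change ω (0 + k) = true
      rw [zero_add]; exact hk
    have h4 := agree_shift (L + 1) (n - (k + 1) + 1) k ω h3
    have e : n - (k + 1) + 1 + k = n := by omega
    rw [e] at h4
    exact h4

/-! ### The limit group as a marked group -/

/-- The limit group. -/
def Hgrp (ω : ℕ → Bool) : Subgroup (Equiv.Perm (ℕ → Fin 6)) := Subgroup.closure (Set.range (X ω))

/-- The marking of the limit group. -/
noncomputable def T (ω : ℕ → Bool) (i : Fin 3) : Hgrp ω :=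
  ⟨X ω i, Subgroup.subset_closure ⟨i, rfl⟩⟩

theorem T_sq (ω : ℕ → Bool) (i : Fin 3) : T ω i * T ω i = 1 := Subtype.ext (X_mul_self ω i)

theorem eval_T (ω : ℕ → Bool) (w : List (Fin 3)) :
    ((eval (T ω) w : Hgrp ω) : Equiv.Perm (ℕ → Fin 6)) = ev ω w :=
  map_eval (Hgrp ω).subtype w

theorem T_gen (ω : ℕ → Bool) : Generates (T ω) := by
  unfold Generates
  rw [eq_top_iff]
  rintro ⟨g, hg⟩ -
  obtain ⟨w, hw⟩ := (mem_closure_iff (X_mul_self ω) g).mp hg
  have : (⟨g, hg⟩ : Hgrp ω) = eval (T ω) w := Subtype.ext (by rw [eval_T]; exact hw.symm)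
  rw [this]
  exact eval_mem w

theorem evalW_eq {K : Type} [Group K] {x : Fin 3 → K} (hx : ∀ i, x i * x i = 1)
    (w : List (Fin 3 × Bool)) : evalW x w = eval x (w.map Prod.fst) := by
  induction w with
  | nil => rfl
  | cons q w ih =>
    have h1 : evalW x (q :: w) = (if q.2 then x q.1 else (x q.1)⁻¹) * evalW x w := by
      simp [evalW]
    rw [h1, ih, List.map_cons, eval_cons]
    congr 1
    split_ifs
    · rfl
    · exact inv_eq_of_mul_eq_one_right (hx q.1)

theorem converges (ω : ℕ → Bool) (hω : ∀ N, ∃ n, N ≤ n ∧ ω n = true) :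
    Converges (fun n => S ω n) (T ω) := by
  intro R
  obtain ⟨N, hN⟩ := agree R ω hω
  refine ⟨N, fun n hn w hw => ?_⟩
  rw [evalW_eq (S_sq n ω), evalW_eq (T_sq ω)]
  have h1 := hN n hn (w.map Prod.fst) (by simpa using hw)
  rw [h1, ← eval_T]
  exact ⟨fun h => Subtype.ext h, fun h => congrArg Subtype.val h⟩

theorem preforms (ω : ℕ → Bool) (hω : ∀ N, ∃ n, N ≤ n ∧ ω n = true) : Preforms Gs (Hgrp ω) :=
  ⟨3, fun n => S ω n, T ω, fun n => S_gen n ω, T_gen ω, converges ω hω⟩

/-- The growth function of the limit group is the size of the balls. -/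
theorem growth_T (ω : ℕ → Bool) (n : ℕ) : growth (T ω) n = (ball ω n).card := by
  classical
  unfold growth
  have himg : Subtype.val '' {g : Hgrp ω | ∃ w : List (Fin 3 × Bool), w.length ≤ n ∧
      evalW (T ω) w = g} = (ball ω n : Set (Equiv.Perm (ℕ → Fin 6))) := by
    ext g
    constructor
    · rintro ⟨h, ⟨w, hw, rfl⟩, rfl⟩
      rw [evalW_eq (T_sq ω), eval_T]
      rw [ball, Finset.coe_image]
      exact ⟨w.map Prod.fst, by simpa using hw, rfl⟩
    · intro hg
      rw [ball, Finset.coe_image] at hg
      obtain ⟨w, hw, rfl⟩ := hg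
      refine ⟨eval (T ω) w, ⟨w.map fun i => (i, true), ?_, ?_⟩, eval_T ω w⟩
      · simpa using hw
      · rw [evalW_eq (T_sq ω), List.map_map]
        have : (Prod.fst ∘ fun i : Fin 3 => (i, true)) = id := rfl
        rw [this, List.map_id]
  rw [← Set.ncard_image_of_injective _ Subtype.val_injective, himg, Set.ncard_coe_finset]

end MP7daf
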