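import Pool.Agent.Lib.MP_7daf54_al.Defs

set_option autoImplicit false

/-!
# General facts on marked groups and growth functions
-/

namespace MP7daf

section general

variable {G H : Type} [Group G] [Group H] {k : ℕ}

theorem evalW_nil (S : Fin k → G) : evalW S [] = 1 := rfl

theorem evalW_cons (S : Fin k → G) (q : Fin k × Bool) (w : List (Fin k × Bool)) :
    evalW S (q :: w) = (if q.2 then S q.1 else (S q.1)⁻¹) * evalW S w := by
  simp [evalW]

theorem evalW_append (S : Fin k → G) (v w : List (Fin k × Bool)) :
    evalW S (v ++ w) = evalW S v * evalW S w := by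
  simp [evalW]

theorem map_evalW (φ : G →* H) (S : Fin k → G) (w : List (Fin k × Bool)) :
    φ (evalW S w) = evalW (fun i => φ (S i)) w := by
  induction w with
  | nil => simp [evalW]
  | cons q w ih =>
    rw [evalW_cons, evalW_cons, map_mul, ih]
    congr 1
    split_ifs
    · rfl
    · exact map_inv φ _

/-- The inverse word. -/
def winv (w : List (Fin k × Bool)) : List (Fin k × Bool) := (w.map fun q => (q.1, !q.2)).reverse

theorem winv_length (w : List (Fin k × Bool)) : (winv w).length = w.length := by simp [winv]

theorem evalW_winv (S : Fin k → G) (w : List (Fin k × Bool)) :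
    evalW S (winv w) = (evalW S w)⁻¹ := by
  induction w with
  | nil => simp [winv, evalW]
  | cons q w ih =>
    have e : winv (q :: w) = winv w ++ [(q.1, !q.2)] := by simp [winv]
    rw [e, evalW_append, ih, evalW_cons S q w, mul_inv_rev]
    congr 1
    rw [evalW_cons, evalW_nil, mul_one]
    rcases q with ⟨i, b⟩
    cases b <;> simp

theorem evalW_eq_iff (S : Fin k → G) (v w : List (Fin k × Bool)) :
    evalW S v = evalW S w ↔ evalW S (v ++ winv w) = 1 := by
  rw [evalW_append, evalW_winv, mul_inv_eq_one]

/-- The growth function up to `L` depends only on the relations of length at most `2 L`. -/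
theorem growth_congr (S : Fin k → G) (T : Fin k → H) (L : ℕ)
    (h : ∀ w : List (Fin k × Bool), w.length ≤ 2 * L → (evalW S w = 1 ↔ evalW T w = 1)) :
    growth S L = growth T L := by
  classical
  have heq : ∀ v w : List (Fin k × Bool), v.length ≤ L → w.length ≤ L →
      (evalW S v = evalW S w ↔ evalW T v = evalW T w) := by
    intro v w hv hw
    rw [evalW_eq_iff, evalW_eq_iff]
    apply h
    rw [List.length_append, winv_length]
    omega
  unfold growth
  refine Set.ncard_congr (fun g hg => evalW T (Classical.choose hg)) ?_ ?_ ?_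
  · intro g hg
    exact ⟨_, (Classical.choose_spec hg).1, rfl⟩
  · intro g g' hg hg' he
    have h1 := (heq _ _ (Classical.choose_spec hg).1 (Classical.choose_spec hg').1).mpr he
    rw [(Classical.choose_spec hg).2, (Classical.choose_spec hg').2] at h1
    exact h1
  · rintro b ⟨w, hw, rfl⟩
    have hg : ∃ w' : List (Fin k × Bool), w'.length ≤ L ∧ evalW S w' = evalW S w := ⟨w, hw, rfl⟩
    refine ⟨evalW S w, hg, ?_⟩
    exact (heq _ _ (Classical.choose_spec hg).1 hw).mp (Classical.choose_spec hg).2

theorem growth_finite (S : Fin k → G) (n : ℕ) :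
    {g : G | ∃ w : List (Fin k × Bool), w.length ≤ n ∧ evalW S w = g}.Finite := by
  have : {g : G | ∃ w : List (Fin k × Bool), w.length ≤ n ∧ evalW S w = g} =
      (evalW S) '' {w | w.length ≤ n} := by
    ext g; simp
  rw [this]
  exact (List.finite_length_le _ n).image _

theorem growth_mono (S : Fin k → G) {m n : ℕ} (h : m ≤ n) : growth S m ≤ growth S n := by
  refine Set.ncard_le_ncard ?_ (growth_finite S n)
  rintro g ⟨w, hw, rfl⟩
  exact ⟨w, le_trans hw h, rfl⟩

theorem growth_zero (S : Fin k → G) : growth S 0 = 1 := by
  unfold growth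
  have : {g : G | ∃ w : List (Fin k × Bool), w.length ≤ 0 ∧ evalW S w = g} = {1} := by
    ext g
    constructor
    · rintro ⟨w, hw, rfl⟩
      have : w = [] := List.length_eq_zero_iff.mp (by omega)
      subst this
      rfl
    · rintro rfl
      exact ⟨[], le_rfl, rfl⟩
  rw [this, Set.ncard_singleton]

/-- The growth function of a marked group is at most exponential. -/
theorem growth_le (S : Fin k → G) (n : ℕ) : growth S n ≤ (2 * k + 1) ^ n := by
  classical
  induction n with
  | zero => rw [growth_zero, pow_zero]
  | succ n ih =>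
    let A : Set G := {g : G | ∃ w : List (Fin k × Bool), w.length ≤ n ∧ evalW S w = g}
    let L : Option (Fin k × Bool) → G := fun o => o.elim 1 fun q => if q.2 then S q.1 else (S q.1)⁻¹
    have hsub : {g : G | ∃ w : List (Fin k × Bool), w.length ≤ n + 1 ∧ evalW S w = g} ⊆
        Set.image2 (fun a b => a * b) (Set.range L) A := by
      rintro g ⟨w, hw, rfl⟩
      cases w with
      | nil => exact ⟨L none, ⟨none, rfl⟩, 1, ⟨[], Nat.zero_le _, rfl⟩, by simp [L, evalW]⟩
      | cons q w =>
        refine ⟨L (some q), ⟨some q, rfl⟩, evalW S w, ⟨w, ?_, rfl⟩, ?_⟩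
        · simp only [List.length_cons] at hw; omega
        · rw [evalW_cons]; rfl
    have hA : A.Finite := growth_finite S n
    have hL : (Set.range L).Finite := Set.finite_range L
    have hcard : (Set.range L).ncard ≤ 2 * k + 1 := by
      rw [← Set.image_univ]
      refine le_trans (Set.ncard_image_le Set.finite_univ) ?_
      rw [Set.ncard_univ, Nat.card_eq_fintype_card, Fintype.card_option, Fintype.card_prod,
        Fintype.card_fin, Fintype.card_bool]
      omega
    have h1 : (Set.image2 (fun a b => a * b) (Set.range L) A).ncard ≤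
        (Set.range L).ncard * A.ncard := by
      rw [← Set.image_prod, ← Set.ncard_prod]
      exact Set.ncard_image_le (hL.prod hA)
    calc growth S (n + 1) ≤ (Set.image2 (fun a b => a * b) (Set.range L) A).ncard :=
          Set.ncard_le_ncard hsub (hL.image2 _ hA)
      _ ≤ (Set.range L).ncard * A.ncard := h1
      _ ≤ (2 * k + 1) * (2 * k + 1) ^ n := Nat.mul_le_mul hcard ih
      _ = (2 * k + 1) ^ (n + 1) := by rw [pow_succ]; ring

end general

end MP7daf
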