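import Pool.Agent.Lib.MP_7daf54_al.Lower

set_option autoImplicit false

/-!
# Sequences with a prescribed prefix
-/

namespace MP7daf

/-- Prepending a letter. -/
def consb (b : Bool) (τ : ℕ → Bool) : ℕ → Bool
  | 0 => b
  | n + 1 => τ n

/-- Prepending a finite word. -/
def app : List Bool → (ℕ → Bool) → (ℕ → Bool)
  | [], τ => τ
  | b :: σ, τ => consb b (app σ τ)

theorem app_append (σ σ' : List Bool) (τ : ℕ → Bool) : app (σ ++ σ') τ = app σ (app σ' τ) := by
  induction σ with
  | nil => rfl
  | cons b σ ih => simp [app, ih]

@[simp] theorem tail_consb (b : Bool) (τ : ℕ → Bool) : tail (consb b τ) = τ := rfl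

@[simp] theorem consb_zero (b : Bool) (τ : ℕ → Bool) : consb b τ 0 = b := rfl

theorem app_lt (σ : List Bool) (τ : ℕ → Bool) (n : ℕ) (h : n < σ.length) :
    app σ τ n = σ[n] := by
  induction σ generalizing n with
  | nil => exact absurd h (Nat.not_lt_zero n)
  | cons b σ ih =>
    cases n with
    | zero => rfl
    | succ n => exact ih n (by simpa using h)

theorem app_add (σ : List Bool) (τ : ℕ → Bool) (n : ℕ) : app σ τ (n + σ.length) = τ n := by
  induction σ with
  | nil => rfl
  | cons b σ ih => exact ih

theorem Fast.mono {ω : ℕ → Bool} {c R R' : ℕ} (h : Fast ω c R) (hR : R' ≤ R) : Fast ω c R' :=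
  fun r hr => h r (le_trans hr hR)

/-- The lower bound with one block. -/
theorem fast_app_block (m : ℕ) (τ : ℕ → Bool) (c R : ℕ) (hc : 1 ≤ c) (h : Fast τ c R) :
    Fast (app (List.replicate m false ++ [true]) τ) (114 * c) (5 ^ m * max R 1) := by
  refine fast_block m _ (fun n hn => ?_) ?_ c R hc ?_
  · rw [app_append, app_lt _ _ n (by simpa using hn)]
    simp
  · rw [app_append]
    have := app_add (List.replicate m false) (app [true] τ) 0
    rw [Nat.zero_add, List.length_replicate] at this
    rw [this]; rfl
  · have e : (fun n => app (List.replicate m false ++ [true]) τ (n + m + 1)) = τ := by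
      funext n
      have := app_add (List.replicate m false ++ [true]) τ n
      simpa [add_assoc] using this
    rw [e]; exact h

theorem fast_zero' (ω : ℕ → Bool) (c : ℕ) : Fast ω c 0 := by
  classical
  intro r hr
  have : r = 0 := by omega
  subst this
  rw [pow_zero, Nat.mul_zero]
  rw [Nat.one_le_iff_ne_zero, Finset.card_ne_zero]
  refine ⟨ev ω (units []), ?_⟩
  rw [fset]
  exact Finset.mem_image_of_mem _ (by simp)

/-- The lower bound after a prefix. -/
theorem fast_prefix (a : ℕ) (τ : ℕ → Bool) : ∀ (σ : List Bool) (k : ℕ),
    Fast (app (List.replicate k false ++ σ ++ List.replicate a false ++ [true]) τ)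
      (114 ^ (σ.count true + 1)) (5 ^ a) := by
  intro σ
  induction σ with
  | nil =>
    intro k
    have h := fast_app_block (k + a) τ 1 0 le_rfl (fast_zero' _ 1)
    have e : List.replicate k false ++ [] ++ List.replicate a false ++ [true] =
        List.replicate (k + a) false ++ [true] := by
      rw [List.append_nil, ← List.replicate_add]
    rw [e]
    have h2 : (114 : ℕ) ^ (List.count true [] + 1) = 114 * 1 := by simp
    rw [h2]
    refine h.mono ?_
    rw [Nat.max_eq_right (Nat.zero_le 1), mul_one]
    exact Nat.pow_le_pow_right (by norm_num) (Nat.le_add_left a k)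
  | cons b σ ih =>
    intro k
    cases b with
    | false =>
      have h := ih (k + 1)
      have e : List.replicate k false ++ false :: σ ++ List.replicate a false ++ [true] =
          List.replicate (k + 1) false ++ σ ++ List.replicate a false ++ [true] := by
        rw [List.replicate_succ']
        simp
      rw [e, List.count_cons_of_ne (by decide)]
      exact h
    | true =>
      have h := ih 0
      have h1 := fast_app_block k _ _ _ (Nat.one_le_pow _ _ (by norm_num)) h
      rw [← app_append] at h1
      have e : List.replicate k false ++ true :: σ ++ List.replicate a false ++ [true] =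
          List.replicate k false ++ [true] ++
            (List.replicate 0 false ++ σ ++ List.replicate a false ++ [true]) := by
        simp
      rw [e, List.count_cons_self, pow_succ' 114 (List.count true σ + 1)]
      refine h1.mono ?_
      calc 5 ^ a ≤ max (5 ^ a) 1 := le_max_left _ _
        _ ≤ 5 ^ k * max (5 ^ a) 1 := Nat.le_mul_of_pos_left _ (Nat.pow_pos (by norm_num))

theorem unit_length' (k : Fin 10) : (unit k).length ≤ 57 := by
  revert k; decide

theorem units_length' (ks : List (Fin 10)) : (units ks).length ≤ 57 * ks.length := by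
  induction ks with
  | nil => simp [units]
  | cons k ks ih =>
    have h := unit_length' k
    have e : units (k :: ks) = unit k ++ units ks := rfl
    rw [e, List.length_append, List.length_cons]
    omega

theorem fset_subset_ball' (ω : ℕ → Bool) (r : ℕ) : fset ω r ⊆ ball ω (57 * r) := by
  classical
  intro g hg
  rw [fset, Finset.mem_image] at hg
  obtain ⟨l, hl, rfl⟩ := hg
  rw [mem_klists] at hl
  rw [ball, Finset.mem_image]
  refine ⟨units l, ?_, rfl⟩
  rw [mem_words, ← hl]
  exact units_length' l

theorem ball_mono' (ω : ℕ → Bool) {m n : ℕ} (h : m ≤ n) : ball ω m ⊆ ball ω n := by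
  classical
  intro g hg
  rw [ball, Finset.mem_image] at hg ⊢
  obtain ⟨w, hw, rfl⟩ := hg
  rw [mem_words] at hw
  exact ⟨w, mem_words.mpr (le_trans hw h), rfl⟩

/-- The lower bound for the balls after a prefix. -/
theorem ball_prefix (σ : List Bool) (L a : ℕ) (hL : σ.count true ≤ L) (τ : ℕ → Bool) (n : ℕ)
    (hn : n ≤ 5 ^ a) :
    2 ^ (n / (57 * 114 ^ (L + 1))) ≤
      (ball (app (σ ++ List.replicate a false ++ [true]) τ) n).card := by
  have h := fast_prefix a τ σ 0
  rw [List.replicate_zero, List.nil_append] at h
  have h1 := h (n / (57 * 114 ^ (σ.count true + 1))) (le_trans (Nat.div_le_self _ _) hn)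
  refine le_trans (Nat.pow_le_pow_right (by norm_num) (Nat.div_le_div_left
    (Nat.mul_le_mul_left 57 (Nat.pow_le_pow_right (n := 114) (by norm_num)
      (Nat.add_le_add_right hL 1))) (Nat.mul_pos (by norm_num) (Nat.pow_pos (by norm_num)))))
    (le_trans h1 (Finset.card_le_card (le_trans (fset_subset_ball' _ _) (ball_mono' _ ?_))))
  rw [← mul_assoc]
  exact Nat.mul_div_le n _

end MP7daf
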