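import Pool.Agent.Lib.MP_7daf54_al.Cut
import Pool.Agent.Lib.MP_7daf54_al.Pre
import Pool.Agent.Lib.MP_7daf54_al.Conv
import Pool.Agent.Lib.MP_7daf54_al.Growth

set_option autoImplicit false

/-!
# The upper bound for the growth
-/

namespace MP7daf

open Classical

/-- The counting step. -/
theorem ball_card_le (ω : ℕ → Bool) (n N : ℕ)
    (hN : ∀ w : List (Fin 3), Redd w → w.length ≤ n → len (ω 0) w ≤ N) (C e : ℝ) (hC : 0 < C)
    (he : 0 ≤ e) (h : ∀ m : ℕ, ((ball (tail ω) m).card : ℝ) ≤ C * Real.exp (e * m)) :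
    ((ball ω n).card : ℝ) ≤ 6 ^ 6 * (((N : ℝ) + 1) ^ 6 * (C ^ 6 * Real.exp (e * N))) := by
  let L : Finset (Fin 6 → ℕ) :=
    (Fintype.piFinset fun _ : Fin 6 => Finset.range (N + 1)).filter fun l => ∑ j, l j ≤ N
  let D : Finset ((Fin 6 → Fin 6) × (Fin 6 → Equiv.Perm (ℕ → Fin 6))) :=
    Finset.univ ×ˢ L.biUnion fun l => Fintype.piFinset fun j => ball (tail ω) (l j)
  -- representatives
  have hrep : ∀ g : Equiv.Perm (ℕ → Fin 6), ∃ w : List (Fin 3), g ∈ ball ω n →
      Redd w ∧ w.length ≤ n ∧ ev ω w = g := by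
    intro g
    by_cases hg : g ∈ ball ω n
    · rw [ball, Finset.mem_image] at hg
      obtain ⟨v, hv, rfl⟩ := hg
      rw [mem_words] at hv
      exact ⟨rred v, fun _ => ⟨redd_rred v, le_trans (rred_length v) hv, ev_rred ω v⟩⟩
    · exact ⟨[], fun h' => absurd h' hg⟩
  choose r hr using hrep
  let F : Equiv.Perm (ℕ → Fin 6) → (Fin 6 → Fin 6) × (Fin 6 → Equiv.Perm (ℕ → Fin 6)) :=
    fun g => (act (ω 0) (r g), fun j => ev (tail ω) (sec (ω 0) (r g) j))
  have hmaps : ∀ g ∈ ball ω n, F g ∈ D := by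
    intro g hg
    obtain ⟨h1, h2, -⟩ := hr g hg
    rw [Finset.mem_product]
    refine ⟨Finset.mem_univ _, ?_⟩
    rw [Finset.mem_biUnion]
    refine ⟨fun j => (rred (sec (ω 0) (r g) j)).length, ?_, ?_⟩
    · have hsum : ∑ j, (rred (sec (ω 0) (r g) j)).length ≤ N := hN (r g) h1 h2
      rw [Finset.mem_filter, Fintype.mem_piFinset]
      refine ⟨fun j => ?_, hsum⟩
      rw [Finset.mem_range]
      have : (rred (sec (ω 0) (r g) j)).length ≤ ∑ j, (rred (sec (ω 0) (r g) j)).length :=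
        Finset.single_le_sum (f := fun j => (rred (sec (ω 0) (r g) j)).length)
          (fun _ _ => Nat.zero_le _) (Finset.mem_univ j)
      omega
    · rw [Fintype.mem_piFinset]
      intro j
      change ev (tail ω) (sec (ω 0) (r g) j) ∈ ball (tail ω) (rred (sec (ω 0) (r g) j)).length
      rw [← ev_rred, ball, Finset.mem_image]
      exact ⟨_, mem_words.mpr le_rfl, rfl⟩
  have hinj : Set.InjOn F (ball ω n : Set (Equiv.Perm (ℕ → Fin 6))) := by
    intro g hg g' hg' heq
    have e1 := (hr g hg).2.2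
    have e2 := (hr g' hg').2.2
    rw [← e1, ← e2, ev_eq_iff]
    have h1 := congrArg Prod.fst heq
    have h2 := congrArg Prod.snd heq
    exact ⟨fun j => congrFun h1 j, fun j => congrFun h2 j⟩
  have hcard : (ball ω n).card ≤ D.card := Finset.card_le_card_of_injOn F hmaps hinj
  have hDcard : D.card ≤ 6 ^ 6 * ∑ l ∈ L, ∏ j, (ball (tail ω) (l j)).card := by
    rw [Finset.card_product, Finset.card_univ, Fintype.card_fun, Fintype.card_fin]
    refine Nat.mul_le_mul_left _ (le_trans Finset.card_biUnion_le ?_)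
    exact Finset.sum_le_sum fun l _ => by rw [Fintype.card_piFinset]
  have hLcard : L.card ≤ (N + 1) ^ 6 := by
    refine le_trans (Finset.card_filter_le _ _) ?_
    rw [Fintype.card_piFinset]
    simp
  have hprod : ∀ l ∈ L, ((∏ j, (ball (tail ω) (l j)).card : ℕ) : ℝ) ≤
      C ^ 6 * Real.exp (e * N) := by
    intro l hl
    rw [Finset.mem_filter] at hl
    push_cast
    calc ∏ j, ((ball (tail ω) (l j)).card : ℝ) ≤ ∏ j, (C * Real.exp (e * (l j))) :=
          Finset.prod_le_prod (fun _ _ => Nat.cast_nonneg _) (fun j _ => h (l j))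
      _ = C ^ 6 * Real.exp (e * ∑ j, (l j : ℝ)) := by
          rw [Finset.prod_mul_distrib, Finset.prod_const, Finset.card_univ, Fintype.card_fin,
            ← Real.exp_sum, Finset.mul_sum]
      _ ≤ C ^ 6 * Real.exp (e * N) := by
          apply mul_le_mul_of_nonneg_left _ (by positivity)
          apply Real.exp_le_exp.mpr
          apply mul_le_mul_of_nonneg_left _ he
          exact_mod_cast hl.2
  have h1 : ((ball ω n).card : ℝ) ≤ 6 ^ 6 * ∑ l ∈ L, ((∏ j, (ball (tail ω) (l j)).card : ℕ) : ℝ) := by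
    exact_mod_cast le_trans hcard hDcard
  refine le_trans h1 (mul_le_mul_of_nonneg_left ?_ (by positivity))
  calc ∑ l ∈ L, ((∏ j, (ball (tail ω) (l j)).card : ℕ) : ℝ)
      ≤ ∑ _l ∈ L, C ^ 6 * Real.exp (e * N) := Finset.sum_le_sum hprod
    _ = L.card * (C ^ 6 * Real.exp (e * N)) := by rw [Finset.sum_const, nsmul_eq_mul]
    _ ≤ ((N : ℝ) + 1) ^ 6 * (C ^ 6 * Real.exp (e * N)) := by
        apply mul_le_mul_of_nonneg_right _ (by positivity)
        exact_mod_cast hLcard

/-- Absorbing a polynomial factor. -/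
theorem poly_le (δ : ℝ) (hδ : 0 < δ) : ∃ K : ℝ, 0 < K ∧ ∀ N : ℕ,
    ((N : ℝ) + 1) ^ 6 ≤ K * Real.exp (δ * N) := by
  refine ⟨Real.exp δ / (δ / 6) ^ 6, by positivity, fun N => ?_⟩
  have hx : δ / 6 * ((N : ℝ) + 1) ≤ Real.exp (δ / 6 * (N + 1)) := by
    have := Real.add_one_le_exp (δ / 6 * ((N : ℝ) + 1))
    linarith
  have h0 : (0 : ℝ) ≤ δ / 6 * ((N : ℝ) + 1) := by positivity
  have h1 : (δ / 6 * ((N : ℝ) + 1)) ^ 6 ≤ Real.exp (δ / 6 * (N + 1)) ^ 6 :=
    pow_le_pow_left₀ h0 hx 6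
  rw [← Real.exp_nat_mul] at h1
  have e1 : ((6 : ℕ) : ℝ) * (δ / 6 * (N + 1)) = δ + δ * N := by push_cast; ring
  rw [e1, Real.exp_add, mul_pow] at h1
  rw [div_mul_eq_mul_div, le_div_iff₀ (by positivity), mul_comm]
  exact h1

/-- The step for the letter `false`. -/
theorem step_false (C e e' : ℝ) (hC : 0 < C) (he : 0 ≤ e) (hee : e < e') : ∃ C' : ℝ, 0 < C' ∧
    ∀ ω : ℕ → Bool, ω 0 = false →
      (∀ m : ℕ, ((ball (tail ω) m).card : ℝ) ≤ C * Real.exp (e * m)) →
      ∀ n : ℕ, ((ball ω n).card : ℝ) ≤ C' * Real.exp (e' * n) := by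
  obtain ⟨K, hK, hKb⟩ := poly_le (e' - e) (by linarith)
  refine ⟨6 ^ 6 * K * C ^ 6, by positivity, fun ω h0 h n => ?_⟩
  have h1 := ball_card_le ω n n (fun w _ hw => le_trans (len_le _ w) hw) C e hC he h
  refine le_trans h1 ?_
  calc (6 : ℝ) ^ 6 * (((n : ℝ) + 1) ^ 6 * (C ^ 6 * Real.exp (e * n)))
      ≤ 6 ^ 6 * ((K * Real.exp ((e' - e) * n)) * (C ^ 6 * Real.exp (e * n))) := by
        apply mul_le_mul_of_nonneg_left _ (by positivity)
        exact mul_le_mul_of_nonneg_right (hKb n) (by positivity)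
    _ = 6 ^ 6 * K * C ^ 6 * (Real.exp ((e' - e) * n) * Real.exp (e * n)) := by ring
    _ = 6 ^ 6 * K * C ^ 6 * Real.exp (e' * n) := by
        rw [← Real.exp_add]
        congr 2
        ring

/-- The step for the letter `true`. -/
theorem step_true (C e e' : ℝ) (hC : 0 < C) (he : 0 ≤ e) (hee : 11 / 13 * e < e') :
    ∃ C' : ℝ, 0 < C' ∧ ∀ ω : ℕ → Bool, ω 0 = true →
      (∀ m : ℕ, ((ball (tail ω) m).card : ℝ) ≤ C * Real.exp (e * m)) →
      ∀ n : ℕ, ((ball ω n).card : ℝ) ≤ C' * Real.exp (e' * n) := by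
  set s : ℝ := 13 / 11 * e' with hs
  have hse : e < s := by rw [hs]; linarith
  have hs0 : 0 ≤ s := le_trans he hse.le
  obtain ⟨K, hK, hKb⟩ := poly_le (s - e) (by linarith)
  refine ⟨6 ^ 6 * K * C ^ 6 * Real.exp (s * (24 / 13)), by positivity, fun ω h0 h n => ?_⟩
  set N : ℕ := (11 * n + 24) / 13 with hNdef
  have hN : ∀ w : List (Fin 3), Redd w → w.length ≤ n → len (ω 0) w ≤ N := by
    intro w hw hl
    rw [h0]
    have := len_true w hw
    omega
  have h1 := ball_card_le ω n N hN C e hC he h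
  refine le_trans h1 ?_
  have hNR : (N : ℝ) ≤ 11 / 13 * n + 24 / 13 := by
    have h2 : 13 * N ≤ 11 * n + 24 := by omega
    have h3 : (13 : ℝ) * N ≤ 11 * n + 24 := by exact_mod_cast h2
    linarith
  calc (6 : ℝ) ^ 6 * (((N : ℝ) + 1) ^ 6 * (C ^ 6 * Real.exp (e * N)))
      ≤ 6 ^ 6 * ((K * Real.exp ((s - e) * N)) * (C ^ 6 * Real.exp (e * N))) := by
        apply mul_le_mul_of_nonneg_left _ (by positivity)
        exact mul_le_mul_of_nonneg_right (hKb N) (by positivity)
    _ = 6 ^ 6 * K * C ^ 6 * (Real.exp ((s - e) * N) * Real.exp (e * N)) := by ring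
    _ = 6 ^ 6 * K * C ^ 6 * Real.exp (s * N) := by
        rw [← Real.exp_add]
        congr 2
        ring
    _ ≤ 6 ^ 6 * K * C ^ 6 * Real.exp (s * (24 / 13) + e' * n) := by
        apply mul_le_mul_of_nonneg_left _ (by positivity)
        apply Real.exp_le_exp.mpr
        calc s * N ≤ s * (11 / 13 * n + 24 / 13) := mul_le_mul_of_nonneg_left hNR hs0
          _ = s * (24 / 13) + e' * n := by rw [hs]; ring
    _ = 6 ^ 6 * K * C ^ 6 * Real.exp (s * (24 / 13)) * Real.exp (e' * n) := by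
        rw [Real.exp_add]; ring

/-- The trivial bound. -/
theorem ball_trivial (ω : ℕ → Bool) (n : ℕ) : ((ball ω n).card : ℝ) ≤ Real.exp (Real.log 7 * n) := by
  have h := growth_le (T ω) n
  rw [growth_T] at h
  have h1 : ((ball ω n).card : ℝ) ≤ 7 ^ n := by exact_mod_cast h
  refine le_trans h1 (le_of_eq ?_)
  rw [mul_comm, ← Real.log_pow, Real.exp_log (by positivity)]

/-- **The upper bound after a prefix**, uniform in the tail. -/
theorem upper_prefix (σ : List Bool) : ∀ ε : ℝ, (11 / 13 : ℝ) ^ σ.count true * Real.log 7 < ε →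
    ∃ C : ℝ, 0 < C ∧ ∀ (τ : ℕ → Bool) (n : ℕ),
      ((ball (app σ τ) n).card : ℝ) ≤ C * Real.exp (ε * n) := by
  have hl : (0 : ℝ) < Real.log 7 := Real.log_pos (by norm_num)
  induction σ with
  | nil =>
    intro ε hε
    rw [List.count_nil, pow_zero, one_mul] at hε
    refine ⟨1, one_pos, fun τ n => ?_⟩
    rw [one_mul]
    refine le_trans (ball_trivial _ n) (Real.exp_le_exp.mpr ?_)
    exact mul_le_mul_of_nonneg_right hε.le (Nat.cast_nonneg n)
  | cons b σ ih =>
    intro ε hε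
    have hpos : (0 : ℝ) < (11 / 13 : ℝ) ^ σ.count true * Real.log 7 := by positivity
    cases b with
    | false =>
      rw [List.count_cons_of_ne (by decide)] at hε
      obtain ⟨e, he1, he2⟩ := exists_between hε
      obtain ⟨C, hC, hb⟩ := ih e he1
      obtain ⟨C', hC', hb'⟩ := step_false C e ε hC (le_trans hpos.le he1.le) he2
      exact ⟨C', hC', fun τ n => hb' (app (false :: σ) τ) rfl (hb τ) n⟩
    | true =>
      rw [List.count_cons_self, pow_succ] at hε
      have hε' : (11 / 13 : ℝ) ^ σ.count true * Real.log 7 < 13 / 11 * ε := by linarith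
      obtain ⟨e, he1, he2⟩ := exists_between hε'
      obtain ⟨C, hC, hb⟩ := ih e he1
      obtain ⟨C', hC', hb'⟩ := step_true C e ε hC (le_trans hpos.le he1.le) (by linarith)
      exact ⟨C', hC', fun τ n => hb' (app (true :: σ) τ) rfl (hb τ) n⟩

/-! ### Infinitely many contractions -/

/-- The prefix of length `n`. -/
def pfx : ℕ → (ℕ → Bool) → List Bool
  | 0, _ => []
  | n + 1, ω => ω 0 :: pfx n (tail ω)

theorem app_pfx (n : ℕ) : ∀ ω : ℕ → Bool, app (pfx n ω) (fun m => ω (m + n)) = ω := by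
  induction n with
  | zero => intro ω; rfl
  | succ n ih =>
    intro ω
    have h := ih (tail ω)
    have e : (fun m => tail ω (m + n)) = fun m => ω (m + (n + 1)) := rfl
    rw [e] at h
    rw [pfx, app, h]
    funext m
    cases m <;> rfl

theorem pfx_add (a b : ℕ) : ∀ ω : ℕ → Bool,
    pfx (a + b) ω = pfx a ω ++ pfx b (fun m => ω (m + a)) := by
  induction a with
  | zero => intro ω; rw [Nat.zero_add]; rfl
  | succ a ih =>
    intro ω
    have e : a + 1 + b = (a + b) + 1 := by omega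
    rw [e, pfx, ih (tail ω), pfx]
    rfl

theorem exists_pfx (k : ℕ) : ∀ ω : ℕ → Bool, (∀ N, ∃ n, N ≤ n ∧ ω n = true) →
    ∃ n, k ≤ (pfx n ω).count true := by
  induction k with
  | zero => intro ω _; exact ⟨0, Nat.zero_le _⟩
  | succ k ih =>
    intro ω hω
    obtain ⟨m, -, hm⟩ := hω 0
    obtain ⟨n, hn⟩ := ih (fun i => ω (i + (m + 1))) (by
      intro N
      obtain ⟨i, hi, h⟩ := hω (N + (m + 1))
      refine ⟨i - (m + 1), by omega, ?_⟩
      change ω (i - (m + 1) + (m + 1)) = true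
      rw [Nat.sub_add_cancel (by omega)]
      exact h)
    refine ⟨m + 1 + n, ?_⟩
    rw [pfx_add (m + 1) n ω, List.count_append, pfx_add m 1 ω, List.count_append]
    have e : pfx 1 (fun i => ω (i + m)) = [true] := by
      change [ω (0 + m)] = [true]
      rw [Nat.zero_add, hm]
    rw [e]
    have : List.count true [true] = 1 := by decide
    omega

theorem rate_zero (ω : ℕ → Bool) (h : ∀ N, ∃ n, N ≤ n ∧ ω n = true) : RateLE ω 0 := by
  intro ε hε
  have h1 : Filter.Tendsto (fun k : ℕ => (11 / 13 : ℝ) ^ k * Real.log 7) Filter.atTop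
      (nhds (0 * Real.log 7)) :=
    (tendsto_pow_atTop_nhds_zero_of_lt_one (by norm_num) (by norm_num)).mul_const _
  rw [zero_mul] at h1
  obtain ⟨k, hk⟩ := (h1.eventually (gt_mem_nhds hε)).exists
  obtain ⟨n, hn⟩ := exists_pfx k ω h
  have hl : (0 : ℝ) < Real.log 7 := Real.log_pos (by norm_num)
  have h2 : (11 / 13 : ℝ) ^ (pfx n ω).count true * Real.log 7 < ε := by
    refine lt_of_le_of_lt (mul_le_mul_of_nonneg_right ?_ hl.le) hk
    exact pow_le_pow_of_le_one (by norm_num) (by norm_num) hn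
  obtain ⟨C, hC, hb⟩ := upper_prefix (pfx n ω) ε h2
  refine ⟨C, hC, fun m => ?_⟩
  have := hb (fun i => ω (i + n)) m
  rwa [app_pfx] at this

end MP7daf
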