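import Pool.Agent.Lib.MP_7daf54_al.Conv
import Pool.Agent.Lib.MP_7daf54_al.Omega
import Pool.Agent.Lib.MP_7daf54_al.Upper

set_option autoImplicit false

/-!
# Limits of one group whose growths are cofinal among the subexponential functions
-/

namespace MP7daf

theorem subexp_of_rate {ω : ℕ → Bool} (h : RateLE ω 0) : Subexp (growth (T ω)) := by
  intro ε hε
  obtain ⟨C, hC, hb⟩ := h (ε / 2) (by positivity)
  obtain ⟨N, hN⟩ := exists_nat_ge (2 * Real.log C / ε)
  refine ⟨N, fun n hn => ?_⟩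
  rw [growth_T]
  refine le_trans (hb n) ?_
  have h1 : Real.log C ≤ ε / 2 * n := by
    have h2 : 2 * Real.log C / ε ≤ n := le_trans hN (by exact_mod_cast hn)
    rw [div_le_iff₀ hε] at h2
    linarith
  calc C * Real.exp (ε / 2 * n) = Real.exp (Real.log C) * Real.exp (ε / 2 * n) := by
        rw [Real.exp_log hC]
    _ = Real.exp (Real.log C + ε / 2 * n) := (Real.exp_add _ _).symm
    _ ≤ Real.exp (ε * n) := Real.exp_le_exp.mpr (by linarith)

theorem subexp_add {f g : ℕ → ℕ} (hf : Subexp f) (hg : Subexp g) : Subexp fun n => f n + g n := by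
  intro ε hε
  obtain ⟨N, hN⟩ := hf (ε / 2) (by positivity)
  obtain ⟨M, hM⟩ := hg (ε / 2) (by positivity)
  obtain ⟨K, hK⟩ := exists_nat_ge (2 * Real.log 2 / ε)
  refine ⟨max (max N M) K, fun n hn => ?_⟩
  have h1 := hN n (le_trans (le_trans (le_max_left _ _) (le_max_left _ _)) hn)
  have h2 := hM n (le_trans (le_trans (le_max_right _ _) (le_max_left _ _)) hn)
  have h3 : 2 * Real.log 2 / ε ≤ n :=
    le_trans hK (by exact_mod_cast le_trans (le_max_right _ _) hn)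
  rw [div_le_iff₀ hε] at h3
  push_cast
  calc (f n : ℝ) + g n ≤ Real.exp (ε / 2 * n) + Real.exp (ε / 2 * n) := add_le_add h1 h2
    _ = Real.exp (Real.log 2) * Real.exp (ε / 2 * n) := by
        rw [Real.exp_log (by norm_num)]; ring
    _ = Real.exp (Real.log 2 + ε / 2 * n) := (Real.exp_add _ _).symm
    _ ≤ Real.exp (ε * n) := Real.exp_le_exp.mpr (by linarith)

theorem subexp_sqrt : Subexp fun n => 2 ^ Nat.sqrt n := by
  intro ε hε
  have hl : (0 : ℝ) < Real.log 2 := Real.log_pos (by norm_num)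
  obtain ⟨K, hK⟩ := exists_nat_ge (Real.log 2 / ε)
  refine ⟨K ^ 2, fun n hn => ?_⟩
  have h1 : K ≤ Nat.sqrt n := by
    rw [Nat.le_sqrt']
    exact hn
  have h2 : Real.log 2 ≤ ε * Nat.sqrt n := by
    have h3 : Real.log 2 / ε ≤ Nat.sqrt n := le_trans hK (by exact_mod_cast h1)
    rw [div_le_iff₀ hε] at h3
    linarith
  have h4 : ((Nat.sqrt n : ℕ) : ℝ) * Nat.sqrt n ≤ n := by
    exact_mod_cast Nat.sqrt_le n
  push_cast
  rw [← Real.exp_log (show (0 : ℝ) < 2 ^ Nat.sqrt n by positivity), Real.log_pow]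
  apply Real.exp_le_exp.mpr
  have h5 : (0 : ℝ) ≤ Nat.sqrt n := Nat.cast_nonneg _
  calc (Nat.sqrt n : ℝ) * Real.log 2 ≤ (Nat.sqrt n : ℝ) * (ε * Nat.sqrt n) :=
        mul_le_mul_of_nonneg_left h2 h5
    _ = ε * ((Nat.sqrt n : ℝ) * Nat.sqrt n) := by ring
    _ ≤ ε * n := mul_le_mul_of_nonneg_left h4 hε.le

/-- Powers of two of the square root beat every polynomial, arbitrarily far. -/
theorem sqrt_nonpoly (C d N : ℕ) : ∃ n, N ≤ n ∧ C * (n + 1) ^ d < 2 ^ Nat.sqrt n := by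
  -- take n = k ^ 2 with k large
  have h1 : Filter.Tendsto (fun k : ℕ => ((k : ℝ) ^ (2 * d + 1)) / 2 ^ k) Filter.atTop (nhds 0) :=
    tendsto_pow_const_div_const_pow_of_one_lt (2 * d + 1) (by norm_num : (1 : ℝ) < 2)
  have h2 : ∀ᶠ k : ℕ in Filter.atTop, ((k : ℝ) ^ (2 * d + 1)) / 2 ^ k < 1 :=
    h1.eventually (gt_mem_nhds (by norm_num))
  obtain ⟨K, hK⟩ := Filter.eventually_atTop.mp h2
  let k := max (max K N) (C * 2 ^ d + 1)
  have hkK : K ≤ k := le_trans (le_max_left _ _) (le_max_left _ _)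
  have hkN : N ≤ k := le_trans (le_max_right _ _) (le_max_left _ _)
  have hkC : C * 2 ^ d + 1 ≤ k := le_max_right _ _
  have hk1 : 1 ≤ k := le_trans (by omega) hkC
  refine ⟨k ^ 2, ?_, ?_⟩
  · calc N ≤ k := hkN
      _ ≤ k ^ 2 := Nat.le_self_pow (by norm_num) k
  · have hs : Nat.sqrt (k ^ 2) = k := Nat.sqrt_eq' k
    rw [hs]
    have h3 : k ^ (2 * d + 1) < 2 ^ k := by
      have h4 := hK k hkK
      rw [div_lt_one (by positivity)] at h4
      exact_mod_cast h4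
    refine lt_of_le_of_lt ?_ h3
    have h5 : k ^ 2 + 1 ≤ 2 * k ^ 2 := by nlinarith
    calc C * (k ^ 2 + 1) ^ d ≤ C * (2 * k ^ 2) ^ d :=
          Nat.mul_le_mul_left _ (Nat.pow_le_pow_left h5 d)
      _ = C * 2 ^ d * k ^ (2 * d) := by rw [mul_pow, ← pow_mul]; ring
      _ ≤ k * k ^ (2 * d) := Nat.mul_le_mul_right _ (by omega)
      _ = k ^ (2 * d + 1) := by rw [pow_succ]; ring

/-- **Cofinality.** -/
theorem cofinal {f : ℕ → ℕ} (hf : Subexp f) : ∃ ω : ℕ → Bool, Preforms Gs (Hgrp ω) ∧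
    Subexp (growth (T ω)) ∧ NonPoly (growth (T ω)) ∧
      ∃ N : ℕ, ∀ n, N ≤ n → f n ≤ growth (T ω) n := by
  obtain ⟨m, N, hN⟩ := exists_blocks (subexp_add hf subexp_sqrt)
  refine ⟨omega m, preforms _ (omega_often m), subexp_of_rate (rate_zero _ (omega_often m)), ?_,
    N, fun n hn => ?_⟩
  · intro C d
    obtain ⟨n, hn, h⟩ := sqrt_nonpoly C d N
    refine ⟨n, lt_of_lt_of_le h ?_⟩
    rw [growth_T]
    exact le_trans (Nat.le_add_left _ _) (hN n hn)
  · rw [growth_T]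
    exact le_trans (Nat.le_add_right _ _) (hN n hn)

end MP7daf
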