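import Pool.Agent.Lib.MP_7daf54_al.Sets

set_option autoImplicit false

/-!
# The lower bound: fast growth is transported through a block
-/

namespace MP7daf

open Classical

/-! ### Reduction of words -/

/-- Prepend a letter and cancel. -/
def rcons (i : Fin 3) : List (Fin 3) → List (Fin 3)
  | [] => [i]
  | j :: w => if i = j then w else i :: j :: w

/-- Free reduction. -/
def rred (w : List (Fin 3)) : List (Fin 3) := w.foldr rcons []

theorem ev_rcons (ω : ℕ → Bool) (i : Fin 3) (w : List (Fin 3)) :
    ev ω (rcons i w) = X ω i * ev ω w := by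
  cases w with
  | nil => simp [rcons]
  | cons j w =>
    by_cases h : i = j
    · subst h
      simp only [rcons, if_true, ev_cons]
      rw [← mul_assoc, X_mul_self, one_mul]
    · simp [rcons, h]

theorem ev_rred (ω : ℕ → Bool) (w : List (Fin 3)) : ev ω (rred w) = ev ω w := by
  induction w with
  | nil => rfl
  | cons i w ih =>
    have : rred (i :: w) = rcons i (rred w) := rfl
    rw [this, ev_rcons, ih, ev_cons]

/-! ### Units -/

theorem units_nil : units [] = [] := rfl

theorem units_cons (k : Fin 10) (l : List (Fin 10)) : units (k :: l) = unit k ++ units l := by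
  simp [units]

theorem units_append (l l' : List (Fin 10)) : units (l ++ l') = units l ++ units l' := by
  simp [units]

/-- The comparison of cardinalities. -/
theorem card_pow_le {ι : Type} [Fintype ι] (ω ω' : ℕ → Bool) (r r' : ℕ)
    (F : (ι → (Fin r → Fin 10)) → List (Fin 10)) (hF : ∀ g, (F g).length = r')
    (hinj : ∀ g g', ev ω (units (F g)) = ev ω (units (F g')) →
      ∀ i, ev ω' (units (List.ofFn (g i))) = ev ω' (units (List.ofFn (g' i)))) :
    (fset ω' r).card ^ Fintype.card ι ≤ (fset ω r').card := by
  have hrep : ∀ x ∈ fset ω' r, ∃ g : Fin r → Fin 10, ev ω' (units (List.ofFn g)) = x := by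
    intro x hx
    simp only [fset, Finset.mem_image, mem_klists] at hx
    obtain ⟨l, hl, rfl⟩ := hx
    subst hl
    exact ⟨l.get, by rw [List.ofFn_get]⟩
  choose! rep hrep' using hrep
  have hcard : (Fintype.piFinset fun _ : ι => fset ω' r).card =
      (fset ω' r).card ^ Fintype.card ι := by
    rw [Fintype.card_piFinset, Finset.prod_const, Finset.card_univ]
  rw [← hcard]
  refine Finset.card_le_card_of_injOn (s := Fintype.piFinset fun _ : ι => fset ω' r)
    (t := fset ω r') (fun x => ev ω (units (F fun i => rep (x i)))) ?_ ?_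
  · intro x _
    simp only [fset, Finset.coe_image, Set.mem_image, Finset.mem_coe, mem_klists]
    exact ⟨_, hF _, rfl⟩
  · intro x hx y hy hxy
    rw [Finset.mem_coe, Fintype.mem_piFinset] at hx hy
    funext i
    have := hinj _ _ hxy i
    rwa [hrep' _ (hx i), hrep' _ (hy i)] at this

/-! ### The block without inflation of the action -/

/-- The word `(x₁ x₀)^(1 + 3 k)`. -/
def tl (k : Fin 10) : List (Fin 3) := (List.replicate (1 + 3 * k.val) [1, 0]).flatten

/-- The action of all units. -/
def cyc : Fin 6 → Fin 6
  | 0 => 1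
  | 1 => 3
  | 2 => 4
  | 3 => 2
  | 4 => 0
  | 5 => 5

theorem act_false_unit : ∀ (k : Fin 10) (j : Fin 6), act false (unit k) j = cyc j := by
  decide +kernel

theorem sec_false_unit_0 : ∀ k : Fin 10, sec false (unit k) 0 = tl k := by decide +kernel
theorem sec_false_unit_1 : ∀ k : Fin 10, sec false (unit k) 1 = [] := by decide +kernel
theorem sec_false_unit_2 : ∀ k : Fin 10, sec false (unit k) 2 = [2] := by decide +kernel
theorem sec_false_unit_3 : ∀ k : Fin 10, sec false (unit k) 3 = [] := by decide +kernel
theorem sec_false_unit_4 : ∀ k : Fin 10, sec false (unit k) 4 = [] := by decide +kernel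

/-- Five lists of units in one. -/
def five (T : List (Fin 5 → Fin 10)) : List (Fin 10) :=
  T.flatMap fun t => [t 4, t 3, t 2, t 1, t 0]

theorem five_cons (t : Fin 5 → Fin 10) (T : List (Fin 5 → Fin 10)) :
    units (five (t :: T)) =
      unit (t 4) ++ (unit (t 3) ++ (unit (t 2) ++ (unit (t 1) ++ (unit (t 0) ++
        units (five T))))) := by
  simp [five, units]

theorem five_length (T : List (Fin 5 → Fin 10)) : (five T).length = 5 * T.length := by
  induction T with
  | nil => rfl
  | cons t T ih =>
    have : five (t :: T) = [t 4, t 3, t 2, t 1, t 0] ++ five T := by simp [five]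
    rw [this, List.length_append, ih]
    simp
    omega

theorem act_five (T : List (Fin 5 → Fin 10)) (j : Fin 6) :
    act false (units (five T)) j = j := by
  induction T with
  | nil => rfl
  | cons t T ih =>
    rw [five_cons]
    simp only [act_append, act_false_unit, ih]
    clear ih
    revert j
    decide

theorem sec_five_0 (T : List (Fin 5 → Fin 10)) :
    sec false (units (five T)) 0 = units (T.map fun t => t 0) := by
  induction T with
  | nil => rfl
  | cons t T ih =>
    rw [five_cons, List.map_cons, units_cons]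
    simp only [sec_append, act_append, act_false_unit, act_five, ih, sec_false_unit_0, cyc,
      sec_false_unit_1, sec_false_unit_2, sec_false_unit_3, sec_false_unit_4]
    simp [unit, tl]

theorem sec_five_4 (T : List (Fin 5 → Fin 10)) :
    sec false (units (five T)) 4 = units (T.map fun t => t 1) := by
  induction T with
  | nil => rfl
  | cons t T ih =>
    rw [five_cons, List.map_cons, units_cons]
    simp only [sec_append, act_append, act_false_unit, act_five, ih, sec_false_unit_0, cyc,
      sec_false_unit_1, sec_false_unit_2, sec_false_unit_3, sec_false_unit_4]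
    simp [unit, tl]

/-- The reversed units. -/
def stinu (l : List (Fin 10)) : List (Fin 3) := l.flatMap fun k => tl k ++ [2]

theorem stinu_cons (k : Fin 10) (l : List (Fin 10)) :
    stinu (k :: l) = tl k ++ ([2] ++ stinu l) := by simp [stinu]

theorem sec_five_2 (T : List (Fin 5 → Fin 10)) :
    sec false (units (five T)) 2 = stinu (T.map fun t => t 2) := by
  induction T with
  | nil => rfl
  | cons t T ih =>
    rw [five_cons, List.map_cons, stinu_cons]
    simp only [sec_append, act_append, act_false_unit, act_five, ih, sec_false_unit_0, cyc,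
      sec_false_unit_1, sec_false_unit_2, sec_false_unit_3, sec_false_unit_4]
    simp

theorem sec_five_3 (T : List (Fin 5 → Fin 10)) :
    sec false (units (five T)) 3 = stinu (T.map fun t => t 3) := by
  induction T with
  | nil => rfl
  | cons t T ih =>
    rw [five_cons, List.map_cons, stinu_cons]
    simp only [sec_append, act_append, act_false_unit, act_five, ih, sec_false_unit_0, cyc,
      sec_false_unit_1, sec_false_unit_2, sec_false_unit_3, sec_false_unit_4]
    simp

theorem sec_five_1 (T : List (Fin 5 → Fin 10)) :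
    sec false (units (five T)) 1 = stinu (T.map fun t => t 4) := by
  induction T with
  | nil => rfl
  | cons t T ih =>
    rw [five_cons, List.map_cons, stinu_cons]
    simp only [sec_append, act_append, act_false_unit, act_five, ih, sec_false_unit_0, cyc,
      sec_false_unit_1, sec_false_unit_2, sec_false_unit_3, sec_false_unit_4]
    simp

theorem ev_stinu (ω : ℕ → Bool) (l : List (Fin 10)) :
    ev ω (stinu l) = X ω 2 * ev ω (units l) * X ω 2 := by
  induction l with
  | nil => simp [stinu, units, X_mul_self]
  | cons k l ih =>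
    have hu : ev ω (unit k) = X ω 2 * ev ω (tl k) := by
      simp [unit, tl]
    rw [stinu_cons, ev_append, ev_append, ih, units_cons, ev_append, hu]
    have h2 := X_mul_self ω 2
    simp only [ev_cons, ev_nil, mul_one]
    calc ev ω (tl k) * (X ω 2 * (X ω 2 * ev ω (units l) * X ω 2))
        = ev ω (tl k) * ((X ω 2 * X ω 2) * ev ω (units l) * X ω 2) := by
          simp only [mul_assoc]
      _ = ev ω (tl k) * (ev ω (units l) * X ω 2) := by rw [h2, one_mul]
      _ = (X ω 2 * X ω 2) * ev ω (tl k) * (ev ω (units l) * X ω 2) := by rw [h2, one_mul]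
      _ = X ω 2 * (X ω 2 * ev ω (tl k) * ev ω (units l)) * X ω 2 := by
          simp only [mul_assoc]

theorem card_five (ω : ℕ → Bool) (h0 : ω 0 = false) (r : ℕ) :
    (fset (tail ω) r).card ^ 5 ≤ (fset ω (5 * r)).card := by
  have := card_pow_le (ι := Fin 5) ω (tail ω) r (5 * r)
    (fun g => five (List.ofFn fun a i => g i a)) (fun g => by simp [five_length]) ?_
  · simpa using this
  · intro g g' h
    rw [ev_eq_iff, h0] at h
    have hs := h.2
    have key : ∀ i : Fin 5, ev (tail ω) (units (List.ofFn (g i))) =
        ev (tail ω) (units (List.ofFn (g' i))) := by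
      have m : ∀ (g : Fin 5 → Fin r → Fin 10) (i : Fin 5),
          (List.ofFn fun a i => g i a).map (fun t => t i) = List.ofFn (g i) := by
        intro g i
        rw [List.map_ofFn]
        rfl
      have c0 := hs 0
      have c4 := hs 4
      have c2 := hs 2
      have c3 := hs 3
      have c1 := hs 1
      rw [sec_five_0, sec_five_0, m, m] at c0
      rw [sec_five_4, sec_five_4, m, m] at c4
      rw [sec_five_2, sec_five_2, m, m, ev_stinu, ev_stinu] at c2
      rw [sec_five_3, sec_five_3, m, m, ev_stinu, ev_stinu] at c3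
      rw [sec_five_1, sec_five_1, m, m, ev_stinu, ev_stinu] at c1
      intro i
      fin_cases i
      · exact c0
      · exact c4
      · exact mul_left_cancel (mul_right_cancel c2)
      · exact mul_left_cancel (mul_right_cancel c3)
      · exact mul_left_cancel (mul_right_cancel c1)
    exact key

theorem card_five_pow (k : ℕ) : ∀ (ω : ℕ → Bool), (∀ n < k, ω n = false) → ∀ r,
    (fset (fun n => ω (n + k)) r).card ^ 5 ^ k ≤ (fset ω (5 ^ k * r)).card := by
  induction k with
  | zero => intro ω _ r; simp
  | succ k ih =>
    intro ω hω r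
    have h1 := ih (tail ω) (fun n hn => hω (n + 1) (by omega)) r
    have h2 := card_five ω (hω 0 (by omega)) (5 ^ k * r)
    have h3 : (fun n => tail ω (n + k)) = fun n => ω (n + (k + 1)) := rfl
    rw [h3] at h1
    calc (fset (fun n => ω (n + (k + 1))) r).card ^ 5 ^ (k + 1)
        = ((fset (fun n => ω (n + (k + 1))) r).card ^ 5 ^ k) ^ 5 := by rw [← pow_mul, pow_succ]
      _ ≤ (fset (tail ω) (5 ^ k * r)).card ^ 5 := Nat.pow_le_pow_left h1 5
      _ ≤ (fset ω (5 * (5 ^ k * r))).card := h2
      _ = (fset ω (5 ^ (k + 1) * r)).card := by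
          congr 2
          ring

/-! ### The block with inflation of the action -/

theorem u1_2 : act true (unit 1) 2 = 4 ∧ rred (sec true (unit 1) 2) = [0] := by decide +kernel
theorem u0_4 : act true (unit 0) 4 = 0 ∧ rred (sec true (unit 0) 4) = [1] := by decide +kernel
theorem u8_0 : act true (unit 8) 0 = 4 ∧ rred (sec true (unit 8) 0) = [0] := by decide +kernel
theorem u0_0 : act true (unit 0) 0 = 2 ∧ rred (sec true (unit 0) 0) = [2] := by decide +kernel
theorem u33_2 : act true (unit 3 ++ unit 3) 2 = 2 ∧ rred (sec true (unit 3 ++ unit 3) 2) = [] := by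
  decide +kernel

theorem ev_of_rred {w v : List (Fin 3)} (h : rred w = v) (ω : ℕ → Bool) : ev ω w = ev ω v := by
  rw [← h, ev_rred]

/-- The list of units which induces the unit `k`. -/
def lft (k : Fin 10) : List (Fin 10) :=
  0 :: ((List.replicate (3 * k.val) [0, 8]).flatten ++
    (0 :: 1 :: (List.replicate (27 - 3 * k.val) [3, 3]).flatten))

theorem lft_length : ∀ k : Fin 10, (lft k).length = 57 := by decide +kernel

theorem pads (n : ℕ) : act true (units (List.replicate n [3, 3]).flatten) 2 = 2 ∧
    ∀ ω, ev ω (sec true (units (List.replicate n [3, 3]).flatten) 2) = 1 := by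
  induction n with
  | zero => exact ⟨rfl, fun _ => rfl⟩
  | succ n ih =>
    have e : units (List.replicate (n + 1) [(3 : Fin 10), 3]).flatten =
        (unit 3 ++ unit 3) ++ units (List.replicate n [3, 3]).flatten := by
      rw [List.replicate_succ, List.flatten_cons, units_append]
      simp [units]
    rw [e]
    refine ⟨by rw [act_append, ih.1, u33_2.1], fun ω => ?_⟩
    rw [sec_append, ev_append, ih.1, ih.2, mul_one, ev_of_rred u33_2.2]
    rfl

theorem turns (n : ℕ) : act true (units (List.replicate n [0, 8]).flatten) 0 = 0 ∧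
    ∀ ω, ev ω (sec true (units (List.replicate n [0, 8]).flatten) 0) =
      ev ω (List.replicate n [1, 0]).flatten := by
  induction n with
  | zero => exact ⟨rfl, fun _ => rfl⟩
  | succ n ih =>
    have e : units (List.replicate (n + 1) [(0 : Fin 10), 8]).flatten =
        unit 0 ++ (unit 8 ++ units (List.replicate n [0, 8]).flatten) := by
      rw [List.replicate_succ, List.flatten_cons, units_append]
      simp [units]
    rw [e]
    refine ⟨by rw [act_append, act_append, ih.1, u8_0.1, u0_4.1], fun ω => ?_⟩
    rw [sec_append, sec_append, act_append, ev_append, ev_append, ih.1, ih.2, u8_0.1,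
      ev_of_rred u0_4.2, ev_of_rred u8_0.2, List.replicate_succ, List.flatten_cons, ev_append]
    simp [mul_assoc]

theorem lft_spec (k : Fin 10) : act true (units (lft k)) 2 = 2 ∧
    ∀ ω, ev ω (sec true (units (lft k)) 2) = ev ω (unit k) := by
  have e : units (lft k) = unit 0 ++ (units (List.replicate (3 * k.val) [0, 8]).flatten ++
      (unit 0 ++ (unit 1 ++ units (List.replicate (27 - 3 * k.val) [3, 3]).flatten))) := by
    rw [lft, units_cons, units_append, units_cons, units_cons]
  have hp := pads (27 - 3 * k.val)
  have ht := turns (3 * k.val)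
  rw [e]
  constructor
  · simp only [act_append, hp.1, u1_2.1, u0_4.1, ht.1, u0_0.1]
  · intro ω
    simp only [sec_append, act_append, ev_append, hp.1, u1_2.1, u0_4.1, ht.1, hp.2, ht.2,
      ev_of_rred u0_0.2, ev_of_rred u0_4.2, ev_of_rred u1_2.2]
    have hu : unit k = 2 :: ((List.replicate (3 * k.val) [1, 0]).flatten ++ [1, 0]) := by
      have : List.replicate (1 + 3 * k.val) ([1, 0] : List (Fin 3)) =
          List.replicate (3 * k.val) [1, 0] ++ [[1, 0]] := by
        rw [add_comm, List.replicate_succ']
      rw [unit, this, List.flatten_append]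
      rfl
    rw [hu]
    simp

theorem flatMap_lft (l : List (Fin 10)) : act true (units (l.flatMap lft)) 2 = 2 ∧
    ∀ ω, ev ω (sec true (units (l.flatMap lft)) 2) = ev ω (units l) := by
  induction l with
  | nil => exact ⟨rfl, fun _ => rfl⟩
  | cons k l ih =>
    rw [List.flatMap_cons, units_append, units_cons]
    refine ⟨by rw [act_append, ih.1, (lft_spec k).1], fun ω => ?_⟩
    rw [sec_append, ev_append, ih.1, ih.2, (lft_spec k).2, ev_append]

theorem flatMap_lft_length (l : List (Fin 10)) : (l.flatMap lft).length = 57 * l.length := by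
  induction l with
  | nil => rfl
  | cons k l ih =>
    rw [List.flatMap_cons, List.length_append, ih, lft_length, List.length_cons]
    ring

theorem card_lft (ω : ℕ → Bool) (h0 : ω 0 = true) (r : ℕ) :
    (fset (tail ω) r).card ≤ (fset ω (57 * r)).card := by
  have := card_pow_le (ι := Fin 1) ω (tail ω) r (57 * r)
    (fun g => (List.ofFn (g 0)).flatMap lft)
    (fun g => by rw [flatMap_lft_length, List.length_ofFn]) ?_
  · simpa using this
  · intro g g' h i
    rw [ev_eq_iff, h0] at h
    have hs := h.2 2
    rw [(flatMap_lft _).2, (flatMap_lft _).2] at hs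
    have hi : i = 0 := Subsingleton.elim _ _
    rw [hi]
    exact hs

/-! ### Monotonicity and the first step -/

theorem card_succ (ω : ℕ → Bool) (r : ℕ) : (fset ω r).card ≤ (fset ω (r + 1)).card := by
  have := card_pow_le (ι := Fin 1) ω ω r (r + 1)
    (fun g => 0 :: List.ofFn (g 0)) (fun g => by simp) ?_
  · simpa using this
  · intro g g' h i
    rw [units_cons, units_cons, ev_append, ev_append] at h
    have hi : i = 0 := Subsingleton.elim _ _
    rw [hi]
    exact mul_left_cancel h

theorem card_mono (ω : ℕ → Bool) {r r' : ℕ} (h : r ≤ r') :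
    (fset ω r).card ≤ (fset ω r').card :=
  monotone_nat_of_le_succ (f := fun r => (fset ω r).card) (card_succ ω) h

theorem nt (m : ℕ) : ∀ (ω : ℕ → Bool), (∀ n < m, ω n = false) → ω m = true →
    ev ω [1, 0, 1, 0, 1, 0] ≠ 1 := by
  induction m with
  | zero =>
    intro ω _ h0 h
    rw [ev_eq_one_iff, h0] at h
    exact absurd (h.1 0) (by decide)
  | succ m ih =>
    intro ω hω hm h
    rw [ev_eq_one_iff, hω 0 (by omega)] at h
    have h1 := h.2 0
    have h2 : sec false [1, 0, 1, 0, 1, 0] 0 = [1, 0, 1, 0, 1, 0] := by decide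
    rw [h2] at h1
    exact ih (tail ω) (fun n hn => hω (n + 1) (by omega)) hm h1

theorem two_le (m : ℕ) (ω : ℕ → Bool) (hm : ∀ n < m, ω n = false) (ht : ω m = true) :
    2 ≤ (fset ω 1).card := by
  apply Finset.one_lt_card.2
  refine ⟨ev ω (units [0]), ?_, ev ω (units [1]), ?_, ?_⟩
  · exact Finset.mem_image.2 ⟨[0], by simp, rfl⟩
  · exact Finset.mem_image.2 ⟨[1], by simp, rfl⟩
  · intro h
    have e : units [1] = units [0] ++ [1, 0, 1, 0, 1, 0] := by decide
    rw [e, ev_append] at h
    exact nt m ω hm ht (mul_eq_left.1 h.symm)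

theorem two_pow_le (m : ℕ) (ω : ℕ → Bool) (hm : ∀ n < m, ω n = false) (ht : ω m = true) :
    ∀ k ≤ m, 2 ^ 5 ^ k ≤ (fset ω (5 ^ k)).card := by
  intro k hk
  have h1 := card_five_pow k ω (fun n hn => hm n (by omega)) 1
  have h2 : 2 ≤ (fset (fun n => ω (n + k)) 1).card := by
    apply two_le (m - k)
    · intro n hn
      exact hm _ (by omega)
    · rw [Nat.sub_add_cancel hk]
      exact ht
  rw [mul_one] at h1
  exact (Nat.pow_le_pow_left h2 _).trans h1

theorem small (m : ℕ) (ω : ℕ → Bool) (hm : ∀ n < m, ω n = false) (ht : ω m = true) :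
    ∀ k ≤ m, ∀ r, r ≤ 5 ^ k → 2 ^ r ≤ (fset ω (5 * r)).card := by
  intro k
  induction k with
  | zero =>
    intro _ r hr
    have h2 := two_le m ω hm ht
    rcases Nat.lt_or_ge r 1 with h | h
    · have : r = 0 := by omega
      subst this
      have : (fset ω (5 * 0)).Nonempty :=
        ⟨ev ω (units []), Finset.mem_image.2 ⟨[], by simp, rfl⟩⟩
      exact Finset.card_pos.2 this
    · have : r = 1 := by simpa using le_antisymm hr h
      subst this
      exact (by simpa using h2 : 2 ^ 1 ≤ (fset ω 1).card).trans (card_mono ω (by omega))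
  | succ k ih =>
    intro hk r hr
    rcases Nat.lt_or_ge (5 ^ k) r with h | h
    · calc 2 ^ r ≤ 2 ^ 5 ^ (k + 1) := Nat.pow_le_pow_right (by omega) hr
        _ ≤ (fset ω (5 ^ (k + 1))).card := two_pow_le m ω hm ht _ hk
        _ ≤ (fset ω (5 * r)).card := card_mono ω (by rw [pow_succ]; omega)
    · exact ih (by omega) r h

theorem fast_block (m : ℕ) (ω : ℕ → Bool) (hm : ∀ n < m, ω n = false) (ht : ω m = true)
    (c R : ℕ) (hc : 1 ≤ c) (h : Fast (fun n => ω (n + m + 1)) c R) :
    Fast ω (114 * c) (5 ^ m * max R 1) := by
  intro r hr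
  rcases Nat.lt_or_ge (5 ^ m) r with hlt | hle
  · -- large `r`
    have hR : 1 ≤ R := by
      by_contra hR
      have : max R 1 = 1 := by omega
      rw [this] at hr
      omega
    have hmax : max R 1 = R := by omega
    rw [hmax] at hr
    have h5 : 0 < 5 ^ m := by positivity
    obtain ⟨q, hq1, hq2⟩ : ∃ q, r ≤ 5 ^ m * q ∧ 5 ^ m * q < r + 5 ^ m := by
      refine ⟨(r + 5 ^ m - 1) / 5 ^ m, ?_, ?_⟩
      · have h1 := Nat.div_add_mod (r + 5 ^ m - 1) (5 ^ m)
        have h2 := Nat.mod_lt (r + 5 ^ m - 1) h5
        omega
      · have h1 := Nat.mul_div_le (r + 5 ^ m - 1) (5 ^ m)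
        omega
    have hqR : q ≤ R := by
      by_contra hq
      have h1 : 5 ^ m * (R + 1) ≤ 5 ^ m * q := Nat.mul_le_mul_left _ (by omega)
      rw [mul_add, mul_one] at h1
      omega
    have h1 : 2 ^ q ≤ (fset (fun n => ω (n + m + 1)) (c * q)).card := h q hqR
    have h2 : (fset (fun n => ω (n + m + 1)) (c * q)).card ≤
        (fset (fun n => ω (n + m)) (57 * (c * q))).card := by
      have h3 := card_lft (fun n => ω (n + m)) (by simpa using ht) (c * q)
      have h4 : tail (fun n => ω (n + m)) = fun n => ω (n + m + 1) := by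
        funext n
        rw [tail_apply]
        congr 1
        omega
      rwa [h4] at h3
    have h3 := card_five_pow m ω hm (57 * (c * q))
    calc 2 ^ r ≤ 2 ^ (q * 5 ^ m) := Nat.pow_le_pow_right (by omega) (by rwa [mul_comm])
      _ = (2 ^ q) ^ 5 ^ m := by rw [pow_mul]
      _ ≤ (fset (fun n => ω (n + m)) (57 * (c * q))).card ^ 5 ^ m :=
          Nat.pow_le_pow_left (h1.trans h2) _
      _ ≤ (fset ω (5 ^ m * (57 * (c * q)))).card := h3
      _ ≤ (fset ω (114 * c * r)).card := by
          apply card_mono
          have h4 : 5 ^ m * q ≤ 2 * r := by omega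
          calc 5 ^ m * (57 * (c * q)) = 57 * c * (5 ^ m * q) := by ring
            _ ≤ 57 * c * (2 * r) := Nat.mul_le_mul_left _ h4
            _ = 114 * c * r := by ring
  · -- small `r`
    have h1 := small m ω hm ht m le_rfl r hle
    refine h1.trans (card_mono ω ?_)
    calc 5 * r ≤ (114 * c) * r := Nat.mul_le_mul_right _ (by omega)
      _ = 114 * c * r := rfl

end MP7daf
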