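import Pool.Agent.Lib.MP_7daf54_al.Infl
import Pool.Agent.Lib.MP_7daf54_al.Lower

set_option autoImplicit false

/-!
# Contraction: reduced words of length 13 lose two letters
-/

namespace MP7daf

/-- Reduced words. -/
def Redd : List (Fin 3) → Prop
  | [] => True
  | i :: w => w.head? ≠ some i ∧ Redd w

theorem redd_rcons (i : Fin 3) (w : List (Fin 3)) (h : Redd w) : Redd (rcons i w) := by
  cases w with
  | nil => simp [rcons, Redd]
  | cons j w =>
    by_cases hij : i = j
    · subst hij
      simp only [rcons, if_true]
      exact h.2
    · simp only [rcons, if_neg hij]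
      exact ⟨by simpa using Ne.symm hij, h⟩

theorem redd_foldr (v : List (Fin 3)) (z : List (Fin 3)) (hz : Redd z) :
    Redd (v.foldr rcons z) := by
  induction v with
  | nil => exact hz
  | cons i v ih => exact redd_rcons i _ ih

theorem redd_rred (w : List (Fin 3)) : Redd (rred w) := redd_foldr w [] trivial

theorem rcons_rcons (i : Fin 3) (z : List (Fin 3)) (hz : Redd z) : rcons i (rcons i z) = z := by
  cases z with
  | nil => simp [rcons]
  | cons j z =>
    by_cases hij : i = j
    · subst hij
      simp only [rcons, if_true]
      cases z with
      | nil => rfl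
      | cons k z =>
        have : i ≠ k := fun h => hz.1 (by simp [h])
        simp [rcons, this]
    · simp [rcons, hij]

theorem foldr_rcons (z : List (Fin 3)) (hz : Redd z) (i : Fin 3) (v : List (Fin 3)) :
    (rcons i v).foldr rcons z = rcons i (v.foldr rcons z) := by
  cases v with
  | nil => simp [rcons]
  | cons j v =>
    by_cases hij : i = j
    · subst hij
      simp only [rcons, if_true, List.foldr_cons]
      exact (rcons_rcons i _ (redd_foldr v z hz)).symm
    · simp [rcons, hij]

theorem foldr_rred (z : List (Fin 3)) (hz : Redd z) (v : List (Fin 3)) :
    (rred v).foldr rcons z = v.foldr rcons z := by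
  induction v with
  | nil => rfl
  | cons i v ih =>
    have : rred (i :: v) = rcons i (rred v) := rfl
    rw [this, foldr_rcons z hz, ih, List.foldr_cons]

theorem rcons_length (i : Fin 3) (w : List (Fin 3)) : (rcons i w).length ≤ w.length + 1 := by
  cases w with
  | nil => simp [rcons]
  | cons j w =>
    simp only [rcons]
    split_ifs
    · simp; omega
    · simp

theorem foldr_length (v z : List (Fin 3)) : (v.foldr rcons z).length ≤ v.length + z.length := by
  induction v with
  | nil => simp
  | cons i v ih =>
    rw [List.foldr_cons, List.length_cons]
    have := rcons_length i (v.foldr rcons z)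
    omega

theorem rred_append_length (v w : List (Fin 3)) :
    (rred (v ++ w)).length ≤ (rred v).length + (rred w).length := by
  have h : rred (v ++ w) = (rred v).foldr rcons (rred w) := by
    rw [foldr_rred _ (redd_rred w)]
    exact List.foldr_append
  rw [h]
  exact foldr_length _ _

theorem rred_length (w : List (Fin 3)) : (rred w).length ≤ w.length := by
  have h : (w.foldr rcons []).length ≤ w.length + 0 := foldr_length w []
  exact h

theorem rcons_of_head (i : Fin 3) (w : List (Fin 3)) (h : w.head? = some i) :
    (rcons i w).length + 1 = w.length := by
  cases w with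
  | nil => simp at h
  | cons j w =>
    simp only [List.head?_cons, Option.some.injEq] at h
    subst h
    simp [rcons]

theorem rcons_of_ne (i : Fin 3) (w : List (Fin 3)) (h : w.head? ≠ some i) :
    rcons i w = i :: w := by
  cases w with
  | nil => rfl
  | cons j w =>
    have : i ≠ j := fun hij => h (by simp [hij])
    simp [rcons, this]

/-- The total length of the reduced sections. -/
def len (b : Bool) (w : List (Fin 3)) : ℕ := ∑ j, (rred (sec b w j)).length

theorem sum_act (b : Bool) (w : List (Fin 3)) (g : Fin 6 → ℕ) : ∑ j, g (act b w j) = ∑ q, g q := by
  rw [← Equiv.sum_comp (actP b w) g]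
  exact Finset.sum_congr rfl fun j _ => by rw [actP_apply]

theorem sum_read (b : Bool) (w : List (Fin 3)) (i : Fin 3) :
    ∑ j, (if act b w j = p b i then 1 else 0) = 1 := by
  rw [sum_act b w fun q => if q = p b i then 1 else 0]
  simp

theorem len_cons (b : Bool) (i : Fin 3) (w : List (Fin 3)) : len b (i :: w) ≤ len b w + 1 := by
  unfold len
  rw [← sum_read b w i, ← Finset.sum_add_distrib]
  refine Finset.sum_le_sum fun j _ => ?_
  simp only [sec]
  split_ifs with h
  · exact rcons_length i _
  · omega

theorem len_append_le (b : Bool) (v w : List (Fin 3)) : len b (v ++ w) ≤ len b w + v.length := by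
  induction v with
  | nil => simp
  | cons i v ih =>
    have := len_cons b i (v ++ w)
    rw [List.cons_append, List.length_cons]
    omega

theorem len_nil (b : Bool) : len b [] = 0 := by
  unfold len
  simp [sec, rred]

theorem len_le (b : Bool) (w : List (Fin 3)) : len b w ≤ w.length := by
  have := len_append_le b w []
  rw [List.append_nil, len_nil] at this
  omega

theorem len_append (b : Bool) (v w : List (Fin 3)) : len b (v ++ w) ≤ len b v + len b w := by
  have h1 : len b v = ∑ j, (rred (sec b v (act b w j))).length :=
    (sum_act b w fun q => (rred (sec b v q)).length).symm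
  rw [h1]
  unfold len
  rw [← Finset.sum_add_distrib]
  refine Finset.sum_le_sum fun j _ => ?_
  rw [sec_append]
  exact rred_append_length _ _

/-- The heads of the reduced sections, indexed by the current position. -/
def Inv (w : List (Fin 3)) (h : Fin 6 → Option (Fin 3)) : Prop :=
  ∀ j, (rred (sec true w j)).head? = h (act true w j)

/-- The new heads. -/
def hnew (i : Fin 3) (h : Fin 6 → Option (Fin 3)) (q : Fin 6) : Option (Fin 3) :=
  if q = p true i then some i else h (u true i q)

theorem Inv.step {w : List (Fin 3)} {h : Fin 6 → Option (Fin 3)} (hI : Inv w h) (i : Fin 3)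
    (hi : h (p true i) ≠ some i) : Inv (i :: w) (hnew i h) := by
  intro j
  simp only [sec, act]
  by_cases hj : act true w j = p true i
  · rw [if_pos hj, hj, u_p]
    have e : rred (i :: sec true w j) = rcons i (rred (sec true w j)) := rfl
    rw [e, rcons_of_ne]
    · simp [hnew]
    · rw [hI j, hj]; exact hi
  · rw [if_neg hj, hI j]
    unfold hnew
    rw [if_neg (fun h' => hj ((u_eq_p_iff true i _).mp h')), u_u]

theorem Inv.cancel {w : List (Fin 3)} {h : Fin 6 → Option (Fin 3)} (hI : Inv w h) (i : Fin 3)
    (hi : h (p true i) = some i) : len true (i :: w) + 1 ≤ len true w := by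
  unfold len
  rw [← sum_read true w i, ← Finset.sum_add_distrib]
  refine Finset.sum_le_sum fun j _ => ?_
  simp only [sec]
  split_ifs with hj
  · have e : rred (i :: sec true w j) = rcons i (rred (sec true w j)) := rfl
    rw [e]
    exact (rcons_of_head i _ (by rw [hI j, hj]; exact hi)).le
  · omega

/-- The search: in every reduced extension of length `n` there is a cancellation. -/
def chk : ℕ → ℕ → ℕ → ℕ → ℕ → ℕ → ℕ → ℕ → Bool
  | 0, _, _, _, _, _, _, _ => false
  | n + 1, last, a0, a1, a2, a3, a4, a5 =>
    (last == 0 || a5 == 0 || chk n 0 a2 a3 a0 a1 a4 0) &&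
    (last == 1 || a4 == 1 || chk n 1 a1 a0 a2 a5 1 a3) &&
    (last == 2 || a2 == 2 || chk n 2 a4 a1 2 a5 a0 a3)

theorem chk_true : chk 13 3 3 3 3 3 3 3 = true := by decide +kernel

/-- The code of an optional letter. -/
def code : Option (Fin 3) → ℕ
  | none => 3
  | some i => i.val

theorem code_eq (o : Option (Fin 3)) (i : Fin 3) : code o = i.val ↔ o = some i := by
  revert o i; decide

theorem chk_sound (n : ℕ) : ∀ (w : List (Fin 3)) (h : Fin 6 → Option (Fin 3)), Inv w h →
    chk n (code w.head?) (code (h 0)) (code (h 1)) (code (h 2)) (code (h 3)) (code (h 4))
      (code (h 5)) = true →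
    ∀ v : List (Fin 3), v.length = n → Redd (v ++ w) → len true (v ++ w) + 2 ≤ len true w + n := by
  induction n with
  | zero => intro w h _ hc; exact absurd hc (by simp [chk])
  | succ n ih =>
    intro w h hI hc v hv hred
    obtain ⟨v', i, rfl⟩ : ∃ v' i, v = v' ++ [i] := by
      have hne : v ≠ [] := by rintro rfl; simp at hv
      exact ⟨v.dropLast, v.getLast hne, (List.dropLast_append_getLast hne).symm⟩
    have hv' : v'.length = n := by simpa using hv
    have e : v' ++ [i] ++ w = v' ++ (i :: w) := by simp
    rw [e] at hred ⊢
    have hhead : w.head? ≠ some i := by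
      have : ∀ v'' : List (Fin 3), Redd (v'' ++ (i :: w)) → w.head? ≠ some i := by
        intro v''
        induction v'' with
        | nil => intro h; exact h.1
        | cons k v'' ihv => intro h; exact ihv h.2
      exact this v' hred
    by_cases hcan : h (p true i) = some i
    · have h1 := hI.cancel i hcan
      have h2 := len_append_le true v' (i :: w)
      omega
    · have hI' := hI.step i hcan
      have h1 := len_cons true i w
      have hgoal : chk n (code (i :: w).head?) (code (hnew i h 0)) (code (hnew i h 1))
          (code (hnew i h 2)) (code (hnew i h 3)) (code (hnew i h 4)) (code (hnew i h 5)) =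
          true := by
        simp only [chk, Bool.and_eq_true, Bool.or_eq_true, beq_iff_eq] at hc
        obtain ⟨⟨c0, c1⟩, c2⟩ := hc
        have hlast : code w.head? ≠ i.val := fun h' => hhead ((code_eq _ _).mp h')
        have hcan' : code (h (p true i)) ≠ i.val := fun h' => hcan ((code_eq _ _).mp h')
        fin_cases i
        · rcases c0 with (c | c) | c
          · exact absurd c hlast
          · exact absurd c hcan'
          · exact c
        · rcases c1 with (c | c) | c
          · exact absurd c hlast
          · exact absurd c hcan'
          · exact c
        · rcases c2 with (c | c) | c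
          · exact absurd c hlast
          · exact absurd c hcan'
          · exact c
      have h2 := ih (i :: w) (hnew i h) hI' hgoal v' hv' hred
      omega

/-- A reduced word of length 13 loses two letters. -/
theorem cut (w : List (Fin 3)) (hw : Redd w) (hl : w.length = 13) : len true w ≤ 11 := by
  have h := chk_sound 13 [] (fun _ => none) (fun j => by simp [sec, rred]) chk_true w hl
    (by rwa [List.append_nil])
  rw [List.append_nil, len_nil] at h
  omega

theorem Redd.append_left {v w : List (Fin 3)} (h : Redd (v ++ w)) : Redd v := by
  induction v with
  | nil => trivial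
  | cons i v ih =>
    refine ⟨?_, ih h.2⟩
    cases v with
    | nil => simp
    | cons j v => exact h.1

theorem Redd.append_right {v w : List (Fin 3)} (h : Redd (v ++ w)) : Redd w := by
  induction v with
  | nil => exact h
  | cons i v ih => exact ih h.2

/-- **Contraction.** -/
theorem len_true (w : List (Fin 3)) (hw : Redd w) : len true w + 2 * (w.length / 13) ≤ w.length := by
  have key : ∀ (n : ℕ) (w : List (Fin 3)), w.length ≤ n → Redd w →
      len true w + 2 * (w.length / 13) ≤ w.length := by
    intro n
    induction n with
    | zero =>
      intro w hn _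
      have := len_le true w
      omega
    | succ n ih =>
      intro w hn hw
      by_cases h13 : w.length < 13
      · have := len_le true w
        omega
      · have e : w = w.take 13 ++ w.drop 13 := (List.take_append_drop 13 w).symm
        have hl1 : (w.take 13).length = 13 := by rw [List.length_take]; omega
        have hl2 : (w.drop 13).length = w.length - 13 := List.length_drop
        rw [e] at hw
        have h1 := cut _ hw.append_left hl1
        have h2 := ih (w.drop 13) (by rw [hl2]; omega) hw.append_right
        have h3 := len_append true (w.take 13) (w.drop 13)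
        rw [← e] at h3
        rw [hl2] at h2
        omega
  exact key w.length w le_rfl hw

end MP7daf
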