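import Mathlib

set_option autoImplicit false

/-!
# Marked groups, growth, and the two inflations

`evalW`, `growth`, `Preforms` are the notions of the statement.  `act`, `sec` are the action and the
sections of a word in three letters for the two inflations (`true`, `false`), on six points.
-/

namespace MP7daf

/-! ### Notions of the statement -/

section general

variable {G H : Type} [Group G] [Group H] {k : ℕ}

/-- The value of a word in the `k` letters `S i` and their inverses (a pair `(i, true)` stands for
`S i` and `(i, false)` for its inverse). -/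
def evalW (S : Fin k → G) (w : List (Fin k × Bool)) : G :=
  (w.map fun q => if q.2 then S q.1 else (S q.1)⁻¹).prod

/-- `S` generates the group. -/
def Generates (S : Fin k → G) : Prop := Subgroup.closure (Set.range S) = ⊤

/-- The `k`-marked groups `(G, S n)` converge to `(H, T)`. -/
def Converges (S : ℕ → Fin k → G) (T : Fin k → H) : Prop :=
  ∀ R : ℕ, ∃ N : ℕ, ∀ n, N ≤ n → ∀ w : List (Fin k × Bool), w.length ≤ R →
    (evalW (S n) w = 1 ↔ evalW T w = 1)

/-- The growth function: the number of elements which are values of words of length at most `n`. -/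
noncomputable def growth (S : Fin k → G) (n : ℕ) : ℕ :=
  {g : G | ∃ w : List (Fin k × Bool), w.length ≤ n ∧ evalW S w = g}.ncard

end general

/-- `G` preforms `H`: some marking of `H` is a limit of markings of `G`. -/
def Preforms (G H : Type) [Group G] [Group H] : Prop :=
  ∃ (k : ℕ) (S : ℕ → Fin k → G) (T : Fin k → H), (∀ n, Generates (S n)) ∧ Generates T ∧
    Converges S T

/-- `f` is subexponential. -/
def Subexp (f : ℕ → ℕ) : Prop :=
  ∀ ε : ℝ, 0 < ε → ∃ N : ℕ, ∀ n, N ≤ n → (f n : ℝ) ≤ Real.exp (ε * n)

/-- `f` is not bounded by a polynomial. -/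
def NonPoly (f : ℕ → ℕ) : Prop := ∀ C d : ℕ, ∃ n : ℕ, C * (n + 1) ^ d < f n

/-! ### The two inflations -/

/-- swap of two points -/
abbrev sw (a b : Fin 6) : Equiv.Perm (Fin 6) := Equiv.swap a b

/-- The rooted permutations of the three letters. -/
def u : Bool → Fin 3 → Equiv.Perm (Fin 6)
  | true, 0 => sw 0 2 * sw 1 3
  | true, 1 => sw 0 1 * sw 3 5
  | true, 2 => sw 0 4 * sw 3 5
  | false, 0 => sw 1 4 * sw 3 5
  | false, 1 => sw 2 4 * sw 3 5
  | false, 2 => sw 0 1 * sw 2 3

/-- The points where the letters are read. -/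
def p : Bool → Fin 3 → Fin 6
  | true, 0 => 5
  | true, 1 => 4
  | true, 2 => 2
  | false, 0 => 0
  | false, 1 => 0
  | false, 2 => 4

/-- The action of a word on the six points (the last letter acts first). -/
def act (b : Bool) : List (Fin 3) → Fin 6 → Fin 6
  | [], j => j
  | i :: w, j => u b i (act b w j)

/-- The section of a word at a point: the list of the letters which are read along the path of the
point. -/
def sec (b : Bool) : List (Fin 3) → Fin 6 → List (Fin 3)
  | [], _ => []
  | i :: w, j => if act b w j = p b i then i :: sec b w j else sec b w j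

theorem u_p (b : Bool) (i : Fin 3) : u b i (p b i) = p b i := by
  revert b i; decide

theorem u_u (b : Bool) (i : Fin 3) (j : Fin 6) : u b i (u b i j) = j := by
  revert b i j; decide

theorem u_mul_self (b : Bool) (i : Fin 3) : u b i * u b i = 1 :=
  Equiv.ext fun j => u_u b i j

theorem u_ne_one (b : Bool) (i : Fin 3) : ∃ j, u b i j ≠ j := by
  revert b i; decide

theorem u_eq_p_iff (b : Bool) (i : Fin 3) (j : Fin 6) : u b i j = p b i ↔ j = p b i := by
  revert b i j; decide

theorem p_inj_true (i j : Fin 3) (h : p true i = p true j) : i = j := by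
  revert i j; decide

theorem act_append (b : Bool) (v w : List (Fin 3)) (j : Fin 6) :
    act b (v ++ w) j = act b v (act b w j) := by
  induction v with
  | nil => rfl
  | cons i v ih => simp [act, ih]

theorem sec_append (b : Bool) (v w : List (Fin 3)) (j : Fin 6) :
    sec b (v ++ w) j = sec b v (act b w j) ++ sec b w j := by
  induction v with
  | nil => rfl
  | cons i v ih =>
    simp only [List.cons_append, sec, act_append, ih]
    split_ifs <;> rfl

theorem sec_length_le (b : Bool) (w : List (Fin 3)) (j : Fin 6) :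
    (sec b w j).length ≤ w.length := by
  induction w with
  | nil => simp [sec]
  | cons i w ih =>
    simp only [sec]
    split_ifs <;> simp <;> omega

/-- The value of a word in three letters. -/
def eval {K : Type} [Group K] (x : Fin 3 → K) (w : List (Fin 3)) : K := (w.map x).prod

section eval

variable {K : Type} [Group K] (x : Fin 3 → K)

@[simp] theorem eval_nil : eval x [] = 1 := rfl

@[simp] theorem eval_cons (i : Fin 3) (w : List (Fin 3)) : eval x (i :: w) = x i * eval x w := by
  simp [eval]

@[simp] theorem eval_append (v w : List (Fin 3)) : eval x (v ++ w) = eval x v * eval x w := by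
  simp [eval]

end eval

/-- Prepending a point to a sequence. -/
def cons (a : Fin 6) (v : ℕ → Fin 6) : ℕ → Fin 6
  | 0 => a
  | n + 1 => v n

/-- The shift of a sequence. -/
def tail {α : Type} (v : ℕ → α) : ℕ → α := fun n => v (n + 1)

@[simp] theorem cons_zero (a : Fin 6) (v : ℕ → Fin 6) : cons a v 0 = a := rfl

@[simp] theorem cons_succ (a : Fin 6) (v : ℕ → Fin 6) (n : ℕ) : cons a v (n + 1) = v n := rfl

@[simp] theorem tail_cons (a : Fin 6) (v : ℕ → Fin 6) : tail (cons a v) = v := rfl

@[simp] theorem cons_tail (v : ℕ → Fin 6) : cons (v 0) (tail v) = v := by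
  funext n; cases n <;> rfl

theorem tail_apply {α : Type} (v : ℕ → α) (n : ℕ) : tail v n = v (n + 1) := rfl

theorem cons_inj {a b : Fin 6} {v w : ℕ → Fin 6} : cons a v = cons b w ↔ a = b ∧ v = w := by
  constructor
  · intro h
    exact ⟨congrFun h 0, by have := congrArg tail h; simpa using this⟩
  · rintro ⟨rfl, rfl⟩; rfl

/-! ### The limit groups -/

open Classical in
/-- The map `X ω i`: at the first index `n` where the sequence differs from the reading point of the
letter `i`, apply the rooted permutation of `i`. -/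
noncomputable def Xfun (ω : ℕ → Bool) (i : Fin 3) (v : ℕ → Fin 6) : ℕ → Fin 6 :=
  if h : ∃ n, v n ≠ p (ω n) i then
    Function.update v (Nat.find h) (u (ω (Nat.find h)) i (v (Nat.find h)))
  else v

open Classical in
theorem Xfun_of_ne (ω : ℕ → Bool) (i : Fin 3) (v : ℕ → Fin 6) (h0 : v 0 ≠ p (ω 0) i) :
    Xfun ω i v = cons (u (ω 0) i (v 0)) (tail v) := by
  have h : ∃ n, v n ≠ p (ω n) i := ⟨0, h0⟩
  have hf : Nat.find h = 0 := by simp [Nat.find_eq_zero, h0]
  rw [Xfun, dif_pos h, hf]
  funext n
  cases n with
  | zero => simp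
  | succ n => simp [tail]

open Classical in
theorem Xfun_of_eq (ω : ℕ → Bool) (i : Fin 3) (v : ℕ → Fin 6) (h0 : v 0 = p (ω 0) i) :
    Xfun ω i v = cons (v 0) (Xfun (tail ω) i (tail v)) := by
  by_cases h : ∃ n, v n ≠ p (ω n) i
  · have h' : ∃ n, tail v n ≠ p (tail ω n) i := by
      obtain ⟨n, hn⟩ := h
      cases n with
      | zero => exact absurd h0 hn
      | succ n => exact ⟨n, hn⟩
    have hf : Nat.find h = Nat.find h' + 1 := by
      rw [Nat.find_eq_iff]
      refine ⟨Nat.find_spec h', fun m hm => ?_⟩
      cases m with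
      | zero => simpa using h0
      | succ m =>
        have := Nat.find_min h' (m := m) (by omega)
        exact this
    rw [Xfun, dif_pos h, Xfun, dif_pos h', hf]
    funext n
    cases n with
    | zero => simp [Function.update]
    | succ n =>
      simp only [cons_succ, Function.update_apply, tail_apply]
      by_cases hn : n = Nat.find h'
      · simp [hn]
      · have : n + 1 ≠ Nat.find h' + 1 := by omega
        simp [hn, this]
  · have h' : ¬ ∃ n, tail v n ≠ p (tail ω n) i := by
      rintro ⟨n, hn⟩; exact h ⟨n + 1, hn⟩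
    rw [Xfun, dif_neg h, Xfun, dif_neg h', cons_tail]

theorem Xfun_Xfun (i : Fin 3) : ∀ (ω : ℕ → Bool) (v : ℕ → Fin 6), Xfun ω i (Xfun ω i v) = v := by
  -- prove equality of the first `n` entries by induction on `n`
  have key : ∀ (n : ℕ) (ω : ℕ → Bool) (v : ℕ → Fin 6), Xfun ω i (Xfun ω i v) n = v n := by
    intro n
    induction n with
    | zero =>
      intro ω v
      by_cases h0 : v 0 = p (ω 0) i
      · rw [Xfun_of_eq ω i v h0, Xfun_of_eq ω i _ (by simpa using h0)]
        simp
      · rw [Xfun_of_ne ω i v h0, Xfun_of_ne ω i _ (by simpa [u_eq_p_iff] using h0)]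
        simp [u_u]
    | succ n ih =>
      intro ω v
      by_cases h0 : v 0 = p (ω 0) i
      · rw [Xfun_of_eq ω i v h0, Xfun_of_eq ω i _ (by simpa using h0)]
        simp only [cons_succ, tail_cons]
        rw [ih]
        rfl
      · rw [Xfun_of_ne ω i v h0, Xfun_of_ne ω i _ (by simpa [u_eq_p_iff] using h0)]
        simp [tail]
  exact fun ω v => funext fun n => key n ω v

/-- The generators of the limit group `H ω`. -/
noncomputable def X (ω : ℕ → Bool) (i : Fin 3) : Equiv.Perm (ℕ → Fin 6) where
  toFun := Xfun ω i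
  invFun := Xfun ω i
  left_inv := Xfun_Xfun i ω
  right_inv := Xfun_Xfun i ω

theorem X_mul_self (ω : ℕ → Bool) (i : Fin 3) : X ω i * X ω i = 1 :=
  Equiv.ext fun v => Xfun_Xfun i ω v

/-- The value of the word `w` in the limit group `H ω`. -/
noncomputable def ev (ω : ℕ → Bool) (w : List (Fin 3)) : Equiv.Perm (ℕ → Fin 6) := eval (X ω) w

@[simp] theorem ev_nil (ω : ℕ → Bool) : ev ω [] = 1 := rfl

@[simp] theorem ev_cons (ω : ℕ → Bool) (i : Fin 3) (w : List (Fin 3)) :
    ev ω (i :: w) = X ω i * ev ω w := by simp [ev]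

@[simp] theorem ev_append (ω : ℕ → Bool) (v w : List (Fin 3)) :
    ev ω (v ++ w) = ev ω v * ev ω w := by simp [ev]

/-- The recursion: action of a word on sequences. -/
theorem ev_apply (ω : ℕ → Bool) (w : List (Fin 3)) (v : ℕ → Fin 6) :
    ev ω w v = cons (act (ω 0) w (v 0)) (ev (tail ω) (sec (ω 0) w (v 0)) (tail v)) := by
  induction w with
  | nil => simp [act, sec]
  | cons i w ih =>
    rw [ev_cons, Equiv.Perm.mul_apply, ih]
    simp only [act, sec]
    by_cases h : act (ω 0) w (v 0) = p (ω 0) i
    · have := Xfun_of_eq ω i (cons (act (ω 0) w (v 0))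
        (ev (tail ω) (sec (ω 0) w (v 0)) (tail v))) (by simpa using h)
      change Xfun ω i _ = _
      rw [this, if_pos h, ev_cons, Equiv.Perm.mul_apply]
      simp only [cons_zero, tail_cons]
      rw [cons_inj]
      refine ⟨?_, rfl⟩
      rw [h, u_p]
    · have := Xfun_of_ne ω i (cons (act (ω 0) w (v 0))
        (ev (tail ω) (sec (ω 0) w (v 0)) (tail v))) (by simpa using h)
      change Xfun ω i _ = _
      rw [this, if_neg h]
      simp only [cons_zero, tail_cons]

theorem ev_eq_iff (ω : ℕ → Bool) (v w : List (Fin 3)) :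
    ev ω v = ev ω w ↔ (∀ j, act (ω 0) v j = act (ω 0) w j) ∧
      ∀ j, ev (tail ω) (sec (ω 0) v j) = ev (tail ω) (sec (ω 0) w j) := by
  constructor
  · intro h
    have h' : ∀ j z, act (ω 0) v j = act (ω 0) w j ∧
        ev (tail ω) (sec (ω 0) v j) z = ev (tail ω) (sec (ω 0) w j) z := by
      intro j z
      have : ev ω v (cons j z) = ev ω w (cons j z) := by rw [h]
      rw [ev_apply ω v (cons j z), ev_apply ω w (cons j z)] at this
      exact cons_inj.mp this
    exact ⟨fun j => (h' j (fun _ => 0)).1, fun j => Equiv.ext fun z => (h' j z).2⟩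
  · rintro ⟨h1, h2⟩
    refine Equiv.ext fun z => ?_
    rw [ev_apply ω v z, ev_apply ω w z, h1, h2]

theorem ev_eq_one_iff (ω : ℕ → Bool) (w : List (Fin 3)) :
    ev ω w = 1 ↔ (∀ j, act (ω 0) w j = j) ∧ ∀ j, ev (tail ω) (sec (ω 0) w j) = 1 := by
  have := ev_eq_iff ω w []
  simpa [act, sec] using this

end MP7daf
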