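import Pool.Agent.Lib.MP_7daf54_al.Ultra

set_option autoImplicit false

/-!
# The weak form of the question: domination instead of equivalence
-/

namespace MP7daf

theorem exists_dominating (f : ℕ → ℕ) (K : ℕ) (hK : ∀ n, f n ≤ K ^ n) :
    ∃ (H : Type) (_ : Group H) (k : ℕ) (T : Fin k → H), Generates T ∧ Preforms Gs H ∧
      NonPoly (growth T) ∧ (Subexp f → Subexp (growth T)) ∧
      ∃ C : ℕ, ∀ n, f n ≤ growth T (C * n) := by
  by_cases hf : Subexp f
  · obtain ⟨ω, hpre, hsub, hnp, N, hN⟩ := cofinal hf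
    refine ⟨Hgrp ω, inferInstance, 3, T ω, T_gen ω, hpre, hnp, fun _ => hsub, ?_⟩
    obtain ⟨n₀, hn₀⟩ := hnp (K ^ N + 1) 0
    rw [pow_zero, mul_one] at hn₀
    refine ⟨max n₀ 1, fun n => ?_⟩
    rcases Nat.eq_zero_or_pos n with rfl | hn
    · rw [Nat.mul_zero, growth_zero]
      simpa using hK 0
    · by_cases hnN : N ≤ n
      · exact le_trans (hN n hnN) (growth_mono _ (Nat.le_mul_of_pos_left n (by omega)))
      · have h1 : f n ≤ K ^ N + 1 := by
          refine le_trans (hK n) ?_
          rcases Nat.eq_zero_or_pos K with rfl | hKp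
          · rw [Nat.zero_pow hn]; exact Nat.zero_le _
          · exact le_trans (Nat.pow_le_pow_right hKp (by omega)) (Nat.le_succ _)
        refine le_trans (le_trans h1 hn₀.le) (growth_mono _ ?_)
        calc n₀ ≤ max n₀ 1 := le_max_left _ _
          _ ≤ max n₀ 1 * n := Nat.le_mul_of_pos_right _ hn
  · obtain ⟨H, hH, k, t, ht, hpre, hb⟩ := exists_exponential
    refine ⟨H, hH, k, t, ht, hpre, ?_, fun h => absurd h hf, 57 * 114 * (K + 1), fun n => ?_⟩
    · -- exponential growth is not polynomial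
      intro C d
      have hmono : ∀ n, n + 1 ≤ 2 ^ n := fun n => Nat.lt_two_pow_self
      -- use `2 ^ sqrt n ≤ 2 ^ (n / c)` for large `n`
      obtain ⟨n, hn, h⟩ := sqrt_nonpoly C d ((57 * 114) ^ 2 * 4)
      refine ⟨n, lt_of_lt_of_le h (le_trans ?_ (hb n))⟩
      apply Nat.pow_le_pow_right (by norm_num)
      rw [Nat.le_div_iff_mul_le (by norm_num)]
      have h1 : 57 * 114 ≤ Nat.sqrt n := by
        rw [Nat.le_sqrt']
        exact le_trans (by norm_num) hn
      calc Nat.sqrt n * (57 * 114) ≤ Nat.sqrt n * Nat.sqrt n := Nat.mul_le_mul_left _ h1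
        _ ≤ n := Nat.sqrt_le n
    · refine le_trans (hK n) (le_trans ?_ (hb _))
      have e : 57 * 114 * (K + 1) * n / (57 * 114) = (K + 1) * n := by
        rw [mul_assoc]
        exact Nat.mul_div_cancel_left _ (by norm_num)
      rw [e, pow_mul]
      apply Nat.pow_le_pow_left
      exact le_trans (Nat.le_succ K) (Nat.lt_two_pow_self).le

theorem Gs_fg : ∃ (k : ℕ) (x : Fin k → Gs), Generates x :=
  ⟨3, S (fun _ => true) 0, S_gen 0 _⟩

end MP7daf
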