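import Pool.Agent.Lib.MP_7daf54_al.Anti
import Pool.Agent.Lib.MP_7daf54_al.Main

set_option autoImplicit false

/-!
# Independence of the marking
-/

namespace MP7daf

/-- Domination. -/
def Dom (f g : ℕ → ℕ) : Prop := ∃ C : ℕ, ∀ n, f n ≤ g (C * n)

section

variable {G : Type} [Group G] {k l : ℕ}

theorem exists_word {T : Fin k → G} (hT : Generates T) (g : G) :
    ∃ w : List (Fin k × Bool), evalW T w = g := by
  have hg : g ∈ Subgroup.closure (Set.range T) := by rw [hT]; trivial
  induction hg using Subgroup.closure_induction with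
  | mem y hy =>
    obtain ⟨i, rfl⟩ := hy
    exact ⟨[(i, true)], by rw [evalW_cons, evalW_nil, mul_one]; rfl⟩
  | one => exact ⟨[], rfl⟩
  | mul y z _ _ ihy ihz =>
    obtain ⟨v, rfl⟩ := ihy
    obtain ⟨w, rfl⟩ := ihz
    exact ⟨v ++ w, evalW_append T v w⟩
  | inv y _ ihy =>
    obtain ⟨v, rfl⟩ := ihy
    exact ⟨winv v, evalW_winv T v⟩

theorem growth_dom (S : Fin l → G) {T : Fin k → G} (hT : Generates T) :
    Dom (growth S) (growth T) := by
  choose v hv using fun i => exists_word hT (S i)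
  let C : ℕ := ∑ i, (v i).length
  have hC : ∀ i, (v i).length ≤ C := fun i =>
    Finset.single_le_sum (f := fun i => (v i).length) (fun _ _ => Nat.zero_le _) (Finset.mem_univ i)
  have key : ∀ w : List (Fin l × Bool), ∃ w' : List (Fin k × Bool),
      w'.length ≤ C * w.length ∧ evalW T w' = evalW S w := by
    intro w
    induction w with
    | nil => exact ⟨[], Nat.zero_le _, rfl⟩
    | cons q w ih =>
      obtain ⟨w', h1, h2⟩ := ih
      rcases q with ⟨i, b⟩
      cases b with
      | true =>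
        refine ⟨v i ++ w', ?_, ?_⟩
        · rw [List.length_append, List.length_cons, Nat.mul_succ]
          have := hC i
          omega
        · rw [evalW_append, hv, h2, evalW_cons]; rfl
      | false =>
        refine ⟨winv (v i) ++ w', ?_, ?_⟩
        · rw [List.length_append, winv_length, List.length_cons, Nat.mul_succ]
          have := hC i
          omega
        · rw [evalW_append, evalW_winv, hv, h2, evalW_cons]; rfl
  refine ⟨C, fun n => Set.ncard_le_ncard ?_ (growth_finite T _)⟩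
  rintro g ⟨w, hw, rfl⟩
  obtain ⟨w', h1, h2⟩ := key w
  exact ⟨w', le_trans h1 (Nat.mul_le_mul_left _ hw), h2⟩

end

theorem Dom.trans {f g h : ℕ → ℕ} (h1 : Dom f g) (h2 : Dom g h) : Dom f h := by
  obtain ⟨C, hC⟩ := h1
  obtain ⟨D, hD⟩ := h2
  refine ⟨D * C, fun n => le_trans (hC n) ?_⟩
  have := hD (C * n)
  rwa [← mul_assoc] at this

theorem Subexp.of_dom {f g : ℕ → ℕ} (hg : Subexp g) (hmono : ∀ m n, m ≤ n → g m ≤ g n)
    (h : Dom f g) : Subexp f := by
  obtain ⟨C, hC⟩ := h
  intro ε hε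
  obtain ⟨N, hN⟩ := hg (ε / (C + 1)) (by positivity)
  refine ⟨N, fun n hn => ?_⟩
  have h1 : f n ≤ g ((C + 1) * n) := le_trans (hC n) (hmono _ _ (Nat.mul_le_mul_right _ (Nat.le_succ C)))
  have h2 := hN ((C + 1) * n) (le_trans hn (Nat.le_mul_of_pos_left _ (Nat.succ_pos C)))
  have h3 : ε / (C + 1) * (((C + 1) * n : ℕ) : ℝ) = ε * n := by
    push_cast
    field_simp
  rw [h3] at h2
  exact le_trans (by exact_mod_cast h1) h2

theorem NonPoly.of_dom {f g : ℕ → ℕ} (hf : NonPoly f) (h : Dom f g) : NonPoly g := by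
  obtain ⟨C, hC⟩ := h
  intro B d
  obtain ⟨n, hn⟩ := hf (B * (C + 1) ^ d) d
  refine ⟨C * n, lt_of_le_of_lt ?_ (lt_of_lt_of_le hn (hC n))⟩
  calc B * (C * n + 1) ^ d ≤ B * ((C + 1) * (n + 1)) ^ d :=
        Nat.mul_le_mul_left _ (Nat.pow_le_pow_left (by nlinarith) d)
    _ = B * (C + 1) ^ d * (n + 1) ^ d := by rw [mul_pow]; ring

/-- **Incomparable limits.** -/
theorem exists_incomparable {f : ℕ → ℕ} (hf : Subexp f) :
    ∃ (H : (ℕ → Bool) → Type) (_ : ∀ x, Group (H x)), (∀ x, Preforms Gs (H x)) ∧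
      (∀ x (k : ℕ) (T : Fin k → H x), Generates T → Subexp (growth T) ∧ NonPoly (growth T) ∧
        ∃ C N : ℕ, ∀ n, N ≤ n → f n ≤ growth T (C * n)) ∧
      ∀ x y, x ≠ y → ∀ (k l : ℕ) (T : Fin k → H x) (U : Fin l → H y), Generates T →
        Generates U → ¬ Dom (growth T) (growth U) := by
  obtain ⟨ω, h1, ⟨N, h2⟩, h3, h4⟩ := exists_family upper_prefix hf
  refine ⟨fun x => Hgrp (ω x), fun x => inferInstance, fun x => preforms _ (h1 x), ?_, ?_⟩
  · intro x k U hU
    have hd1 : Dom (growth (T (ω x))) (growth U) := growth_dom _ hU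
    have hd2 : Dom (growth U) (growth (T (ω x))) := growth_dom _ (T_gen (ω x))
    refine ⟨?_, ?_, ?_⟩
    · exact (subexp_of_rate (rate_zero _ (h1 x))).of_dom (fun m n h => growth_mono _ h) hd2
    · refine NonPoly.of_dom (fun C d => ?_) hd1
      obtain ⟨n, hn⟩ := h3 x C d
      exact ⟨n, by rw [growth_T]; exact hn⟩
    · obtain ⟨C, hC⟩ := hd1
      refine ⟨C, N, fun n hn => le_trans ?_ (hC n)⟩
      rw [growth_T]
      exact h2 x n hn
  · intro x y hxy k l U V hU hV hdom
    have h5 : Dom (growth (T (ω x))) (growth (T (ω y))) :=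
      ((growth_dom _ hU).trans hdom).trans (growth_dom _ (T_gen (ω y)))
    obtain ⟨C, hC⟩ := h5
    obtain ⟨n, hn⟩ := h4 x y hxy C
    have := hC n
    rw [growth_T, growth_T] at this
    omega

end MP7daf
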