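import Pool.Agent.Lib.MP_7daf54_al.Wr

set_option autoImplicit false

/-!
# The inflation of a generating triple of involutions of a perfect group generates the wreath product
-/

namespace MP7daf

section eval

variable {K : Type} [Group K] {x : Fin 3 → K}

theorem eval_reverse (hx : ∀ i, x i * x i = 1) (w : List (Fin 3)) :
    eval x w.reverse = (eval x w)⁻¹ := by
  induction w with
  | nil => simp
  | cons i w ih =>
    rw [List.reverse_cons, eval_append, ih, eval_cons x i w, mul_inv_rev]
    congr 1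
    simp only [eval_cons, eval_nil, mul_one]
    exact (inv_eq_of_mul_eq_one_right (hx i)).symm

theorem mem_closure_iff (hx : ∀ i, x i * x i = 1) (g : K) :
    g ∈ Subgroup.closure (Set.range x) ↔ ∃ w, eval x w = g := by
  constructor
  · intro hg
    induction hg using Subgroup.closure_induction with
    | mem y hy => obtain ⟨i, rfl⟩ := hy; exact ⟨[i], by simp⟩
    | one => exact ⟨[], rfl⟩
    | mul y z _ _ ihy ihz =>
      obtain ⟨v, rfl⟩ := ihy
      obtain ⟨w, rfl⟩ := ihz
      exact ⟨v ++ w, by simp⟩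
    | inv y _ ihy =>
      obtain ⟨v, rfl⟩ := ihy
      exact ⟨v.reverse, eval_reverse hx v⟩
  · rintro ⟨w, rfl⟩
    induction w with
    | nil => exact Subgroup.one_mem _
    | cons i w ih =>
      rw [eval_cons]
      exact Subgroup.mul_mem _ (Subgroup.subset_closure ⟨i, rfl⟩) ih

theorem eval_mem (w : List (Fin 3)) : eval x w ∈ Subgroup.closure (Set.range x) := by
  induction w with
  | nil => exact Subgroup.one_mem _
  | cons i w ih =>
    rw [eval_cons]
    exact Subgroup.mul_mem _ (Subgroup.subset_closure ⟨i, rfl⟩) ih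

theorem map_eval {L : Type} [Group L] (φ : K →* L) (w : List (Fin 3)) :
    φ (eval x w) = eval (fun i => φ (x i)) w := by
  induction w with
  | nil => simp
  | cons i w ih => simp [ih]

/-- In a perfect group generated by three involutions each of them normally generates. -/
theorem normalClosure_eq_top (hperf : commutator K = ⊤) (hx : ∀ i, x i * x i = 1)
    (hgen : Subgroup.closure (Set.range x) = ⊤) (N : Subgroup K) [N.Normal] (a b : K)
    (ha : a * a = 1) (hb : b * b = 1)
    (hab : ∀ i, x i ∈ N ∨ (x i)⁻¹ * a ∈ N ∨ (x i)⁻¹ * b ∈ N) : N = ⊤ := by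
  have hq : ∀ i, (QuotientGroup.mk (x i) : K ⧸ N) ∈
      Subgroup.closure {(QuotientGroup.mk a : K ⧸ N), QuotientGroup.mk b} := by
    intro i
    rcases hab i with h | h | h
    · rw [(QuotientGroup.eq_one_iff (x i)).mpr h]; exact Subgroup.one_mem _
    · rw [QuotientGroup.eq.mpr h]; exact Subgroup.subset_closure (by simp)
    · rw [QuotientGroup.eq.mpr h]; exact Subgroup.subset_closure (by simp)
  have hgen' : Subgroup.closure {(QuotientGroup.mk a : K ⧸ N), QuotientGroup.mk b} = ⊤ := by
    rw [eq_top_iff]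
    intro q _
    obtain ⟨g, rfl⟩ := QuotientGroup.mk_surjective q
    have hg : g ∈ Subgroup.closure (Set.range x) := by rw [hgen]; trivial
    obtain ⟨w, rfl⟩ := (mem_closure_iff hx g).mp hg
    change QuotientGroup.mk' N (eval x w) ∈ _
    rw [map_eval]
    clear hg
    induction w with
    | nil => exact Subgroup.one_mem _
    | cons i w ih =>
      rw [eval_cons]
      exact Subgroup.mul_mem _ (hq i) (ih trivial)
  have hperf' : commutator (K ⧸ N) = ⊤ := by
    have := Subgroup.map_commutator (⊤ : Subgroup K) ⊤ (QuotientGroup.mk' N)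
    rw [← commutator_def, hperf, Subgroup.map_top_of_surjective _
      (QuotientGroup.mk'_surjective N), ← commutator_def] at this
    exact this.symm
  have key := perfect_two_involutions hperf' (QuotientGroup.mk a : K ⧸ N) (QuotientGroup.mk b)
    (by rw [← QuotientGroup.mk_mul, ha]; rfl) (by rw [← QuotientGroup.mk_mul, hb]; rfl) hgen'
  rw [eq_top_iff]
  intro g _
  exact (QuotientGroup.eq_one_iff g).mp (key _)

end eval

/-- The permutation of a word. -/
def actP (b : Bool) (w : List (Fin 3)) : Equiv.Perm (Fin 6) := eval (u b) w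

@[simp] theorem actP_apply (b : Bool) (w : List (Fin 3)) (j : Fin 6) :
    actP b w j = act b w j := by
  induction w with
  | nil => rfl
  | cons i w ih =>
    have : actP b (i :: w) = u b i * actP b w := by simp [actP]
    rw [this, Equiv.Perm.mul_apply, ih]
    rfl

theorem eval_u_eq (b : Bool) (w : List (Fin 3)) (g : Equiv.Perm (Fin 6))
    (h : ∀ j, act b w j = g j) : eval (u b) w = g :=
  Equiv.ext fun j => by rw [← h j]; exact actP_apply b w j

/-- The inflation of a triple. -/
def infl {K : Type} [Group K] (b : Bool) (x : Fin 3 → K) (i : Fin 3) : Wr K :=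
  ⟨Pi.mulSingle (p b i) (x i), u b i⟩

section infl

variable {K : Type} [Group K] (b : Bool) (x : Fin 3 → K)

theorem infl_sq (hx : ∀ i, x i * x i = 1) (i : Fin 3) : infl b x i * infl b x i = 1 := by
  ext j
  · simp only [infl, Wr.mul_f, Wr.one_f]
    by_cases h : j = p b i
    · subst h
      rw [u_p]
      simp [hx]
    · have h' : u b i j ≠ p b i := fun h' => h ((u_eq_p_iff b i j).mp h')
      rw [Pi.mulSingle_eq_of_ne h, Pi.mulSingle_eq_of_ne h', mul_one]
  · simp [infl, u_u]

theorem eval_infl (w : List (Fin 3)) :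
    eval (infl b x) w = ⟨fun j => eval x (sec b w j), actP b w⟩ := by
  induction w with
  | nil => rfl
  | cons i w ih =>
    rw [eval_cons, ih]
    ext j
    · simp only [Wr.mul_f, infl, actP_apply, sec]
      by_cases h : act b w j = p b i
      · rw [if_pos h, h]; simp
      · rw [if_neg h, Pi.mulSingle_eq_of_ne h, one_mul]
    · simp [infl, act]

theorem eval_infl_eq_one_iff (w : List (Fin 3)) :
    eval (infl b x) w = 1 ↔ (∀ j, act b w j = j) ∧ ∀ j, eval x (sec b w j) = 1 := by
  rw [eval_infl]
  constructor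
  · intro h
    have h1 := congrArg Wr.f h
    have h2 := congrArg Wr.s h
    refine ⟨fun j => ?_, fun j => congrFun h1 j⟩
    have := Equiv.congr_fun h2 j
    simpa using this
  · rintro ⟨h1, h2⟩
    ext j
    · simp [h2]
    · simp [h1]

end infl

/-- The alternating group of degree 6, as the group generated by the three permutations. -/
def Alt : Subgroup (Equiv.Perm (Fin 6)) := Subgroup.closure (Set.range (u true))

theorem Alt_eq (b : Bool) : Subgroup.closure (Set.range (u b)) = Alt := by
  cases b with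
  | true => rfl
  | false =>
    apply le_antisymm
    · rw [Subgroup.closure_le]
      rintro _ ⟨i, rfl⟩
      change _ ∈ Subgroup.closure _
      rw [mem_closure_iff (u_mul_self true)]
      fin_cases i
      · exact ⟨[1, 2, 1], eval_u_eq _ _ _ (by decide +kernel)⟩
      · exact ⟨[0, 1, 0, 2, 1, 0, 1, 2, 0, 1, 0], eval_u_eq _ _ _ (by decide +kernel)⟩
      · exact ⟨[1, 0, 1, 2, 0, 1, 0, 2, 1, 0, 1], eval_u_eq _ _ _ (by decide +kernel)⟩
    · change Subgroup.closure _ ≤ _
      rw [Subgroup.closure_le]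
      rintro _ ⟨i, rfl⟩
      change _ ∈ Subgroup.closure _
      rw [mem_closure_iff (u_mul_self false)]
      fin_cases i
      · exact ⟨[0, 2, 1, 0, 2, 1, 2, 0, 1, 2, 0], eval_u_eq _ _ _ (by decide +kernel)⟩
      · exact ⟨[0, 1, 2, 0, 1, 2, 1, 0, 2, 0, 1, 0], eval_u_eq _ _ _ (by decide +kernel)⟩
      · exact ⟨[1, 2, 0, 1, 2, 1, 0, 2, 0, 1], eval_u_eq _ _ _ (by decide +kernel)⟩

theorem mem_Alt_iff (b : Bool) (g : Equiv.Perm (Fin 6)) : g ∈ Alt ↔ ∃ w, actP b w = g := by
  rw [← Alt_eq b, mem_closure_iff (u_mul_self b)]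
  rfl

theorem u_mem (b : Bool) (i : Fin 3) : u b i ∈ Alt := by
  rw [← Alt_eq b]; exact Subgroup.subset_closure ⟨i, rfl⟩

/-- The wreath product with the alternating group. -/
def WrA (K : Type) [Group K] : Subgroup (Wr K) := Alt.comap Wr.proj

theorem mem_WrA {K : Type} [Group K] (a : Wr K) : a ∈ WrA K ↔ a.s ∈ Alt := Iff.rfl

/-- The first base point. -/
def s0 : Bool → Fin 6
  | true => 3
  | false => 0

/-- The second base point. -/
def t0 : Bool → Fin 6
  | true => 0
  | false => 4

/-- Words moving the pair of base points to every pair. -/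
def tr : Bool → List (List (Fin 3))
  | true => [[], [1, 2, 0, 1, 2], [1, 0], [0, 1, 0, 1, 0], [1, 0, 1, 2], [1, 0, 2, 1],
      [2, 0, 1, 2], [], [0], [0, 2, 1], [0, 1, 2], [0, 1, 0, 1], [0, 1, 0], [1, 0, 1, 0], [],
      [1, 0, 1, 0, 2, 1], [2, 0, 1, 0], [0, 1, 0, 2, 1], [], [2, 1], [1, 0, 1, 2, 1], [], [1, 2],
      [1, 0, 1], [0, 2, 1, 0], [1, 0, 2, 1, 0], [2, 1, 0], [2, 1, 0, 2, 1], [],
      [2, 0, 1, 0, 1, 0], [1, 2, 1], [1], [0, 1, 2, 1], [0, 1], [2], []]
  | false => [[], [0], [1], [2, 1, 2], [], [2, 1, 2, 1], [2, 0], [], [1, 2], [2, 1], [2],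
      [1, 2, 1], [1, 0, 2, 0], [1, 0, 2], [], [1, 0, 2, 1], [0, 1, 0, 2], [0, 1, 0, 2, 1],
      [2, 1, 0, 2], [2, 1, 0, 2, 0], [2, 1, 0, 2, 1], [], [2, 0, 1, 0, 2], [2, 0, 1, 0, 2, 1],
      [0, 2, 0], [0, 2], [0, 1, 2], [0, 1, 2, 1], [], [0, 2, 1], [0, 2, 1, 0, 2],
      [1, 2, 1, 0, 2, 0], [0, 2, 1, 0, 2, 1], [0, 2, 0, 1, 0, 2, 1], [0, 2, 1, 0, 2, 0], []]

theorem tr_spec (b : Bool) (s t : Fin 6) (h : s ≠ t) :
    act b ((tr b).getD (6 * s.val + t.val) []) (s0 b) = s ∧
      act b ((tr b).getD (6 * s.val + t.val) []) (t0 b) = t := by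
  revert b s t
  decide

/-- Words fixing the second base point whose section there is one letter. -/
def lift : Bool → Fin 3 → List (Fin 3)
  | true, 0 => [1, 0, 1, 0, 1, 0, 1]
  | true, 1 => [2, 1, 2]
  | true, 2 => [0, 2, 0]
  | false, 0 => [0, 2, 0, 2, 0]
  | false, 1 => [0, 2, 1, 2, 0]
  | false, 2 => [2]

theorem lift_spec (b : Bool) (i : Fin 3) :
    act b (lift b i) (t0 b) = t0 b ∧ sec b (lift b i) (t0 b) = [i] := by
  revert b i
  decide

/-- A word acting trivially on the points. -/
def kw : Bool → List (Fin 3)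
  | true => [1, 2, 1, 2, 1, 2]
  | false => [1, 2, 1, 2, 1, 2, 1, 2]

theorem kw_spec (b : Bool) : (∀ j, act b (kw b) j = j) ∧
    (sec b (kw b) (s0 b) = [] ∨ sec b (kw b) (s0 b) = [1, 1]) ∧
      ∃ i, sec b (kw b) (t0 b) = [i] := by
  revert b
  decide

/-- **The inflation lemma**: the inflation of a generating triple of involutions of a perfect group
generates the wreath product. -/
theorem closure_infl {K : Type} [Group K] (b : Bool) (x : Fin 3 → K) (hperf : commutator K = ⊤)
    (hx : ∀ i, x i * x i = 1) (hgen : Subgroup.closure (Set.range x) = ⊤) :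
    Subgroup.closure (Set.range (infl b x)) = WrA K := by
  apply le_antisymm
  · rw [Subgroup.closure_le]
    rintro _ ⟨i, rfl⟩
    exact u_mem b i
  have hI := infl_sq b x hx
  have hbase := Wr.gen (Subgroup.closure (Set.range (infl b x))) hperf (s0 b) (t0 b) ?_ ?_ ?_
  · intro a ha
    obtain ⟨w, hw⟩ := (mem_Alt_iff b a.s).mp ha
    have h1 : (a * (eval (infl b x) w)⁻¹).s = 1 := by
      rw [Wr.mul_s, Wr.inv_s, eval_infl, ← hw, mul_inv_cancel]
    have h2 : a * (eval (infl b x) w)⁻¹ ∈ Subgroup.closure (Set.range (infl b x)) := by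
      have := hbase (a * (eval (infl b x) w)⁻¹).f
      rw [← h1] at this
      exact this
    have h3 := Subgroup.mul_mem _ h2 (eval_mem (x := infl b x) w)
    rwa [inv_mul_cancel_right] at h3
  · intro s t hst
    have := tr_spec b s t hst
    refine ⟨_, eval_mem (x := infl b x) ((tr b).getD (6 * s.val + t.val) []), ?_, ?_⟩
    · rw [eval_infl]; simpa using this.1
    · rw [eval_infl]; simpa using this.2
  · intro k
    have hk : k ∈ Subgroup.closure (Set.range x) := by rw [hgen]; trivial
    obtain ⟨w, rfl⟩ := (mem_closure_iff hx k).mp hk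
    clear hk
    induction w with
    | nil => exact ⟨1, Subgroup.one_mem _, rfl, rfl⟩
    | cons i w ih =>
      obtain ⟨h, hh, h1, h2⟩ := ih
      obtain ⟨g1, g2⟩ := lift_spec b i
      refine ⟨eval (infl b x) (lift b i) * h, Subgroup.mul_mem _ (eval_mem _) hh, ?_, ?_⟩
      · rw [Wr.mul_s, Equiv.Perm.mul_apply, h1, eval_infl]
        simpa using g1
      · rw [Wr.mul_f, h1, h2, eval_infl]
        simp [g2]
  · obtain ⟨k1, k2, i, k3⟩ := kw_spec b
    refine ⟨eval (infl b x) (kw b), eval_mem _, ?_, ?_, ?_⟩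
    · rw [eval_infl]
      refine Equiv.ext fun j => ?_
      simpa using k1 j
    · rw [eval_infl]
      rcases k2 with h | h
      · simp [h]
      · simp [h, hx]
    · rw [eval_infl]
      simp only [k3, eval_cons, eval_nil, mul_one]
      have hN : x i ∈ Subgroup.normalClosure {x i} :=
        Subgroup.subset_normalClosure (Set.mem_singleton _)
      refine normalClosure_eq_top hperf hx hgen _ (x (i + 1)) (x (i + 2)) (hx _) (hx _) fun l => ?_
      have hl : l = i ∨ l = i + 1 ∨ l = i + 2 := by
        clear k3 hN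
        revert i l; decide
      rcases hl with rfl | rfl | rfl
      · exact Or.inl hN
      · right; left; rw [inv_mul_cancel]; exact Subgroup.one_mem _
      · right; right; rw [inv_mul_cancel]; exact Subgroup.one_mem _

end MP7daf
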