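import Pool.Agent.Lib.MP_7daf54_al.Seg2

set_option autoImplicit false

/-!
# The initial marking of the perfect self-similar group by three involutions
-/

namespace MP7daf

open scoped commutatorElement

/-! ### The alternating group as an abstract group -/

/-- The three involutions in the alternating group. -/
def uA (i : Fin 3) : Alt := ⟨u true i, u_mem true i⟩

theorem uA_sq (i : Fin 3) : uA i * uA i = 1 := Subtype.ext (u_mul_self true i)

theorem Alt_perfect : commutator Alt = ⊤ := by
  have h := Subgroup.map_subtype_commutator Alt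
  apply Subgroup.map_injective Alt.subtype_injective
  rw [h, ← MonoidHom.range_eq_map, Subgroup.range_subtype]
  refine le_antisymm (Subgroup.commutator_le.mpr fun g hg h hh => ?_) Alt_le
  rw [commutatorElement_def]
  exact Subgroup.mul_mem _ (Subgroup.mul_mem _ (Subgroup.mul_mem _ hg hh) (Subgroup.inv_mem _ hg))
    (Subgroup.inv_mem _ hh)

theorem uA_gen : Subgroup.closure (Set.range uA) = ⊤ := by
  rw [eq_top_iff]
  rintro ⟨a, ha⟩ -
  obtain ⟨w, hw⟩ := (mem_Alt_iff true a).mp ha
  have : (⟨a, ha⟩ : Alt) = eval uA w := by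
    apply Subtype.ext
    change a = Alt.subtype (eval uA w)
    rw [map_eval, ← hw]
    rfl
  rw [this]
  exact eval_mem w

/-! ### Normal generation -/

theorem normal_gen (N : Subgroup (Equiv.Perm Sq)) (hN : ∀ g ∈ Gs, ∀ n ∈ N, g * n * g⁻¹ ∈ N)
    (h : rt (u true 2) * rt (u true 1) ∈ N) : Gs ≤ N := by
  -- the rooted permutations
  have hroot : ∀ a ∈ Alt, rt a ∈ N := by
    let M : Subgroup Alt := (N.comap rt).comap Alt.subtype
    have hM : M.Normal := by
      refine ⟨fun n hn g => ?_⟩
      change rt (g.1 * n.1 * g.1⁻¹) ∈ N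
      rw [map_mul, map_mul, map_inv]
      exact hN _ (rt_mem g.2) _ hn
    have hmem : uA 2 * uA 1 ∈ M := by
      change rt (u true 2 * u true 1) ∈ N
      rw [map_mul]
      exact h
    have hMtop : M = ⊤ := by
      refine normalClosure_eq_top Alt_perfect uA_sq uA_gen M (uA 0) (uA 1) (uA_sq 0) (uA_sq 1) ?_
      intro i
      fin_cases i
      · right; left
        change (uA 0)⁻¹ * uA 0 ∈ M
        rw [inv_mul_cancel]; exact Subgroup.one_mem _
      · right; right
        change (uA 1)⁻¹ * uA 1 ∈ M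
        rw [inv_mul_cancel]; exact Subgroup.one_mem _
      · right; right
        change (uA 2)⁻¹ * uA 1 ∈ M
        rw [inv_eq_of_mul_eq_one_right (uA_sq 2)]
        exact hmem
    intro a ha
    have : (⟨a, ha⟩ : Alt) ∈ M := by rw [hMtop]; trivial
    exact this
  -- one coordinate
  have hat : ∀ t, Gs ≤ N.comap (atHom t) := by
    intro t
    refine le_trans Gs_perfect' ?_
    rw [Subgroup.commutator_le]
    intro k hk k' hk'
    change atHom t ⁅k, k'⁆ ∈ N
    obtain ⟨s, hs⟩ : ∃ s, s ≠ t := exists_ne t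
    obtain ⟨c, hc, hct⟩ := exists_move t s
    have h1 : atHom t k * (atHom s k)⁻¹ ∈ N := by
      have h2 : atHom t k * rt c * (atHom t k)⁻¹ * (rt c)⁻¹ ∈ N :=
        N.mul_mem (hN _ (at_mem t hk) _ (hroot c hc)) (N.inv_mem (hroot c hc))
      have h3 := rt_conj_at c t k
      rw [hct] at h3
      have e : atHom t k * rt c * (atHom t k)⁻¹ * (rt c)⁻¹ =
          atHom t k * (rt c * atHom t k * (rt c)⁻¹)⁻¹ := by group
      rw [e, h3] at h2
      exact h2
    have h2 : ⁅atHom t k * (atHom s k)⁻¹, atHom t k'⁆ ∈ N := by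
      have h3 := hN _ (at_mem t hk' : atHom t k' ∈ Gs) _ (N.inv_mem h1)
      have h4 := N.mul_mem h1 h3
      rw [commutatorElement_def]
      have e : atHom t k * (atHom s k)⁻¹ * (atHom t k' * (atHom t k * (atHom s k)⁻¹)⁻¹ *
          (atHom t k')⁻¹) = atHom t k * (atHom s k)⁻¹ * atHom t k' *
          (atHom t k * (atHom s k)⁻¹)⁻¹ * (atHom t k')⁻¹ := by
        simp only [mul_assoc]
      rw [e] at h4
      exact h4
    have e : ⁅atHom t k * (atHom s k)⁻¹, atHom t k'⁆ = atHom t ⁅k, k'⁆ := by
      have e1 : atHom t k * (atHom s k)⁻¹ =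
          Phi ⟨fun j => (Pi.mulSingle t k : Fin 6 → Equiv.Perm Sq) j *
            ((Pi.mulSingle s k : Fin 6 → Equiv.Perm Sq) j)⁻¹, 1⟩ := by
        rw [atHom_apply, atHom_apply, ← map_inv, ← map_mul]
        congr 1
      rw [e1, atHom_apply, Phi_comm, atHom_apply]
      congr 2
      funext j
      by_cases hj : j = t
      · subst hj
        rw [Pi.mulSingle_eq_same, Pi.mulSingle_eq_same, Pi.mulSingle_eq_same,
          Pi.mulSingle_eq_of_ne (Ne.symm hs), inv_one, mul_one]
      · rw [Pi.mulSingle_eq_of_ne hj, Pi.mulSingle_eq_of_ne hj, Pi.mulSingle_eq_of_ne hj,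
          commutatorElement_one_right]
    rw [← e]
    exact h2
  refine Gs_le N hroot fun a ha => ?_
  rw [dir_eq]
  exact Phi_base_mem' N (fun t g hg => hat t hg) _ (dirf_mem ha)

/-! ### The initial marking -/

/-- The position of the directed part. -/
def dp : Fin 3 → Fin 6
  | 0 => 5
  | 1 => 2
  | 2 => 2

/-- The position of the rooted part. -/
def rp : Fin 3 → Fin 6
  | 0 => 4
  | 1 => 4
  | 2 => 1

/-- The directed element. -/
def dG (i : Fin 3) : Gs := ⟨dir (u true i), dir_mem (u_mem true i)⟩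

/-- The rooted element. -/
def rG (i : Fin 3) : Gs := ⟨rt (u true i), rt_mem (u_mem true i)⟩

theorem dG_sq (i : Fin 3) : dG i * dG i = 1 := by
  apply Subtype.ext
  change dir (u true i) * dir (u true i) = 1
  rw [← map_mul, u_mul_self, map_one]

theorem rG_sq (i : Fin 3) : rG i * rG i = 1 := by
  apply Subtype.ext
  change rt (u true i) * rt (u true i) = 1
  rw [← map_mul, u_mul_self, map_one]

/-- The initial marking, in the wreath product. -/
def S0w (i : Fin 3) : Wr Gs :=
  ⟨fun j => if j = dp i then dG i else if j = rp i then rG i else 1, u true i⟩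

theorem dp_spec (i : Fin 3) (j : Fin 6) : u true i j = dp i ↔ j = dp i := by
  revert i j; decide

theorem rp_spec (i : Fin 3) (j : Fin 6) : u true i j = rp i ↔ j = rp i := by
  revert i j; decide

theorem S0w_sq (i : Fin 3) : S0w i * S0w i = 1 := by
  apply Wr.ext
  · funext j
    simp only [S0w, Wr.mul_f, Wr.one_f, dp_spec, rp_spec]
    split_ifs
    · exact dG_sq i
    · exact rG_sq i
    · exact one_mul 1
  · exact u_mul_self true i

/-- The sections of a word of the initial marking. -/
def sec0 : List (Fin 3) → Fin 6 → List (Bool × Fin 3)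
  | [], _ => []
  | i :: w, j =>
    if act true w j = dp i then (true, i) :: sec0 w j
    else if act true w j = rp i then (false, i) :: sec0 w j else sec0 w j

/-- The value of a word in the directed and rooted elements. -/
def evG (l : List (Bool × Fin 3)) : Gs := (l.map fun q => if q.1 then dG q.2 else rG q.2).prod

theorem eval_S0w (w : List (Fin 3)) :
    eval S0w w = ⟨fun j => evG (sec0 w j), actP true w⟩ := by
  induction w with
  | nil => rfl
  | cons i w ih =>
    rw [eval_cons, ih]
    apply Wr.ext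
    · funext j
      simp only [Wr.mul_f, S0w, actP_apply, sec0]
      split_ifs
      · simp [evG]
      · simp [evG]
      · rw [one_mul]
    · refine Equiv.ext fun j => ?_
      simp [S0w, act]

/-- The subgroup of the elements which lift. -/
theorem S0w_lift (k : Gs) : ∃ h ∈ Subgroup.closure (Set.range S0w), h.s 0 = 0 ∧ h.f 0 = k := by
  let L : Subgroup Gs :=
    { carrier := {k | ∃ h ∈ Subgroup.closure (Set.range S0w), h.s 0 = 0 ∧ h.f 0 = k}
      mul_mem' := by
        rintro a b ⟨h, hh, h1, h2⟩ ⟨g, hg, g1, g2⟩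
        refine ⟨h * g, Subgroup.mul_mem _ hh hg, ?_, ?_⟩
        · rw [Wr.mul_s, Equiv.Perm.mul_apply, g1, h1]
        · rw [Wr.mul_f, g1, h2, g2]
      one_mem' := ⟨1, Subgroup.one_mem _, rfl, rfl⟩
      inv_mem' := by
        rintro a ⟨h, hh, h1, h2⟩
        have h3 : h.s⁻¹ 0 = 0 := by rw [Equiv.Perm.inv_eq_iff_eq, h1]
        refine ⟨h⁻¹, Subgroup.inv_mem _ hh, ?_, ?_⟩
        · rw [Wr.inv_s, h3]
        · rw [Wr.inv_f, h3, h2] }
  have hword : ∀ (w : List (Fin 3)) (q : Bool × Fin 3), act true w 0 = 0 → sec0 w 0 = [q] →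
      evG [q] ∈ L := by
    intro w q h1 h2
    refine ⟨eval S0w w, eval_mem w, ?_, ?_⟩
    · rw [eval_S0w]
      exact (actP_apply true w 0).trans h1
    · rw [eval_S0w]
      exact congrArg evG h2
  have hd : ∀ i, dG i ∈ L := by
    intro i
    have e : dG i = evG [(true, i)] := by simp [evG]
    rw [e]
    fin_cases i
    · exact hword [1, 0, 1, 0, 1, 0, 1] _ (by decide +kernel) (by decide +kernel)
    · exact hword [0, 1, 0] _ (by decide +kernel) (by decide +kernel)
    · exact hword [0, 2, 0] _ (by decide +kernel) (by decide +kernel)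
  have hr : ∀ i, rG i ∈ L := by
    intro i
    have e : rG i = evG [(false, i)] := by simp [evG]
    rw [e]
    fin_cases i
    · exact hword [2, 0, 2] _ (by decide +kernel) (by decide +kernel)
    · exact hword [2, 1, 2] _ (by decide +kernel) (by decide +kernel)
    · exact hword [1, 2, 1] _ (by decide +kernel) (by decide +kernel)
  have key : Gs ≤ L.map Gs.subtype := by
    refine Gs_le _ ?_ ?_
    · change Alt ≤ (L.map Gs.subtype).comap rt
      change Subgroup.closure _ ≤ _
      rw [Subgroup.closure_le]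
      rintro _ ⟨i, rfl⟩
      exact ⟨rG i, hr i, rfl⟩
    · change Alt ≤ (L.map Gs.subtype).comap dir
      change Subgroup.closure _ ≤ _
      rw [Subgroup.closure_le]
      rintro _ ⟨i, rfl⟩
      exact ⟨dG i, hd i, rfl⟩
  obtain ⟨k', hk', he⟩ := key k.2
  have : k' = k := Subtype.ext he
  rw [← this]
  exact hk'

theorem closure_S0w : Subgroup.closure (Set.range S0w) = WrA Gs := by
  apply le_antisymm
  · rw [Subgroup.closure_le]
    rintro _ ⟨i, rfl⟩
    exact u_mem true i
  have hbase := Wr.gen (Subgroup.closure (Set.range S0w)) Gs_perfect 3 0 ?_ S0w_lift ?_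
  · intro a ha
    obtain ⟨w, hw⟩ := (mem_Alt_iff true a.s).mp ha
    have h1 : (a * (eval S0w w)⁻¹).s = 1 := by
      rw [Wr.mul_s, Wr.inv_s, eval_S0w, ← hw, mul_inv_cancel]
    have h2 : a * (eval S0w w)⁻¹ ∈ Subgroup.closure (Set.range S0w) := by
      have := hbase (a * (eval S0w w)⁻¹).f
      rw [← h1] at this
      exact this
    have h3 := Subgroup.mul_mem _ h2 (eval_mem (x := S0w) w)
    rwa [inv_mul_cancel_right] at h3
  · intro s t hst
    have := tr_spec true s t hst
    refine ⟨_, eval_mem (x := S0w) ((tr true).getD (6 * s.val + t.val) []), ?_, ?_⟩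
    · rw [eval_S0w]; exact (actP_apply true _ _).trans this.1
    · rw [eval_S0w]; exact (actP_apply true _ _).trans this.2
  · have e3 : sec0 [1, 2, 1, 2, 1, 2] 3 = [] := by decide +kernel
    have e0 : sec0 [1, 2, 1, 2, 1, 2] 0 = [(false, 2), (false, 1)] := by decide +kernel
    have ea : ∀ j, act true [1, 2, 1, 2, 1, 2] j = j := by decide +kernel
    refine ⟨eval S0w [1, 2, 1, 2, 1, 2], eval_mem _, ?_, ?_, ?_⟩
    · rw [eval_S0w]
      exact Equiv.ext fun j => (actP_apply true _ j).trans (ea j)
    · rw [eval_S0w]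
      change evG (sec0 _ 3) = 1
      rw [e3]; rfl
    · rw [eval_S0w]
      change Subgroup.normalClosure {evG (sec0 _ 0)} = ⊤
      rw [e0]
      have e : evG [(false, 2), (false, 1)] = rG 2 * rG 1 := by simp [evG]
      rw [e]
      set N := Subgroup.normalClosure {rG 2 * rG 1} with hNdef
      have hmem : rG 2 * rG 1 ∈ N := Subgroup.subset_normalClosure (Set.mem_singleton _)
      have key : Gs ≤ N.map Gs.subtype := by
        refine normal_gen _ ?_ ⟨rG 2 * rG 1, hmem, rfl⟩
        rintro g hg _ ⟨n, hn, rfl⟩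
        exact ⟨⟨g, hg⟩ * n * ⟨g, hg⟩⁻¹, Subgroup.normalClosure_normal.conj_mem n hn _, rfl⟩
      rw [eq_top_iff]
      intro k _
      obtain ⟨k', hk', he⟩ := key k.2
      have : k' = k := Subtype.ext he
      rw [← this]
      exact hk'

/-! ### The markings -/

theorem infl_mem (b : Bool) (x : Fin 3 → Gs) (i : Fin 3) : infl b x i ∈ WrA Gs := u_mem b i

/-- The markings of the group converging to the limit group. -/
noncomputable def S : (ℕ → Bool) → ℕ → Fin 3 → Gs
  | _, 0 => fun i => E ⟨S0w i, u_mem true i⟩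
  | ω, n + 1 => fun i => E ⟨infl (ω 0) (S (tail ω) n) i, infl_mem _ _ _⟩

theorem S_sq (n : ℕ) : ∀ (ω : ℕ → Bool) (i : Fin 3), S ω n i * S ω n i = 1 := by
  induction n with
  | zero =>
    intro ω i
    rw [S, ← map_mul, ← map_one E]
    exact congrArg E (Subtype.ext (S0w_sq i))
  | succ n ih =>
    intro ω i
    rw [S, ← map_mul, ← map_one E]
    exact congrArg E (Subtype.ext (infl_sq _ _ (ih (tail ω)) i))

theorem S_gen (n : ℕ) : ∀ ω : ℕ → Bool, Subgroup.closure (Set.range (S ω n)) = ⊤ := by
  induction n with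
  | zero => intro ω; exact closure_E S0w (fun i => u_mem true i) closure_S0w
  | succ n ih =>
    intro ω
    exact closure_E _ (infl_mem _ _) (closure_infl _ _ Gs_perfect (S_sq n _) (ih _))

theorem eval_E (y : Fin 3 → Wr Gs) (hy : ∀ i, y i ∈ WrA Gs) (w : List (Fin 3)) :
    eval (fun i => E ⟨y i, hy i⟩) w = 1 ↔ eval y w = 1 := by
  have h1 : eval (fun i => E ⟨y i, hy i⟩) w = E (eval (fun i => (⟨y i, hy i⟩ : WrA Gs)) w) :=
    (map_eval E w).symm
  have h2 : (WrA Gs).subtype (eval (fun i => (⟨y i, hy i⟩ : WrA Gs)) w) = eval y w :=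
    map_eval (WrA Gs).subtype w
  rw [h1, ← h2]
  constructor
  · intro h
    have : eval (fun i => (⟨y i, hy i⟩ : WrA Gs)) w = 1 :=
      E_injective (h.trans (map_one E).symm)
    rw [this, map_one]
  · intro h
    have : eval (fun i => (⟨y i, hy i⟩ : WrA Gs)) w = 1 := Subtype.ext h
    rw [this, map_one]

/-- The recursion for the markings. -/
theorem eval_S_succ (ω : ℕ → Bool) (n : ℕ) (w : List (Fin 3)) :
    eval (S ω (n + 1)) w = 1 ↔ (∀ j, act (ω 0) w j = j) ∧
      ∀ j, eval (S (tail ω) n) (sec (ω 0) w j) = 1 := by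
  have h := eval_E (infl (ω 0) (S (tail ω) n)) (infl_mem _ _) w
  rw [eval_infl_eq_one_iff] at h
  exact h

theorem S_ne_one (ω : ℕ → Bool) (n : ℕ) (i : Fin 3) : S ω n i ≠ 1 := by
  have key : ∀ (y : Fin 3 → Wr Gs) (hy : ∀ i, y i ∈ WrA Gs) (b : Bool), (y i).s = u b i →
      E ⟨y i, hy i⟩ ≠ 1 := by
    intro y hy b h1 h2
    have h3 : (⟨y i, hy i⟩ : WrA Gs) = 1 := E_injective (h2.trans (map_one E).symm)
    have h4 : y i = 1 := congrArg Subtype.val h3
    obtain ⟨j, hj⟩ := u_ne_one b i
    apply hj
    rw [← h1, h4]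
    rfl
  cases n with
  | zero => exact key S0w (fun i => u_mem true i) true rfl
  | succ n => exact key _ (infl_mem _ _) (ω 0) rfl

end MP7daf
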