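import Pool.Agent.Lib.MP_7daf54_al.Infl

set_option autoImplicit false

/-!
# The perfect self-similar group
-/

namespace MP7daf

/-- Infinite sequences of points. -/
abbrev Sq : Type := ℕ → Fin 6

/-- The action of the wreath product on sequences. -/
def Phi : Wr (Equiv.Perm Sq) →* Equiv.Perm Sq where
  toFun a :=
    { toFun := fun v => cons (a.s (v 0)) (a.f (v 0) (tail v))
      invFun := fun v => cons (a.s⁻¹ (v 0)) ((a.f (a.s⁻¹ (v 0)))⁻¹ (tail v))
      left_inv := fun v => by simp
      right_inv := fun v => by simp }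
  map_one' := by
    refine Equiv.ext fun v => ?_
    change cons (v 0) (tail v) = v
    exact cons_tail v
  map_mul' a b := by
    refine Equiv.ext fun v => ?_
    simp only [Equiv.Perm.mul_apply, Equiv.coe_fn_mk, cons_zero, tail_cons, Wr.mul_s, Wr.mul_f]

@[simp] theorem Phi_apply (a : Wr (Equiv.Perm Sq)) (v : Sq) :
    Phi a v = cons (a.s (v 0)) (a.f (v 0) (tail v)) := rfl

theorem Phi_injective : Function.Injective Phi := by
  intro a b h
  have h' : ∀ j z, a.s j = b.s j ∧ a.f j z = b.f j z := by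
    intro j z
    have := Equiv.congr_fun h (cons j z)
    rw [Phi_apply, Phi_apply] at this
    simpa using cons_inj.mp this
  apply Wr.ext
  · funext j
    exact Equiv.ext fun z => (h' j z).2
  · exact Equiv.ext fun j => (h' j (fun _ => 0)).1

/-- The rooted permutation. -/
def rt : Equiv.Perm (Fin 6) →* Equiv.Perm Sq where
  toFun a := Phi ⟨fun _ => 1, a⟩
  map_one' := map_one Phi
  map_mul' a b := by
    rw [← map_mul]
    congr 1

theorem rt_def (a : Equiv.Perm (Fin 6)) : rt a = Phi ⟨fun _ => 1, a⟩ := rfl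

theorem rt_apply (a : Equiv.Perm (Fin 6)) (v : Sq) : rt a v = cons (a (v 0)) (tail v) := rfl

/-- The directed permutation, as a function. -/
def dirFun (a : Equiv.Perm (Fin 6)) (v : Sq) : Sq
  | 0 => v 0
  | m + 1 => if v m = 1 ∧ ∀ k < m, v k = 0 then a (v (m + 1)) else v (m + 1)

theorem dirFun_zero (a : Equiv.Perm (Fin 6)) (v : Sq) (h : v 0 = 0) :
    dirFun a v = cons 0 (dirFun a (tail v)) := by
  funext n
  cases n with
  | zero => simp [dirFun, h]
  | succ m =>
    cases m with
    | zero => simp [dirFun, h, tail]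
    | succ m =>
      simp only [dirFun, cons_succ, tail]
      have : (v (m + 1) = 1 ∧ ∀ k < m + 1, v k = 0) ↔ (v (m + 1) = 1 ∧ ∀ k < m, v (k + 1) = 0) := by
        constructor
        · rintro ⟨h1, h2⟩; exact ⟨h1, fun k hk => h2 _ (by omega)⟩
        · rintro ⟨h1, h2⟩
          refine ⟨h1, fun k hk => ?_⟩
          cases k with
          | zero => exact h
          | succ k => exact h2 k (by omega)
      simp only [this]

theorem dirFun_one (a : Equiv.Perm (Fin 6)) (v : Sq) (h : v 0 = 1) :
    dirFun a v = cons 1 (rt a (tail v)) := by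
  funext n
  cases n with
  | zero => simp [dirFun, h]
  | succ m =>
    cases m with
    | zero => simp [dirFun, h, tail, rt_apply]
    | succ m =>
      simp only [dirFun, cons_succ, rt_apply, tail]
      rw [if_neg]
      rintro ⟨-, h2⟩
      have := h2 0 (by omega)
      rw [h] at this
      exact absurd this (by decide)

theorem dirFun_other (a : Equiv.Perm (Fin 6)) (v : Sq) (h0 : v 0 ≠ 0) (h1 : v 0 ≠ 1) :
    dirFun a v = v := by
  funext n
  cases n with
  | zero => simp [dirFun]
  | succ m =>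
    cases m with
    | zero => simp [dirFun, h1]
    | succ m =>
      simp only [dirFun]
      rw [if_neg]
      rintro ⟨-, h2⟩
      exact h0 (h2 0 (by omega))

theorem dirFun_mul (a b : Equiv.Perm (Fin 6)) (v : Sq) :
    dirFun (a * b) v = dirFun a (dirFun b v) := by
  have key : ∀ (n : ℕ) (v : Sq), dirFun (a * b) v n = dirFun a (dirFun b v) n := by
    intro n
    induction n with
    | zero => intro v; rfl
    | succ n ih =>
      intro v
      by_cases h0 : v 0 = 0
      · rw [dirFun_zero _ v h0, dirFun_zero b v h0, dirFun_zero a _ (by simp)]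
        simp only [cons_succ, tail_cons]
        exact ih _
      · by_cases h1 : v 0 = 1
        · rw [dirFun_one _ v h1, dirFun_one b v h1, dirFun_one a _ (by simp)]
          simp only [cons_succ, tail_cons, map_mul, Equiv.Perm.mul_apply]
        · rw [dirFun_other _ v h0 h1, dirFun_other b v h0 h1, dirFun_other a v h0 h1]
  exact funext fun n => key n v

theorem dirFun_id (v : Sq) : dirFun 1 v = v := by
  funext n
  cases n with
  | zero => rfl
  | succ m => simp [dirFun]

/-- The directed permutation. -/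
def dir : Equiv.Perm (Fin 6) →* Equiv.Perm Sq where
  toFun a :=
    { toFun := dirFun a
      invFun := dirFun a⁻¹
      left_inv := fun v => by rw [← dirFun_mul, inv_mul_cancel, dirFun_id]
      right_inv := fun v => by rw [← dirFun_mul, mul_inv_cancel, dirFun_id] }
  map_one' := Equiv.ext dirFun_id
  map_mul' a b := Equiv.ext (dirFun_mul a b)

theorem dir_apply (a : Equiv.Perm (Fin 6)) (v : Sq) : dir a v = dirFun a v := rfl

/-- The sections of the directed permutation. -/
def dirf (a : Equiv.Perm (Fin 6)) (j : Fin 6) : Equiv.Perm Sq :=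
  if j = 0 then dir a else if j = 1 then rt a else 1

theorem dir_eq (a : Equiv.Perm (Fin 6)) : dir a = Phi ⟨dirf a, 1⟩ := by
  refine Equiv.ext fun v => ?_
  rw [dir_apply, Phi_apply]
  simp only [Equiv.Perm.one_apply]
  by_cases h0 : v 0 = 0
  · rw [dirFun_zero a v h0, dirf, if_pos h0, h0]; rfl
  · by_cases h1 : v 0 = 1
    · rw [dirFun_one a v h1, dirf, if_neg h0, if_pos h1, h1]
    · rw [dirFun_other a v h0 h1, dirf, if_neg h0, if_neg h1]; simp

/-! ### Perfectness -/

theorem eval_u_mem (w : List (Fin 3)) : eval (u true) w ∈ Alt := eval_mem w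

theorem Alt_le : Alt ≤ ⁅Alt, Alt⁆ := by
  have key : ∀ (g : Equiv.Perm (Fin 6)) (v w : List (Fin 3)),
      (∀ j, act true (v ++ w ++ v.reverse ++ w.reverse) j = g j) → g ∈ ⁅Alt, Alt⁆ := by
    intro g v w h
    have h1 := eval_u_eq true _ g h
    rw [eval_append, eval_append, eval_append, eval_reverse (u_mul_self true),
      eval_reverse (u_mul_self true)] at h1
    rw [← h1, ← commutatorElement_def]
    exact Subgroup.commutator_mem_commutator (eval_u_mem v) (eval_u_mem w)
  change Subgroup.closure _ ≤ _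
  rw [Subgroup.closure_le]
  rintro _ ⟨i, rfl⟩
  fin_cases i
  · exact key _ [2, 1, 0, 1] [2, 0, 1, 2, 0] (by decide +kernel)
  · exact key _ [2, 0, 1, 0] [2, 1, 0, 2, 1] (by decide +kernel)
  · exact key _ [1, 0] [1, 2, 0, 1, 0, 1, 2] (by decide +kernel)

/-- The group. -/
def Gs : Subgroup (Equiv.Perm Sq) := Alt.map rt ⊔ Alt.map dir

theorem rt_mem {a : Equiv.Perm (Fin 6)} (ha : a ∈ Alt) : rt a ∈ Gs :=
  (le_sup_left : Alt.map rt ≤ Gs) ⟨a, ha, rfl⟩

theorem dir_mem {a : Equiv.Perm (Fin 6)} (ha : a ∈ Alt) : dir a ∈ Gs :=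
  (le_sup_right : Alt.map dir ≤ Gs) ⟨a, ha, rfl⟩

theorem Gs_le (H : Subgroup (Equiv.Perm Sq)) (h1 : ∀ a ∈ Alt, rt a ∈ H)
    (h2 : ∀ a ∈ Alt, dir a ∈ H) : Gs ≤ H := by
  refine sup_le ?_ ?_
  · rw [Subgroup.map_le_iff_le_comap]; exact h1
  · rw [Subgroup.map_le_iff_le_comap]; exact h2

theorem Gs_perfect' : Gs ≤ ⁅Gs, Gs⁆ := by
  refine Gs_le _ (fun a ha => ?_) (fun a ha => ?_)
  · have h1 : rt a ∈ (⁅Alt, Alt⁆).map rt := ⟨a, Alt_le ha, rfl⟩
    rw [Subgroup.map_commutator] at h1
    exact Subgroup.commutator_mono (le_sup_left : Alt.map rt ≤ Gs) le_sup_left h1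
  · have h1 : dir a ∈ (⁅Alt, Alt⁆).map dir := ⟨a, Alt_le ha, rfl⟩
    rw [Subgroup.map_commutator] at h1
    exact Subgroup.commutator_mono (le_sup_right : Alt.map dir ≤ Gs) le_sup_right h1

theorem Gs_perfect : commutator Gs = ⊤ := by
  have h := Subgroup.map_subtype_commutator Gs
  apply Subgroup.map_injective Gs.subtype_injective
  rw [h, ← MonoidHom.range_eq_map, Subgroup.range_subtype]
  refine le_antisymm (Subgroup.commutator_le.mpr fun g hg h hh => ?_) Gs_perfect'
  rw [commutatorElement_def]
  exact Subgroup.mul_mem _ (Subgroup.mul_mem _ (Subgroup.mul_mem _ hg hh) (Subgroup.inv_mem _ hg))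
    (Subgroup.inv_mem _ hh)

end MP7daf
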