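import Pool.Agent.Lib.MP_7daf54_al.Seg

set_option autoImplicit false

/-!
# The perfect self-similar group is isomorphic to its wreath product with the alternating group
-/

namespace MP7daf

open scoped commutatorElement

/-- The permutation acting as `g` on the sequences starting with `t`. -/
def at' (t : Fin 6) (g : Equiv.Perm Sq) : Equiv.Perm Sq := Phi ⟨Pi.mulSingle t g, 1⟩

/-- `at' t` as a homomorphism. -/
def atHom (t : Fin 6) : Equiv.Perm Sq →* Equiv.Perm Sq where
  toFun := at' t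
  map_one' := by
    have : (⟨Pi.mulSingle t 1, 1⟩ : Wr (Equiv.Perm Sq)) = 1 := by
      ext j
      · simp
      · rfl
    rw [at', this, map_one]
  map_mul' a b := by
    have : (⟨Pi.mulSingle t (a * b), 1⟩ : Wr (Equiv.Perm Sq)) =
        ⟨Pi.mulSingle t a, 1⟩ * ⟨Pi.mulSingle t b, 1⟩ := by
      apply Wr.ext
      · funext j
        by_cases h : j = t
        · subst h; simp
        · simp [Pi.mulSingle_eq_of_ne h]
      · simp
    rw [at', this, map_mul]; rfl

theorem atHom_apply (t : Fin 6) (g : Equiv.Perm Sq) :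
    atHom t g = Phi ⟨Pi.mulSingle t g, 1⟩ := rfl

theorem rt_conj_Phi (c : Equiv.Perm (Fin 6)) (f : Fin 6 → Equiv.Perm Sq) :
    rt c * Phi ⟨f, 1⟩ * (rt c)⁻¹ = Phi ⟨fun j => f (c⁻¹ j), 1⟩ := by
  rw [rt_def, ← map_inv, ← map_mul, ← map_mul]
  congr 1
  apply Wr.ext
  · funext j; simp
  · simp

theorem rt_conj_at (c : Equiv.Perm (Fin 6)) (t : Fin 6) (g : Equiv.Perm Sq) :
    rt c * atHom t g * (rt c)⁻¹ = atHom (c t) g := by
  rw [atHom_apply, rt_conj_Phi, atHom_apply]
  congr 2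
  funext j
  by_cases h : j = c t
  · subst h; simp
  · have h' : c⁻¹ j ≠ t := by
      intro h'; apply h; rw [← h']; simp
    rw [Pi.mulSingle_eq_of_ne h, Pi.mulSingle_eq_of_ne h']

theorem exists_move (s t : Fin 6) : ∃ c ∈ Alt, c s = t := by
  by_cases h : s = t
  · exact ⟨1, Subgroup.one_mem _, h⟩
  · -- move (s0, t0) to (s, t) and to (t, s)
    have h1 := tr_spec true s t h
    have h2 := tr_spec true t s (Ne.symm h)
    refine ⟨eval (u true) ((tr true).getD (6 * t.val + s.val) []) *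
      (eval (u true) ((tr true).getD (6 * s.val + t.val) []))⁻¹,
      Subgroup.mul_mem _ (eval_u_mem _) (Subgroup.inv_mem _ (eval_u_mem _)), ?_⟩
    have h3 : (eval (u true) ((tr true).getD (6 * s.val + t.val) []))⁻¹ s = s0 true := by
      rw [Equiv.Perm.inv_eq_iff_eq]
      exact (h1.1.symm.trans (actP_apply true _ _).symm)
    rw [Equiv.Perm.mul_apply, h3]
    exact (actP_apply true _ _).trans h2.1

theorem Phi_comm (f g : Fin 6 → Equiv.Perm Sq) :
    ⁅Phi ⟨f, 1⟩, Phi ⟨g, 1⟩⁆ = Phi ⟨fun j => ⁅f j, g j⁆, 1⟩ := by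
  rw [commutatorElement_def, ← map_inv, ← map_inv, ← map_mul, ← map_mul, ← map_mul]
  congr 1

theorem comm_mem {a b : Equiv.Perm Sq} (ha : a ∈ Gs) (hb : b ∈ Gs) : ⁅a, b⁆ ∈ Gs := by
  rw [commutatorElement_def]
  exact Subgroup.mul_mem _ (Subgroup.mul_mem _ (Subgroup.mul_mem _ ha hb) (Subgroup.inv_mem _ ha))
    (Subgroup.inv_mem _ hb)

/-- Two commuting conjugates of directed elements. -/
theorem at_dir_comm (a b : Equiv.Perm (Fin 6)) (ha : a ∈ Alt) (hb : b ∈ Alt) :
    atHom 0 (dir ⁅a, b⁆) ∈ Gs := by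
  have hc : ∃ c ∈ Alt, c⁻¹ 0 = 0 ∧ c⁻¹ 1 ≠ 0 ∧ c⁻¹ 1 ≠ 1 := by
    refine ⟨eval (u true) [2, 0, 1, 2], eval_u_mem _, ?_, ?_, ?_⟩
    · rw [Equiv.Perm.inv_eq_iff_eq]
      exact (by decide +kernel : (0 : Fin 6) = act true [2, 0, 1, 2] 0).trans
        (actP_apply true _ _).symm
    · rw [Ne, Equiv.Perm.inv_eq_iff_eq]
      intro h
      have h2 : (1 : Fin 6) = act true [2, 0, 1, 2] 0 := h.trans (actP_apply true _ _)
      exact absurd h2 (by decide +kernel)
    · rw [Ne, Equiv.Perm.inv_eq_iff_eq]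
      intro h
      have h2 : (1 : Fin 6) = act true [2, 0, 1, 2] 1 := h.trans (actP_apply true _ _)
      exact absurd h2 (by decide +kernel)
  obtain ⟨c, hc, c0, c1, c2⟩ := hc
  have h1 : ⁅dir a, rt c * dir b * (rt c)⁻¹⁆ ∈ Gs :=
    comm_mem (dir_mem ha) (Subgroup.mul_mem _ (Subgroup.mul_mem _ (rt_mem hc) (dir_mem hb))
      (Subgroup.inv_mem _ (rt_mem hc)))
  have h2 : ⁅dir a, rt c * dir b * (rt c)⁻¹⁆ = atHom 0 (dir ⁅a, b⁆) := by
    rw [dir_eq b, rt_conj_Phi, dir_eq a, Phi_comm, atHom_apply]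
    congr 2
    funext j
    by_cases h0 : j = 0
    · subst h0
      rw [c0, Pi.mulSingle_eq_same, map_commutatorElement]
      rfl
    · rw [Pi.mulSingle_eq_of_ne h0]
      by_cases h1 : j = 1
      · subst h1
        have : dirf b (c⁻¹ 1) = 1 := by rw [dirf, if_neg c1, if_neg c2]
        rw [this, commutatorElement_one_right]
      · have : dirf a j = 1 := by rw [dirf, if_neg h0, if_neg h1]
        rw [this, commutatorElement_one_left]
  rwa [h2] at h1

theorem at_rt_comm (a b : Equiv.Perm (Fin 6)) (ha : a ∈ Alt) (hb : b ∈ Alt) :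
    atHom 1 (rt ⁅a, b⁆) ∈ Gs := by
  have hc : ∃ c ∈ Alt, c⁻¹ 1 = 1 ∧ c⁻¹ 0 ≠ 0 ∧ c⁻¹ 0 ≠ 1 := by
    refine ⟨eval (u true) [0, 2, 1, 0, 2], eval_u_mem _, ?_, ?_, ?_⟩
    · rw [Equiv.Perm.inv_eq_iff_eq]
      exact (by decide +kernel : (1 : Fin 6) = act true [0, 2, 1, 0, 2] 1).trans
        (actP_apply true _ _).symm
    · rw [Ne, Equiv.Perm.inv_eq_iff_eq]
      intro h
      have h2 : (0 : Fin 6) = act true [0, 2, 1, 0, 2] 0 := h.trans (actP_apply true _ _)
      exact absurd h2 (by decide +kernel)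
    · rw [Ne, Equiv.Perm.inv_eq_iff_eq]
      intro h
      have h2 : (0 : Fin 6) = act true [0, 2, 1, 0, 2] 1 := h.trans (actP_apply true _ _)
      exact absurd h2 (by decide +kernel)
  obtain ⟨c, hc, c0, c1, c2⟩ := hc
  have h1 : ⁅dir a, rt c * dir b * (rt c)⁻¹⁆ ∈ Gs :=
    comm_mem (dir_mem ha) (Subgroup.mul_mem _ (Subgroup.mul_mem _ (rt_mem hc) (dir_mem hb))
      (Subgroup.inv_mem _ (rt_mem hc)))
  have h2 : ⁅dir a, rt c * dir b * (rt c)⁻¹⁆ = atHom 1 (rt ⁅a, b⁆) := by
    rw [dir_eq b, rt_conj_Phi, dir_eq a, Phi_comm, atHom_apply]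
    congr 2
    funext j
    by_cases h1 : j = 1
    · subst h1
      rw [c0, Pi.mulSingle_eq_same, map_commutatorElement]
      rfl
    · rw [Pi.mulSingle_eq_of_ne h1]
      by_cases h0 : j = 0
      · subst h0
        have : dirf b (c⁻¹ 0) = 1 := by rw [dirf, if_neg c1, if_neg c2]
        rw [this, commutatorElement_one_right]
      · have : dirf a j = 1 := by rw [dirf, if_neg h0, if_neg h1]
        rw [this, commutatorElement_one_left]
  rwa [h2] at h1

theorem at_mem_of_at {s : Fin 6} {g : Equiv.Perm Sq} (h : atHom s g ∈ Gs) (t : Fin 6) :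
    atHom t g ∈ Gs := by
  obtain ⟨c, hc, rfl⟩ := exists_move s t
  rw [← rt_conj_at]
  exact Subgroup.mul_mem _ (Subgroup.mul_mem _ (rt_mem hc) h) (Subgroup.inv_mem _ (rt_mem hc))

theorem at_mem (t : Fin 6) : Gs ≤ Gs.comap (atHom t) := by
  refine Gs_le _ (fun a ha => ?_) (fun a ha => ?_)
  · have h : ⁅Alt, Alt⁆ ≤ (Gs.comap (atHom t)).comap rt := by
      rw [Subgroup.commutator_le]
      intro a ha b hb
      exact at_mem_of_at (at_rt_comm a b ha hb) t
    exact h (Alt_le ha)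
  · have h : ⁅Alt, Alt⁆ ≤ (Gs.comap (atHom t)).comap dir := by
      rw [Subgroup.commutator_le]
      intro a ha b hb
      exact at_mem_of_at (at_dir_comm a b ha hb) t
    exact h (Alt_le ha)

theorem Phi_base_mem' (N : Subgroup (Equiv.Perm Sq)) (hN : ∀ t, ∀ g ∈ Gs, atHom t g ∈ N)
    (f : Fin 6 → Equiv.Perm Sq) (hf : ∀ j, f j ∈ Gs) : Phi ⟨f, 1⟩ ∈ N := by
  let B : Subgroup (Fin 6 → Equiv.Perm Sq) :=
    { carrier := {g | Phi ⟨g, 1⟩ ∈ N}
      mul_mem' := by
        intro a b ha hb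
        have := Subgroup.mul_mem N ha hb
        rw [← map_mul] at this
        have e : (⟨a, 1⟩ : Wr (Equiv.Perm Sq)) * ⟨b, 1⟩ = ⟨a * b, 1⟩ := by
          apply Wr.ext
          · funext j; simp
          · simp
        rw [e] at this
        exact this
      one_mem' := by
        have : Phi ⟨1, 1⟩ = 1 := map_one Phi
        change Phi ⟨1, 1⟩ ∈ N
        rw [this]; exact Subgroup.one_mem _
      inv_mem' := by
        intro a ha
        have := Subgroup.inv_mem N ha
        rw [← map_inv] at this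
        have e : (⟨a, 1⟩ : Wr (Equiv.Perm Sq))⁻¹ = ⟨a⁻¹, 1⟩ := by
          apply Wr.ext
          · funext j; simp
          · simp
        rw [e] at this
        exact this }
  change f ∈ B
  exact Subgroup.pi_mem_of_mulSingle_mem f fun t => hN t _ (hf t)

theorem Phi_base_mem (f : Fin 6 → Equiv.Perm Sq) (hf : ∀ j, f j ∈ Gs) : Phi ⟨f, 1⟩ ∈ Gs :=
  Phi_base_mem' Gs (fun t _ hg => at_mem t hg) f hf

/-- The wreath product of the group maps into the wreath product of the permutation group. -/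
def up : Wr Gs →* Wr (Equiv.Perm Sq) where
  toFun a := ⟨fun j => (a.f j : Equiv.Perm Sq), a.s⟩
  map_one' := rfl
  map_mul' _ _ := rfl

theorem up_injective : Function.Injective up := by
  intro a b h
  apply Wr.ext
  · funext j
    exact Subtype.ext (congrFun (congrArg Wr.f h) j)
  · exact congrArg (fun c : Wr (Equiv.Perm Sq) => c.s) h

theorem Phi_up_mem (a : Wr Gs) (ha : a.s ∈ Alt) : Phi (up a) ∈ Gs := by
  have e : up a = (⟨fun _ => 1, a.s⟩ : Wr (Equiv.Perm Sq)) * ⟨fun j => (a.f j : Equiv.Perm Sq), 1⟩ := by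
    apply Wr.ext
    · funext j; simp [up]
    · simp [up]
  rw [e, map_mul]
  exact Subgroup.mul_mem _ (rt_mem ha) (Phi_base_mem _ fun j => (a.f j).2)

/-- The homomorphism from the wreath product to the group. -/
def E : WrA Gs →* Gs := ((Phi.comp up).comp (WrA Gs).subtype).codRestrict Gs
  fun a => Phi_up_mem a.1 a.2

theorem E_coe (a : WrA Gs) : (E a : Equiv.Perm Sq) = Phi (up a.1) := rfl

theorem E_injective : Function.Injective E := by
  intro a b h
  have h1 : Phi (up a.1) = Phi (up b.1) := congrArg Subtype.val h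
  exact Subtype.ext (up_injective (Phi_injective h1))

theorem dirf_mem {a : Equiv.Perm (Fin 6)} (ha : a ∈ Alt) (j : Fin 6) : dirf a j ∈ Gs := by
  unfold dirf
  split_ifs
  · exact dir_mem ha
  · exact rt_mem ha
  · exact Subgroup.one_mem _

theorem E_surjective : Function.Surjective E := by
  have key : Gs ≤ E.range.map Gs.subtype := by
    refine Gs_le _ (fun a ha => ?_) (fun a ha => ?_)
    · refine ⟨E ⟨⟨fun _ => 1, a⟩, ha⟩, ⟨_, rfl⟩, ?_⟩
      rfl
    · refine ⟨E ⟨⟨fun j => ⟨dirf a j, dirf_mem ha j⟩, 1⟩, Subgroup.one_mem Alt⟩, ⟨_, rfl⟩, ?_⟩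
      exact (dir_eq a).symm
  intro g
  obtain ⟨h, ⟨a, ha⟩, hg⟩ := key g.2
  exact ⟨a, by rw [ha]; exact Subtype.ext hg⟩

/-- Generation transported through the isomorphism. -/
theorem closure_E (y : Fin 3 → Wr Gs) (hy : ∀ i, y i ∈ WrA Gs)
    (h : Subgroup.closure (Set.range y) = WrA Gs) :
    Subgroup.closure (Set.range fun i => E ⟨y i, hy i⟩) = ⊤ := by
  rw [eq_top_iff]
  intro g _
  obtain ⟨a, rfl⟩ := E_surjective g
  have key : ∀ b : Wr Gs, b ∈ Subgroup.closure (Set.range y) → ∀ hb : b ∈ WrA Gs,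
      E ⟨b, hb⟩ ∈ Subgroup.closure (Set.range fun i => E ⟨y i, hy i⟩) := by
    intro b hb
    induction hb using Subgroup.closure_induction with
    | mem b hb =>
      obtain ⟨i, rfl⟩ := hb
      intro _
      exact Subgroup.subset_closure ⟨i, rfl⟩
    | one =>
      intro hb
      have : (⟨1, hb⟩ : WrA Gs) = 1 := rfl
      rw [this, map_one]; exact Subgroup.one_mem _
    | mul b c hb hc ihb ihc =>
      intro _
      rw [h] at hb hc
      have := Subgroup.mul_mem _ (ihb hb) (ihc hc)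
      rw [← map_mul] at this
      exact this
    | inv b hb ihb =>
      intro _
      rw [h] at hb
      have := Subgroup.inv_mem _ (ihb hb)
      rw [← map_inv] at this
      exact this
  exact key a.1 (by rw [h]; exact a.2) a.2

end MP7daf
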