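import Pool.Agent.Lib.MP_7daf54_al.Defs

set_option autoImplicit false

/-!
# Balls and special words
-/

namespace MP7daf

open Classical

/-- The finite set of the words of length at most `n`. -/
noncomputable def words (n : ℕ) : Finset (List (Fin 3)) :=
  (List.finite_length_le (Fin 3) n).toFinset

@[simp] theorem mem_words {n : ℕ} {w : List (Fin 3)} : w ∈ words n ↔ w.length ≤ n := by
  simp [words]

/-- The ball of radius `n` of the limit group `H ω`. -/
noncomputable def ball (ω : ℕ → Bool) (n : ℕ) : Finset (Equiv.Perm (ℕ → Fin 6)) :=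
  (words n).image (ev ω)

/-- The special word `x₂ (x₁ x₀)^(1 + 3 k)`. -/
def unit (k : Fin 10) : List (Fin 3) := 2 :: (List.replicate (1 + 3 * k.val) [1, 0]).flatten

/-- The product of special words. -/
def units (ks : List (Fin 10)) : List (Fin 3) := ks.flatMap unit

/-- The finite set of the lists of length `r` of elements of `Fin 10`. -/
noncomputable def klists (r : ℕ) : Finset (List (Fin 10)) :=
  (List.finite_length_eq (Fin 10) r).toFinset

@[simp] theorem mem_klists {r : ℕ} {l : List (Fin 10)} : l ∈ klists r ↔ l.length = r := by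
  simp [klists]

/-- The elements of `H ω` which are values of products of `r` special words. -/
noncomputable def fset (ω : ℕ → Bool) (r : ℕ) : Finset (Equiv.Perm (ℕ → Fin 6)) :=
  (klists r).image fun l => ev ω (units l)

/-- The upper bound: `H ω` has growth rate at most `a`. -/
def RateLE (ω : ℕ → Bool) (a : ℝ) : Prop :=
  ∀ ε : ℝ, a < ε → ∃ C : ℝ, 0 < C ∧ ∀ n : ℕ, ((ball ω n).card : ℝ) ≤ C * Real.exp (ε * n)

/-- The lower bound: at least `2 ^ r` elements are products of `c r` special words, for `r ≤ R`. -/
def Fast (ω : ℕ → Bool) (c R : ℕ) : Prop := ∀ r ≤ R, 2 ^ r ≤ (fset ω (c * r)).card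

end MP7daf
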