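import Pool.Agent.Lib.MP_7daf54_al.Pre

set_option autoImplicit false

/-!
# One stage of the construction of incomparable limits
-/

namespace MP7daf

open Classical

/-- The upper bound after a prefix with at least `l` letters `true`, uniform in the tail. -/
def UpperPrefix : Prop := ∀ (σ : List Bool) (ε : ℝ), (11 / 13 : ℝ) ^ σ.count true * Real.log 7 < ε →
  ∃ C : ℝ, 0 < C ∧ ∀ (τ : ℕ → Bool) (n : ℕ), ((ball (app σ τ) n).card : ℝ) ≤ C * Real.exp (ε * n)

/-- The block of a stage. -/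
def blk (a l m : ℕ) (b : Bool) : List Bool :=
  List.replicate a false ++ [true] ++ (if b then List.replicate m false else []) ++
    List.replicate l true

theorem blk_count (a l m : ℕ) (b : Bool) : (blk a l m b).count true = 1 + l := by
  unfold blk
  simp only [List.count_append, List.count_replicate]
  cases b <;> simp [List.count_replicate]

theorem blk_true (a l m : ℕ) (hl : 1 ≤ l) : ∃ ρ : List Bool,
    blk a l m true = List.replicate a false ++ [true] ++ List.replicate m false ++ [true] ++ ρ := by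
  obtain ⟨l', rfl⟩ : ∃ l', l = l' + 1 := ⟨l - 1, by omega⟩
  refine ⟨List.replicate l' true, ?_⟩
  unfold blk
  rw [if_pos rfl, List.replicate_succ]
  simp

/-- Polynomials are small compared with powers of four. -/
theorem exists_large (B : ℝ) (c j : ℕ) :
    ∃ t : ℕ, B < 2 ^ t ∧ j * (2 * c * t + 1) ^ j < 2 ^ (2 * t) := by
  have h1 : Filter.Tendsto (fun k : ℕ => ((k : ℝ) ^ (j + 1)) / 2 ^ k) Filter.atTop (nhds 0) :=
    tendsto_pow_const_div_const_pow_of_one_lt (j + 1) (by norm_num : (1 : ℝ) < 2)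
  have h2 : ∀ᶠ k : ℕ in Filter.atTop, ((k : ℝ) ^ (j + 1)) / 2 ^ k < 1 :=
    h1.eventually (gt_mem_nhds (by norm_num))
  have h3 : ∀ᶠ k : ℕ in Filter.atTop, B < 2 ^ k :=
    (tendsto_pow_atTop_atTop_of_one_lt (by norm_num : (1 : ℝ) < 2)).eventually_gt_atTop B
  have h4 : ∀ᶠ k : ℕ in Filter.atTop, j * (2 * c + 1) ^ j + 1 ≤ k := Filter.eventually_ge_atTop _
  obtain ⟨t, ht2, ht3, ht4⟩ := (h2.and (h3.and h4)).exists
  refine ⟨t, ht3, ?_⟩
  rw [div_lt_one (by positivity)] at ht2
  have h5 : t ^ (j + 1) < 2 ^ t := by exact_mod_cast ht2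
  have ht1 : 1 ≤ t := by omega
  calc j * (2 * c * t + 1) ^ j ≤ j * ((2 * c + 1) * t) ^ j :=
        Nat.mul_le_mul_left _ (Nat.pow_le_pow_left (by nlinarith) j)
    _ = j * (2 * c + 1) ^ j * t ^ j := by rw [mul_pow]; ring
    _ ≤ t * t ^ j := Nat.mul_le_mul_right _ (by omega)
    _ = t ^ (j + 1) := by rw [pow_succ]; ring
    _ < 2 ^ t := h5
    _ ≤ 2 ^ (2 * t) := Nat.pow_le_pow_right (by norm_num) (by omega)

/-- The number of trailing letters `true` of a stage. -/
theorem exists_l (L j : ℕ) : ∃ l : ℕ, 1 ≤ l ∧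
    (11 / 13 : ℝ) ^ l * Real.log 7 < Real.log 2 / (2 * (57 * 114 ^ (L + 2) : ℕ) * (j + 1)) := by
  have hl : (0 : ℝ) < Real.log 2 := Real.log_pos (by norm_num)
  have hl7 : (0 : ℝ) < Real.log 7 := Real.log_pos (by norm_num)
  have h1 : Filter.Tendsto (fun k : ℕ => (11 / 13 : ℝ) ^ k) Filter.atTop (nhds 0) :=
    tendsto_pow_atTop_nhds_zero_of_lt_one (by norm_num) (by norm_num)
  have hpos : (0 : ℝ) < Real.log 2 / (2 * (57 * 114 ^ (L + 2) : ℕ) * (j + 1)) / Real.log 7 := by
    positivity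
  obtain ⟨l, h2, h3⟩ := ((h1.eventually (gt_mem_nhds hpos)).and
    (Filter.eventually_ge_atTop 1)).exists
  exact ⟨l, h3, (lt_div_iff₀ hl7).mp h2⟩

/-- **One stage.** -/
theorem stage (hU : UpperPrefix) (L j l : ℕ) (hl1 : 1 ≤ l)
    (hl : (11 / 13 : ℝ) ^ l * Real.log 7 < Real.log 2 / (2 * (57 * 114 ^ (L + 2) : ℕ) * (j + 1)))
    (F : Finset (List Bool)) (hF : ∀ σ ∈ F, σ.count true ≤ L) (a : ℕ) :
    ∃ m n : ℕ, ∀ σ ∈ F, ∀ τ : ℕ → Bool,
      j * (n + 1) ^ j < (ball (app (σ ++ blk a l m true) τ) n).card ∧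
      ∀ σ' ∈ F, ∀ τ' : ℕ → Bool, (ball (app (σ' ++ blk a l m false) τ') ((j + 1) * n)).card <
        (ball (app (σ ++ blk a l m true) τ) n).card := by
  set c : ℕ := 57 * 114 ^ (L + 2) with hc
  have hcpos : 0 < c := Nat.mul_pos (by norm_num) (Nat.pow_pos (by norm_num))
  set ε : ℝ := Real.log 2 / (2 * (c : ℕ) * (j + 1)) with hε
  have hcR : (0 : ℝ) < c := by exact_mod_cast hcpos
  have hj1 : (0 : ℝ) < (j : ℝ) + 1 := by positivity
  -- the upper constants
  have hl2 : (0 : ℝ) < Real.log 7 := Real.log_pos (by norm_num)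
  have hup : ∀ σ : List Bool, ∃ C : ℝ, 0 < C ∧ ∀ (τ : ℕ → Bool) (n : ℕ),
      ((ball (app (σ ++ blk a l 0 false) τ) n).card : ℝ) ≤ C * Real.exp (ε * n) := by
    intro σ
    apply hU
    refine lt_of_le_of_lt ?_ hl
    apply mul_le_mul_of_nonneg_right _ hl2.le
    apply pow_le_pow_of_le_one (by norm_num) (by norm_num)
    rw [List.count_append, blk_count]
    omega
  choose C hC hCb using hup
  obtain ⟨t, ht1, ht2⟩ := exists_large (∑ σ ∈ F, C σ) c j
  set n := 2 * c * t with hn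
  refine ⟨n, n, fun σ hσ τ => ?_⟩
  -- lower bound
  have hlow : 2 ^ (2 * t) ≤ (ball (app (σ ++ blk a l n true) τ) n).card := by
    obtain ⟨ρ, hρ⟩ := blk_true a l n hl1
    have h1 := ball_prefix (σ ++ (List.replicate a false ++ [true])) (L + 1) n ?_ (app ρ τ) n
      (Nat.lt_pow_self (by norm_num)).le
    · rw [← app_append] at h1
      have e : σ ++ (List.replicate a false ++ [true]) ++ List.replicate n false ++ [true] ++ ρ =
          σ ++ blk a l n true := by
        rw [hρ]; simp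
      rw [e] at h1
      have h2 : n / (57 * 114 ^ (L + 1 + 1)) = 2 * t := by
        rw [hn]
        have : 57 * 114 ^ (L + 1 + 1) = c := rfl
        rw [this, show 2 * c * t = 2 * t * c by ring]
        exact Nat.mul_div_cancel _ hcpos
      rw [h2] at h1
      exact h1
    · rw [List.count_append, List.count_append, List.count_replicate]
      have := hF σ hσ
      simp
      omega
  refine ⟨lt_of_lt_of_le ht2 hlow, fun σ' hσ' τ' => lt_of_lt_of_le ?_ hlow⟩
  have e : blk a l n false = blk a l 0 false := rfl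
  rw [e]
  have h1 := hCb σ' τ' ((j + 1) * n)
  have h2 : C σ' ≤ ∑ σ ∈ F, C σ := Finset.single_le_sum (fun s _ => (hC s).le) hσ'
  have h3 : Real.exp (ε * ((j + 1) * n : ℕ)) = 2 ^ t := by
    have e1 : ε * ((j + 1) * n : ℕ) = t * Real.log 2 := by
      rw [hε, hn]
      push_cast
      field_simp
    rw [e1, ← Real.log_pow, Real.exp_log (by positivity)]
  rw [h3] at h1
  have h4 : ((ball (app (σ' ++ blk a l 0 false) τ') ((j + 1) * n)).card : ℝ) < 2 ^ (2 * t) := by
    calc ((ball (app (σ' ++ blk a l 0 false) τ') ((j + 1) * n)).card : ℝ) ≤ C σ' * 2 ^ t := h1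
      _ < 2 ^ t * 2 ^ t := mul_lt_mul_of_pos_right (lt_of_le_of_lt h2 ht1) (by positivity)
      _ = 2 ^ (2 * t) := by rw [← pow_add]; congr 1; ring
  exact_mod_cast h4

end MP7daf
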