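import Pool.Agent.Lib.MP_7daf54_al.Sets

set_option autoImplicit false

/-!
# The wreath product over six points, and the generation lemma
-/

namespace MP7daf

/-- The permutational wreath product of `K` with the symmetric group of six points. -/
@[ext] structure Wr (K : Type) where
  f : Fin 6 → K
  s : Equiv.Perm (Fin 6)

namespace Wr

variable {K : Type} [Group K]

instance : Mul (Wr K) := ⟨fun a b => ⟨fun j => a.f (b.s j) * b.f j, a.s * b.s⟩⟩
instance : One (Wr K) := ⟨⟨fun _ => 1, 1⟩⟩
instance : Inv (Wr K) := ⟨fun a => ⟨fun j => (a.f (a.s⁻¹ j))⁻¹, a.s⁻¹⟩⟩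

@[simp] theorem mul_f (a b : Wr K) (j : Fin 6) : (a * b).f j = a.f (b.s j) * b.f j := rfl
@[simp] theorem mul_s (a b : Wr K) : (a * b).s = a.s * b.s := rfl
@[simp] theorem one_f (j : Fin 6) : (1 : Wr K).f j = 1 := rfl
@[simp] theorem one_s : (1 : Wr K).s = 1 := rfl
@[simp] theorem inv_f (a : Wr K) (j : Fin 6) : (a⁻¹).f j = (a.f (a.s⁻¹ j))⁻¹ := rfl
@[simp] theorem inv_s (a : Wr K) : (a⁻¹).s = a.s⁻¹ := rfl

instance : Group (Wr K) := Group.ofLeftAxioms
  (fun a b c => by ext j <;> simp [mul_assoc])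
  (fun a => by ext j <;> simp)
  (fun a => by ext j <;> simp)

/-- The projection to the symmetric group. -/
def proj : Wr K →* Equiv.Perm (Fin 6) where
  toFun a := a.s
  map_one' := rfl
  map_mul' _ _ := rfl

@[simp] theorem proj_apply (a : Wr K) : proj a = a.s := rfl

theorem conj_s (h n : Wr K) (hn : n.s = 1) : (h * n * h⁻¹).s = 1 := by simp [hn]

theorem conj_f (h n : Wr K) (hn : n.s = 1) (j : Fin 6) :
    (h * n * h⁻¹).f (h.s j) = h.f j * n.f j * (h.f j)⁻¹ := by
  simp [hn]

/-- **The generation lemma.** -/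
theorem gen (T : Subgroup (Wr K)) (hperf : commutator K = ⊤) (s0 t0 : Fin 6)
    (h2 : ∀ s t, s ≠ t → ∃ h ∈ T, h.s s0 = s ∧ h.s t0 = t)
    (hL : ∀ k : K, ∃ h ∈ T, h.s t0 = t0 ∧ h.f t0 = k)
    (hK : ∃ n ∈ T, n.s = 1 ∧ n.f s0 = 1 ∧ Subgroup.normalClosure {n.f t0} = ⊤) :
    ∀ f : Fin 6 → K, (⟨f, 1⟩ : Wr K) ∈ T := by
  classical
  -- the subgroups of base elements with prescribed triviality
  let Q : Fin 6 → Set (Fin 6) → Subgroup K := fun t S =>
    { carrier := {k | ∃ n ∈ T, n.s = 1 ∧ n.f t = k ∧ ∀ s ∈ S, n.f s = 1}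
      mul_mem' := by
        rintro a b ⟨n, hn, h1, h2, h3⟩ ⟨m, hm, g1, g2, g3⟩
        refine ⟨n * m, T.mul_mem hn hm, by simp [h1, g1], by simp [g1, h2, g2], fun s hs => ?_⟩
        simp [g1, h3 s hs, g3 s hs]
      one_mem' := ⟨1, T.one_mem, rfl, rfl, fun _ _ => rfl⟩
      inv_mem' := by
        rintro a ⟨n, hn, h1, h2, h3⟩
        refine ⟨n⁻¹, T.inv_mem hn, by simp [h1], by simp [h1, h2], fun s hs => ?_⟩
        simp [h1, h3 s hs] }
  have hQ : ∀ t S k, k ∈ Q t S ↔ ∃ n ∈ T, n.s = 1 ∧ n.f t = k ∧ ∀ s ∈ S, n.f s = 1 :=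
    fun t S k => Iff.rfl
  obtain ⟨n0, hn0, hs0, hf0, hnc⟩ := hK
  -- step 1
  have st1 : Q t0 ∅ = ⊤ := by
    have hN : (Q t0 ∅).Normal := by
      refine ⟨fun k hk y => ?_⟩
      obtain ⟨n, hn, h1, h2', -⟩ := hk
      obtain ⟨h, hh, g1, g2⟩ := hL y
      refine ⟨h * n * h⁻¹, T.mul_mem (T.mul_mem hh hn) (T.inv_mem hh), conj_s h n h1, ?_, by simp⟩
      have := conj_f h n h1 t0
      rw [g1, g2, h2'] at this
      exact this
    rw [eq_top_iff, ← hnc]
    refine Subgroup.normalClosure_le_normal ?_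
    rw [Set.singleton_subset_iff]
    exact ⟨n0, hn0, hs0, rfl, by simp⟩
  have st1' : ∀ t, Q t ∅ = ⊤ := by
    intro t
    rw [eq_top_iff]
    intro k _
    obtain ⟨s, hs⟩ : ∃ s, s ≠ t := exists_ne t
    obtain ⟨h, hh, g1, g2⟩ := h2 s t hs
    have : (h.f t0)⁻¹ * k * h.f t0 ∈ Q t0 ∅ := by rw [st1]; trivial
    obtain ⟨n, hn, h1, h3, -⟩ := this
    refine ⟨h * n * h⁻¹, T.mul_mem (T.mul_mem hh hn) (T.inv_mem hh), conj_s h n h1, ?_, by simp⟩
    have := conj_f h n h1 t0
    rw [g2, h3] at this
    rw [this]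
    group
  have hNormal : ∀ t S, (Q t S).Normal := by
    intro t S
    refine ⟨fun k hk y => ?_⟩
    obtain ⟨n, hn, h1, h2', h3⟩ := hk
    have : y ∈ Q t ∅ := by rw [st1']; trivial
    obtain ⟨h, hh, g1, g2, -⟩ := this
    refine ⟨h * n * h⁻¹, T.mul_mem (T.mul_mem hh hn) (T.inv_mem hh), conj_s h n h1, ?_, ?_⟩
    · have := conj_f h n h1 t
      rw [g1, g2, h2'] at this
      exact this
    · intro s hs
      have := conj_f h n h1 s
      rw [g1, h3 s hs] at this
      rw [Equiv.Perm.one_apply] at this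
      rw [this]
      group
  -- step 2
  have st2 : ∀ t s, s ≠ t → Q t {s} = ⊤ := by
    intro t s hs
    obtain ⟨h, hh, g1, g2⟩ := h2 s t hs
    have := hNormal t {s}
    rw [eq_top_iff, ← hnc]
    refine Subgroup.normalClosure_le_normal ?_
    rw [Set.singleton_subset_iff]
    have hmem : h.f t0 * n0.f t0 * (h.f t0)⁻¹ ∈ Q t {s} := by
      refine ⟨h * n0 * h⁻¹, T.mul_mem (T.mul_mem hh hn0) (T.inv_mem hh), conj_s h n0 hs0, ?_, ?_⟩
      · have := conj_f h n0 hs0 t0
        rw [g2] at this
        exact this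
      · intro s' hs'
        rw [Set.mem_singleton_iff] at hs'
        subst hs'
        have := conj_f h n0 hs0 s0
        rw [g1, hf0] at this
        rw [this]
        group
    have h5 := this.conj_mem _ hmem (h.f t0)⁻¹
    have e : (h.f t0)⁻¹ * (h.f t0 * n0.f t0 * (h.f t0)⁻¹) * (h.f t0)⁻¹⁻¹ = n0.f t0 := by group
    rw [e] at h5
    exact h5
  -- step 3
  have st3 : ∀ (t : Fin 6) (S : Finset (Fin 6)), t ∉ S → Q t (S : Set (Fin 6)) = ⊤ := by
    intro t S
    induction S using Finset.induction_on with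
    | empty => intro _; simpa using st1' t
    | insert s S hsS ih =>
      intro ht
      rw [Finset.mem_insert, not_or] at ht
      have hS := ih ht.2
      have hs := st2 t s (Ne.symm ht.1)
      rw [eq_top_iff, ← hperf, commutator_def, Subgroup.commutator_le]
      intro k _ k' _
      have hk : k ∈ Q t (S : Set (Fin 6)) := by rw [hS]; trivial
      have hk' : k' ∈ Q t {s} := by rw [hs]; trivial
      obtain ⟨n, hn, h1, h2', h3⟩ := hk
      obtain ⟨m, hm, g1, g2, g3⟩ := hk'
      refine ⟨n * m * n⁻¹ * m⁻¹, ?_, ?_, ?_, ?_⟩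
      · exact T.mul_mem (T.mul_mem (T.mul_mem hn hm) (T.inv_mem hn)) (T.inv_mem hm)
      · simp [h1, g1]
      · simp [commutatorElement_def, h1, g1, h2', g2]
      · intro r hr
        rw [Finset.coe_insert, Set.mem_insert_iff] at hr
        rcases hr with rfl | hr
        · simp [h1, g1, g3 r rfl]
        · simp [h1, g1, h3 r hr]
  -- step 4
  intro f
  let B : Subgroup (Fin 6 → K) :=
    { carrier := {g | (⟨g, 1⟩ : Wr K) ∈ T}
      mul_mem' := by
        intro a b ha hb
        have := T.mul_mem ha hb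
        have e : (⟨a, 1⟩ : Wr K) * ⟨b, 1⟩ = ⟨a * b, 1⟩ := by ext j <;> simp
        rw [e] at this
        exact this
      one_mem' := T.one_mem
      inv_mem' := by
        intro a ha
        have := T.inv_mem ha
        have e : (⟨a, 1⟩ : Wr K)⁻¹ = ⟨a⁻¹, 1⟩ := by ext j <;> simp
        rw [e] at this
        exact this }
  change f ∈ B
  refine Subgroup.pi_mem_of_mulSingle_mem f fun t => ?_
  have hk : f t ∈ Q t ((Finset.univ.erase t : Finset (Fin 6)) : Set (Fin 6)) := by
    rw [st3 t _ (by simp)]; trivial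
  obtain ⟨n, hn, h1, h2', h3⟩ := hk
  have e : n = (⟨Pi.mulSingle t (f t), 1⟩ : Wr K) := by
    ext j
    · by_cases hj : j = t
      · subst hj; simp [h2']
      · rw [h3 j (by simp [hj])]
        simp [Pi.mulSingle_eq_of_ne hj]
    · rw [h1]
  rw [e] at hn
  exact hn

end Wr

/-- A perfect group generated by two involutions is trivial. -/
theorem perfect_two_involutions {Q : Type} [Group Q] (hperf : commutator Q = ⊤) (a b : Q)
    (ha : a * a = 1) (hb : b * b = 1) (hgen : Subgroup.closure {a, b} = ⊤) : ∀ q : Q, q = 1 := by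
  set r := a * b with hr
  have ha' : a⁻¹ = a := inv_eq_of_mul_eq_one_right ha
  have hb' : b⁻¹ = b := inv_eq_of_mul_eq_one_right hb
  have har : ∀ n : ℤ, a * r ^ n * a⁻¹ = r ^ (-n) := by
    intro n
    have h1 : a * r * a⁻¹ = r⁻¹ := by
      rw [hr, mul_inv_rev, ha', hb', ← mul_assoc, ha, one_mul]
    rw [← conj_zpow, h1, inv_zpow, zpow_neg]
  have hbr : ∀ n : ℤ, b * r ^ n * b⁻¹ = r ^ (-n) := by
    intro n
    have h1 : b * r * b⁻¹ = r⁻¹ := by
      rw [hr, mul_inv_rev, ha', hb', mul_assoc, mul_assoc, hb, mul_one]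
    rw [← conj_zpow, h1, inv_zpow, zpow_neg]
  have hN : (Subgroup.zpowers r).Normal := by
    refine ⟨fun n hn g => ?_⟩
    have hg : g ∈ Subgroup.closure {a, b} := by rw [hgen]; trivial
    revert n
    induction hg using Subgroup.closure_induction with
    | mem x hx =>
      intro n hn
      obtain ⟨m, rfl⟩ := Subgroup.mem_zpowers_iff.mp hn
      rcases hx with rfl | hx
      · rw [har]; exact Subgroup.zpow_mem_zpowers _ _
      · rw [Set.mem_singleton_iff] at hx
        subst hx
        rw [hbr]; exact Subgroup.zpow_mem_zpowers _ _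
    | one => intro n hn; simpa using hn
    | mul x y _ _ ihx ihy =>
      intro n hn
      have := ihx _ (ihy n hn)
      rw [mul_inv_rev]
      simpa [mul_assoc] using this
    | inv x hx ih =>
      intro n hn
      -- conjugation by x maps zpowers r into itself; we need the inverse
      have key : ∀ g : Q, g ∈ Subgroup.closure {a, b} → ∀ n ∈ Subgroup.zpowers r,
          g * n * g⁻¹ ∈ Subgroup.zpowers r ∧ g⁻¹ * n * g ∈ Subgroup.zpowers r := by
        intro g hg
        induction hg using Subgroup.closure_induction with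
        | mem x hx =>
          intro n hn
          obtain ⟨m, rfl⟩ := Subgroup.mem_zpowers_iff.mp hn
          rcases hx with rfl | hx
          · refine ⟨by rw [har]; exact Subgroup.zpow_mem_zpowers _ _, ?_⟩
            have := har m
            rw [ha'] at this ⊢
            rw [this]; exact Subgroup.zpow_mem_zpowers _ _
          · rw [Set.mem_singleton_iff] at hx
            subst hx
            refine ⟨by rw [hbr]; exact Subgroup.zpow_mem_zpowers _ _, ?_⟩
            have := hbr m
            rw [hb'] at this ⊢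
            rw [this]; exact Subgroup.zpow_mem_zpowers _ _
        | one => intro n hn; simpa using hn
        | mul x y _ _ ihx ihy =>
          intro n hn
          refine ⟨?_, ?_⟩
          · have := (ihx _ (ihy n hn).1).1
            rw [mul_inv_rev]
            simpa [mul_assoc] using this
          · have := (ihy _ (ihx n hn).2).2
            rw [mul_inv_rev]
            simpa [mul_assoc] using this
        | inv x _ ih =>
          intro n hn
          refine ⟨by simpa using (ih n hn).2, by simpa using (ih n hn).1⟩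
      have := (key x hx n hn).2
      simpa using this
  -- the quotient by the cyclic normal subgroup is generated by one element
  have hle : commutator Q ≤ Subgroup.zpowers r := by
    rw [commutator_def, Subgroup.commutator_le]
    -- every element is r^n or r^n * a
    have hel : ∀ g : Q, (∃ n : ℤ, g = r ^ n) ∨ ∃ n : ℤ, g = r ^ n * a := by
      intro g
      have hg : g ∈ Subgroup.closure {a, b} := by rw [hgen]; trivial
      induction hg using Subgroup.closure_induction with
      | mem x hx =>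
        rcases hx with rfl | hx
        · exact Or.inr ⟨0, by simp⟩
        · rw [Set.mem_singleton_iff] at hx
          subst hx
          right
          refine ⟨-1, ?_⟩
          have := har 1
          rw [zpow_one] at this
          rw [← this, ha', mul_assoc, mul_assoc, ha, mul_one, hr, ← mul_assoc, ha, one_mul]
      | one => exact Or.inl ⟨0, by simp⟩
      | mul x y _ _ ihx ihy =>
        have hcomm : ∀ n : ℤ, a * r ^ n = r ^ (-n) * a := by
          intro n; rw [← har n]; group
        rcases ihx with ⟨n, rfl⟩ | ⟨n, rfl⟩ <;> rcases ihy with ⟨m, rfl⟩ | ⟨m, rfl⟩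
        · exact Or.inl ⟨n + m, by rw [zpow_add]⟩
        · exact Or.inr ⟨n + m, by rw [zpow_add, mul_assoc]⟩
        · exact Or.inr ⟨n + -m, by rw [mul_assoc, hcomm, zpow_add, mul_assoc]⟩
        · exact Or.inl ⟨n + -m, by
            rw [mul_assoc, ← mul_assoc a, hcomm, mul_assoc, ha, mul_one, zpow_add]⟩
      | inv x _ ih =>
        have hcomm : ∀ n : ℤ, a * r ^ n = r ^ (-n) * a := by
          intro n; rw [← har n]; group
        rcases ih with ⟨n, rfl⟩ | ⟨n, rfl⟩
        · exact Or.inl ⟨-n, by rw [zpow_neg]⟩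
        · refine Or.inr ⟨n, ?_⟩
          rw [mul_inv_rev, ha', ← zpow_neg, hcomm, neg_neg]
    intro g _ h _
    have hcomm : ∀ n : ℤ, a * r ^ n = r ^ (-n) * a := by
      intro n; rw [← har n]; group
    have hcomm' : ∀ n : ℤ, a * r ^ n * a⁻¹ = r ^ (-n) := har
    rw [commutatorElement_def]
    rcases hel g with ⟨n, rfl⟩ | ⟨n, rfl⟩ <;> rcases hel h with ⟨m, rfl⟩ | ⟨m, rfl⟩
    · refine ⟨0, ?_⟩
      simp only [zpow_zero]
      have : r ^ n * r ^ m = r ^ m * r ^ n := by rw [← zpow_add, ← zpow_add, add_comm]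
      rw [this]; group
    · refine ⟨n + n, ?_⟩
      simp only [mul_inv_rev]
      have : r ^ n * (r ^ m * a) * (r ^ n)⁻¹ * (a⁻¹ * (r ^ m)⁻¹) =
          r ^ n * r ^ m * (a * r ^ (-n) * a⁻¹) * (r ^ m)⁻¹ := by
        rw [zpow_neg]; group
      rw [this, har, neg_neg, ← zpow_neg, ← zpow_add, ← zpow_add, ← zpow_add]
      congr 1; ring
    · refine ⟨-(m + m), ?_⟩
      simp only [mul_inv_rev]
      have : r ^ n * a * r ^ m * (a⁻¹ * (r ^ n)⁻¹) * (r ^ m)⁻¹ =
          r ^ n * (a * r ^ m * a⁻¹) * (r ^ n)⁻¹ * (r ^ m)⁻¹ := by group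
      rw [this, har, ← zpow_neg, ← zpow_neg, ← zpow_add, ← zpow_add, ← zpow_add]
      congr 1; ring
    · refine ⟨n + n - m - m, ?_⟩
      simp only [mul_inv_rev]
      have : r ^ n * a * (r ^ m * a) * (a⁻¹ * (r ^ n)⁻¹) * (a⁻¹ * (r ^ m)⁻¹) =
          r ^ n * (a * r ^ (m - n) * a⁻¹) * (r ^ m)⁻¹ := by
        rw [zpow_sub]; group
      rw [this, har, ← zpow_neg, ← zpow_add, ← zpow_add]
      congr 1; ring
  rw [hperf] at hle
  -- the group is abelian
  have hab : ∀ g h : Q, g * h = h * g := by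
    intro g h
    obtain ⟨n, rfl⟩ := Subgroup.mem_zpowers_iff.mp (hle (Subgroup.mem_top g))
    obtain ⟨m, rfl⟩ := Subgroup.mem_zpowers_iff.mp (hle (Subgroup.mem_top h))
    rw [← zpow_add, ← zpow_add, add_comm]
  have hbot : commutator Q = ⊥ := by
    rw [eq_bot_iff, commutator_def, Subgroup.commutator_le]
    intro g _ h _
    rw [Subgroup.mem_bot, commutatorElement_def, hab g h]
    group
  intro q
  have : q ∈ (⊤ : Subgroup Q) := Subgroup.mem_top q
  rw [← hperf, hbot, Subgroup.mem_bot] at this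
  exact this

end MP7daf
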